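import Pool.Agent.Lib.MP_ca0fc2_an.EQ.L3
import Pool.Agent.Lib.MP_ca0fc2_an.EQ.Z2
import Pool.Agent.Lib.MP_ca0fc2_an.EQ.Z4
import Pool.Agent.Lib.MP_ca0fc2_an.EQ.U1
import Pool.Agent.Lib.MP_ca0fc2_an.EQ.C2
import Pool.Agent.Lib.MP_ca0fc2_an.EQ.C3
import Pool.Agent.Lib.MP_ca0fc2_an.EQ.GR4
import Pool.Agent.Lib.MP_ca0fc2_an.TB.J1
import Pool.Agent.Lib.MP_ca0fc2_an.LV.S5
import Pool.Agent.Lib.MP_ca0fc2_an.Defs
import Pool.Agent.Lib.MP_ca0fc2_an.XC.AD
import Pool.Agent.Lib.MP_ca0fc2_an.XC.X19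

/-!
# The corona problem for all strictly pseudoconvex domains is the one for the ball

Let `n ≥ 2`. For each number `N` of functions the following are equivalent: the corona theorem holds
on every strictly pseudoconvex domain in `ℂᵐ`, `2 ≤ m ≤ n`; it holds on one nonempty bounded open
set in `ℂⁿ` with a boundary of class `C²` (pseudoconvex or not); it holds on the ball of `ℂⁿ`; it
holds on the ball with bounds which depend only on the lower bound of the data; there are local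
solutions near all boundary points of all strictly pseudoconvex domains in `ℂⁿ`, with the same
bounds; for some boundary point `p` of some strictly pseudoconvex domain and some function `φ` (of
arbitrary growth at `0`) the data which are continuous up to the boundary except at `p` have solutions
near `p` which are bounded by `C φ(|z - p|)`, where `C` depends on the data; the corona theorem holds on
all strictly pseudoconvex domains `D` in `ℂᵐ`, `2 ≤ m ≤ n`, for `N` arbitrary functions together with any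
number of functions which are continuous on the closure of `D`; for all `0 < δ < 1` and some `F`, the data
`f` on the ball with `|f_j| ≤ 1`, `|f| ≥ δ` which have a bounded solution near at least one boundary point,
or for which the distance of `F` to the ideal generated by `f` is smaller than the norm of `F`, are not
meager.

Without any hypothesis the local corona constants are universal: if for one boundary point `p` of one
strictly pseudoconvex domain `D` in `ℂⁿ` all data near `p` with the lower bound `δ'` have solutions near `p`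
with the bound `A`, then the same holds near all boundary points of all strictly pseudoconvex domains in
`ℂⁿ`, for all `δ > δ'` and all bounds `A' > A`.
-/

set_option autoImplicit false

open Metric Set Filter MeasureTheory
open scoped NNReal
open Pool.Agent.Lib.MP_ca0fc2_an
open Pool.Agent.Lib.MP_ca0fc2_an.ZL

namespace Pool.Agent.Results.MP_ca0fc2_an.AllDomains

/-- Q1 on `D` for `N` functions: all corona data `f₁, …, f_N` on `D` have solutions. -/
def Q1On {n : ℕ} (N : ℕ) (D : Set (EuclideanSpace ℂ (Fin n))) : Prop :=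
  ∀ f : Fin N → EuclideanSpace ℂ (Fin n) → ℂ, (∀ j, IsHinf D (f j)) →
    (∃ δ > 0, ∀ z ∈ D, δ ≤ ∑ j, ‖f j z‖ ^ 2) →
    ∃ h : Fin N → EuclideanSpace ℂ (Fin n) → ℂ, (∀ j, IsHinf D (h j)) ∧
      ∀ z ∈ D, ∑ j, f j z * h j z = 1

/-- All holomorphic `f₁, …, f_N` on `U` with `δ² ≤ ∑ |f_j|² ≤ 1` have solutions on `V ⊆ U` with
`∑ |h_j|² ≤ A²`. -/
def UniformQ1 {n : ℕ} (N : ℕ) (δ A : ℝ) (U V : Set (EuclideanSpace ℂ (Fin n))) : Prop :=
  ∀ f : Fin N → EuclideanSpace ℂ (Fin n) → ℂ, (∀ j, DifferentiableOn ℂ (f j) U) →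
    (∀ z ∈ U, δ ^ 2 ≤ ∑ j, ‖f j z‖ ^ 2 ∧ ∑ j, ‖f j z‖ ^ 2 ≤ 1) →
    ∃ h : Fin N → EuclideanSpace ℂ (Fin n) → ℂ, (∀ j, DifferentiableOn ℂ (h j) V) ∧
      ∀ z ∈ V, ∑ j, f j z * h j z = 1 ∧ ∑ j, ‖h j z‖ ^ 2 ≤ A ^ 2

/-- Data on `D` which are continuous up to the boundary except at `p` have solutions `h` near `p` with
`|h_j(z)| ≤ C φ(|z - p|)`, where `C` depends on the data. (For `φ = 1` these are bounded solutions.) -/
def OnePoint {n : ℕ} (N : ℕ) (D : Set (EuclideanSpace ℂ (Fin n))) (p : EuclideanSpace ℂ (Fin n))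
    (φ : ℝ → ℝ≥0) : Prop :=
  ∀ f : Fin N → EuclideanSpace ℂ (Fin n) → ℂ, (∀ j, IsHinf D (f j)) →
    (∀ j, ContinuousOn (f j) (closure D \ {p})) →
    (∃ δ > 0, ∀ z ∈ D, δ ≤ ∑ j, ‖f j z‖ ^ 2) →
    ∃ r > 0, ∃ (C : ℝ) (h : Fin N → EuclideanSpace ℂ (Fin n) → ℂ),
      (∀ j, DifferentiableOn ℂ (h j) (D ∩ ball p r)) ∧
      ∀ z ∈ D ∩ ball p r, ∑ j, f j z * h j z = 1 ∧ ∀ j, ‖h j z‖ ≤ C * φ ‖z - p‖

/-- The corona theorem on `D` for `N` bounded holomorphic functions and `M` functions of the algebra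
`A(D)` of the continuous functions on the closure of `D` which are holomorphic on `D`. -/
def MixedQ1 {n : ℕ} (N M : ℕ) (D : Set (EuclideanSpace ℂ (Fin n))) : Prop :=
  ∀ (f : Fin N → EuclideanSpace ℂ (Fin n) → ℂ) (g : Fin M → EuclideanSpace ℂ (Fin n) → ℂ),
    (∀ j, IsHinf D (f j)) → (∀ i, DifferentiableOn ℂ (g i) D ∧ ContinuousOn (g i) (closure D)) →
    (∃ δ > 0, ∀ z ∈ D, δ ≤ ∑ j, ‖f j z‖ ^ 2 + ∑ i, ‖g i z‖ ^ 2) →
    ∃ (h : Fin N → EuclideanSpace ℂ (Fin n) → ℂ) (k : Fin M → EuclideanSpace ℂ (Fin n) → ℂ),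
      (∀ j, IsHinf D (h j)) ∧ (∀ i, IsHinf D (k i)) ∧
      ∀ z ∈ D, ∑ j, f j z * h j z + ∑ i, g i z * k i z = 1

/-- The data `f` on the ball have a bounded solution near at least one boundary point. -/
def SolvableSomewhere {n N : ℕ}
    (f : C(ball (0 : EuclideanSpace ℂ (Fin n)) 1, EuclideanSpace ℂ (Fin N))) : Prop :=
  ∃ p ∈ sphere (0 : EuclideanSpace ℂ (Fin n)) 1, ∃ r > 0,
    ∃ h : Fin N → EuclideanSpace ℂ (Fin n) → ℂ, (∀ j, IsHinf (ball 0 1 ∩ ball p r) (h j)) ∧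
      ∀ z ∈ ball 0 1 ∩ ball p r, ∑ j, ext f z j * h j z = 1

/-- In the supremum norm on the ball `F` is closer to some element of the ideal of `H^∞(B)` generated by
the data `f` than to `0`. -/
def CloseToIdeal {n N : ℕ} (F : EuclideanSpace ℂ (Fin n) → ℂ)
    (f : C(ball (0 : EuclideanSpace ℂ (Fin n)) 1, EuclideanSpace ℂ (Fin N))) : Prop :=
  ∃ h : Fin N → EuclideanSpace ℂ (Fin n) → ℂ, (∀ j, IsHinf (ball 0 1) (h j)) ∧
    ∃ s : ℝ, (∀ z ∈ ball (0 : EuclideanSpace ℂ (Fin n)) 1,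
      ‖F z - ∑ j, ext f z j * h j z‖ ≤ s) ∧
      ∃ z ∈ ball (0 : EuclideanSpace ℂ (Fin n)) 1, s < ‖F z‖

/-- The statement for vector valued functions. -/
theorem uniformQ1_iff {n N : ℕ} {δ A : ℝ} (hδ : 0 < δ) (hA : 0 ≤ A)
    {U V : Set (EuclideanSpace ℂ (Fin n))} : UniformQ1 N δ A U V ↔
      ∀ f : EuclideanSpace ℂ (Fin n) → EuclideanSpace ℂ (Fin N), DifferentiableOn ℂ f U →
        (∀ z ∈ U, δ ≤ ‖f z‖ ∧ ‖f z‖ ≤ 1) → Pool.Agent.MPca0fc2.TB.Solv f V A := by
  constructor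
  · intro hU F hF hFb
    obtain ⟨H, hH, hH1⟩ := hU (fun j z => F z j)
      (fun j => (EuclideanSpace.proj (𝕜 := ℂ) j).differentiable.comp_differentiableOn hF)
      (fun z hz => by
        obtain ⟨h1, h2⟩ := hFb z hz
        rw [← EuclideanSpace.norm_sq_eq]
        exact ⟨pow_le_pow_left₀ hδ.le h1 2, by nlinarith [norm_nonneg (F z)]⟩)
    refine ⟨fun z => WithLp.toLp 2 fun j => H j z, ?_, fun z hz => ?_, fun z hz => (hH1 z hz).1⟩
    · intro z hz
      rw [differentiableWithinAt_euclidean]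
      intro j
      exact hH j z hz
    · have h3 : ‖(WithLp.toLp 2 fun j => H j z : EuclideanSpace ℂ (Fin N))‖ ^ 2 ≤ A ^ 2 := by
        rw [EuclideanSpace.norm_sq_eq]
        exact (hH1 z hz).2
      exact (sq_le_sq₀ (norm_nonneg _) hA).mp h3
  · intro hU f hf hfb
    have hfv : DifferentiableOn ℂ
        (fun z => (WithLp.toLp 2 fun j => f j z : EuclideanSpace ℂ (Fin N))) U := by
      intro z hz
      rw [differentiableWithinAt_euclidean]
      intro j
      exact hf j z hz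
    obtain ⟨h, hh, hhA, hsol⟩ := hU _ hfv (fun z hz => by
      obtain ⟨h1, h2⟩ := hfb z hz
      have h3 : ‖(WithLp.toLp 2 fun j => f j z : EuclideanSpace ℂ (Fin N))‖ ^ 2 =
          ∑ j, ‖f j z‖ ^ 2 := by rw [EuclideanSpace.norm_sq_eq]
      rw [← h3] at h1 h2
      constructor
      · exact (sq_le_sq₀ hδ.le (norm_nonneg _)).mp h1
      · exact (sq_le_sq₀ (norm_nonneg _) zero_le_one).mp (by simpa using h2))
    refine ⟨fun j z => h z j,
      fun j => (EuclideanSpace.proj (𝕜 := ℂ) j).differentiable.comp_differentiableOn hh,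
      fun z hz => ⟨hsol z hz, ?_⟩⟩
    rw [← EuclideanSpace.norm_sq_eq]
    exact pow_le_pow_left₀ (norm_nonneg _) (hhA z hz) 2

/-- Normalisation of the data. -/
theorem exists_of_uniform {n N : ℕ} {U : Set (EuclideanSpace ℂ (Fin n))}
    {f : Fin N → EuclideanSpace ℂ (Fin n) → ℂ} (hf : ∀ j, IsHinf U (f j))
    (hδ : ∃ δ > 0, ∀ z ∈ U, δ ≤ ∑ j, ‖f j z‖ ^ 2) : ∃ δ > 0, ∀ V A, UniformQ1 N δ A U V →
      ∃ h : Fin N → EuclideanSpace ℂ (Fin n) → ℂ, (∀ j, IsHinf V (h j)) ∧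
        ∀ z ∈ V, ∑ j, f j z * h j z = 1 := by
  obtain ⟨δ, hδ, hfδ⟩ := hδ
  choose hfd M hM using hf
  set K : ℝ := 1 + ∑ j, |M j| with hK
  have hs0 : 0 ≤ ∑ j, |M j| := Finset.sum_nonneg fun j _ => abs_nonneg _
  have hK0 : 0 < K := by linarith
  have hup : ∀ z ∈ U, ∑ j, ‖f j z‖ ^ 2 ≤ K ^ 2 := by
    intro z hz
    calc ∑ j, ‖f j z‖ ^ 2 ≤ ∑ j, |M j| ^ 2 := Finset.sum_le_sum fun j _ =>
          pow_le_pow_left₀ (norm_nonneg _) ((hM j z hz).trans (le_abs_self _)) 2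
      _ ≤ (∑ j, |M j|) ^ 2 := Finset.sum_sq_le_sq_sum_of_nonneg fun j _ => abs_nonneg _
      _ ≤ K ^ 2 := pow_le_pow_left₀ hs0 (by linarith) 2
  have hng : ∀ j z, ‖((K : ℂ)⁻¹) * f j z‖ ^ 2 = ‖f j z‖ ^ 2 / K ^ 2 := by
    intro j z
    rw [norm_mul, norm_inv, Complex.norm_real, Real.norm_of_nonneg hK0.le]
    field_simp
  refine ⟨Real.sqrt (δ / K ^ 2), Real.sqrt_pos.2 (by positivity), fun V A hA => ?_⟩
  obtain ⟨h, hh, hh1⟩ := hA (fun j z => (K : ℂ)⁻¹ * f j z) (fun j => (hfd j).const_mul _) (by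
    intro z hz
    rw [Real.sq_sqrt (by positivity)]
    simp only [hng]
    rw [← Finset.sum_div]
    constructor
    · exact div_le_div_of_nonneg_right (hfδ z hz) (by positivity)
    · rw [div_le_one (by positivity)]
      exact hup z hz)
  refine ⟨fun j z => (K : ℂ)⁻¹ * h j z, fun j => ⟨(hh j).const_mul _, K⁻¹ * |A|, ?_⟩, ?_⟩
  · intro z hz
    rw [norm_mul, norm_inv, Complex.norm_real, Real.norm_of_nonneg hK0.le]
    refine mul_le_mul_of_nonneg_left ?_ (by positivity)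
    have h1 := (hh1 z hz).2
    have h2 : ‖h j z‖ ^ 2 ≤ A ^ 2 := (Finset.single_le_sum
      (f := fun j => ‖h j z‖ ^ 2) (fun _ _ => sq_nonneg _) (Finset.mem_univ j)).trans h1
    rw [← sq_abs A] at h2
    exact (sq_le_sq₀ (norm_nonneg _) (abs_nonneg _)).mp h2
  · intro z hz
    rw [← (hh1 z hz).1]
    refine Finset.sum_congr rfl fun j _ => ?_
    ring

/-- A global solution is a local one. -/
theorem onePoint_of_q1 {n N : ℕ} {D : Set (EuclideanSpace ℂ (Fin n))} (hQ : Q1On N D)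
    (p : EuclideanSpace ℂ (Fin n)) : OnePoint N D p 1 := by
  intro f hf _ hδ
  obtain ⟨h, hh, hh1⟩ := hQ f hf hδ
  choose hd M hM using hh
  refine ⟨1, one_pos, ∑ j, |M j|, h, fun j => (hd j).mono inter_subset_left,
    fun z hz => ⟨hh1 z hz.1, fun j => ?_⟩⟩
  simp only [Pi.one_apply, NNReal.coe_one, mul_one]
  exact (hM j z hz.1).trans ((le_abs_self _).trans
    (Finset.single_le_sum (f := fun j => |M j|) (fun _ _ => abs_nonneg _) (Finset.mem_univ j)))

theorem UniformQ1.mono {n N : ℕ} {δ A B : ℝ} {U V : Set (EuclideanSpace ℂ (Fin n))}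
    (h : UniformQ1 N δ A U V) (hAB : |A| ≤ B) : UniformQ1 N δ B U V := by
  intro f hf hfb
  obtain ⟨H, hH, hH1⟩ := h f hf hfb
  exact ⟨H, hH, fun z hz => ⟨(hH1 z hz).1, (hH1 z hz).2.trans (by
    rw [← sq_abs A]
    exact pow_le_pow_left₀ (abs_nonneg _) hAB 2)⟩⟩

/-- Strictly pseudoconvex domains have a boundary of class `C²`. -/
theorem hasC2Boundary_of_psc {n : ℕ} {D : Set (EuclideanSpace ℂ (Fin n))}
    (hD : IsStrictlyPscDomain D) : HasC2Boundary D := by
  obtain ⟨-, W, ρ, hW, hDW, hρ, hDe, hfr⟩ := hD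
  refine ⟨W, ρ, hW, hDW, hρ.of_le (WithTop.coe_le_coe.2 le_top), hDe, fun z hz h0 => ?_⟩
  obtain ⟨X, hX⟩ := (hfr z hz).1
  exact hX (by rw [dirDeriv, h0]; rfl)

/-- The hypothesis on local solutions, for vector valued functions. -/
theorem onePoint_vec {n N : ℕ} {D : Set (EuclideanSpace ℂ (Fin n))} {p : EuclideanSpace ℂ (Fin n)}
    {φ : ℝ → ℝ≥0} (hc : OnePoint N D p φ) {δ : ℝ} (hδ : 0 < δ)
    (F : EuclideanSpace ℂ (Fin n) → EuclideanSpace ℂ (Fin N)) (hF : DifferentiableOn ℂ F D)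
    (hFc : ContinuousOn F (closure D \ {p})) (hFb : ∀ z ∈ D, δ ≤ ‖F z‖ ∧ ‖F z‖ ≤ 1) :
    ∃ r > 0, ∃ C : ℝ, 0 ≤ C ∧ ∃ h : EuclideanSpace ℂ (Fin n) → EuclideanSpace ℂ (Fin N),
      DifferentiableOn ℂ h (D ∩ ball p r) ∧ ∀ z ∈ D ∩ ball p r,
        ∑ j, F z j * h z j = 1 ∧ ‖h z‖ ≤ C * (φ ‖z - p‖ : ℝ) := by
  obtain ⟨r, hr, C, h, hh, hsol⟩ := hc (fun j z => F z j)
    (fun j => ⟨(EuclideanSpace.proj (𝕜 := ℂ) j).differentiable.comp_differentiableOn hF,
      1, fun z hz => (PiLp.norm_apply_le (F z) j).trans (hFb z hz).2⟩)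
    (fun j => (EuclideanSpace.proj (𝕜 := ℂ) j).continuous.comp_continuousOn hFc)
    ⟨δ ^ 2, by positivity, fun z hz => by
      rw [← EuclideanSpace.norm_sq_eq]
      exact pow_le_pow_left₀ hδ.le (hFb z hz).1 2⟩
  refine ⟨r, hr, N * |C|, by positivity, fun z => WithLp.toLp 2 fun j => h j z, ?_,
    fun z hz => ⟨(hsol z hz).1, ?_⟩⟩
  · intro z hz
    rw [differentiableWithinAt_euclidean]
    intro j
    exact hh j z hz
  · have h1 : ∀ j, ‖h j z‖ ≤ |C| * (φ ‖z - p‖ : ℝ) := fun j => ((hsol z hz).2 j).trans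
      (mul_le_mul_of_nonneg_right (le_abs_self _) (NNReal.coe_nonneg _))
    have h2 : 0 ≤ |C| * (φ ‖z - p‖ : ℝ) := by positivity
    rw [EuclideanSpace.norm_eq]
    refine (Real.sqrt_le_sqrt (Finset.sum_le_sum fun j _ =>
      pow_le_pow_left₀ (norm_nonneg _) (h1 j) 2)).trans ?_
    rw [Finset.sum_const, Finset.card_univ, Fintype.card_fin, nsmul_eq_mul]
    rw [Real.sqrt_le_left (by positivity)]
    have h3 : (N : ℝ) ≤ (N : ℝ) ^ 2 := by exact_mod_cast Nat.le_self_pow two_ne_zero N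
    calc (N : ℝ) * (|C| * (φ ‖z - p‖ : ℝ)) ^ 2 ≤ (N : ℝ) ^ 2 * (|C| * (φ ‖z - p‖ : ℝ)) ^ 2 :=
          mul_le_mul_of_nonneg_right h3 (sq_nonneg _)
      _ = (N * |C| * (φ ‖z - p‖ : ℝ)) ^ 2 := by ring

/-- From one boundary point to uniform bounds on the ball. -/
theorem uniform_of_onePoint {n N : ℕ} {D : Set (EuclideanSpace ℂ (Fin n))} (hDo : IsOpen D)
    {p : EuclideanSpace ℂ (Fin n)} (hp : p ∈ frontier D)
    (hacc : ∀ ε > 0, ∃ q ∈ frontier D, q ≠ p ∧ ‖q - p‖ < ε ∧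
      ∃ e, Pool.Agent.MPca0fc2.TB.Trans D q e) (hc : OnePoint N D p 1) :
    ∀ δ > 0, ∃ A : ℝ, UniformQ1 N δ A (ball (0 : EuclideanSpace ℂ (Fin n)) 1) (ball 0 1) := by
  intro δ hδ
  obtain ⟨A, hA⟩ := Pool.Agent.MPca0fc2.EQ.uniform_ball_gen (N := N) hDo hp hacc
    (δ' := δ / 2) (δ := δ) (half_pos hδ) (half_lt_self hδ) (by
    intro F hF hFc hFb
    obtain ⟨r, hr, C, -, h, hh, hsol⟩ := onePoint_vec hc (half_pos hδ) F hF hFc hFb
    exact ⟨r, hr, C, h, hh, fun z hz => by simpa using (hsol z hz).2, fun z hz => (hsol z hz).1⟩)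
  refine ⟨|A|, (uniformQ1_iff hδ (abs_nonneg A)).2 fun f hf hfb => ?_⟩
  obtain ⟨h, hh, hhA, hsol⟩ := hA f hf hfb
  exact ⟨h, hh, fun z hz => (hhA z hz).trans (le_abs_self _), hsol⟩

/-- From one boundary point of a strictly pseudoconvex domain, and solutions of arbitrary growth, to
uniform bounds on the ball. -/
theorem uniform_of_growth {n N : ℕ} (hn : 1 ≤ n) {D : Set (EuclideanSpace ℂ (Fin n))}
    (hD : IsStrictlyPscDomain D) {p : EuclideanSpace ℂ (Fin n)} (hp : p ∈ frontier D) {φ : ℝ → ℝ≥0}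
    (hφ : AntitoneOn φ (Ioi 0)) (hc : OnePoint N D p φ) :
    ∀ δ > 0, ∃ A : ℝ, UniformQ1 N δ A (ball (0 : EuclideanSpace ℂ (Fin n)) 1) (ball 0 1) := by
  intro δ hδ
  obtain ⟨hDo, hacc⟩ := Pool.Agent.MPca0fc2.EQ.acc_psc hn hD hp
  obtain ⟨A, hA⟩ := Pool.Agent.MPca0fc2.EQ.uniform_ball_growth (N := N) hn hDo hp hacc
    (φ := fun t => (φ t : ℝ)) (fun a ha b hb hab => NNReal.coe_le_coe.2 (hφ ha hb hab))
    (fun t => NNReal.coe_nonneg _) (half_pos hδ) (half_lt_self hδ)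
    (fun F hF hFc hFb => onePoint_vec hc (half_pos hδ) F hF hFc hFb)
  refine ⟨|A|, (uniformQ1_iff hδ (abs_nonneg A)).2 fun f hf hfb => ?_⟩
  obtain ⟨h, hh, hhA, hsol⟩ := hA f hf hfb
  exact ⟨h, hh, fun z hz => (hhA z hz).trans (le_abs_self _), hsol⟩

theorem core {n N : ℕ} (hn : 2 ≤ n) :
    List.TFAE [
      -- (a) Q1 for `N` functions on all strictly pseudoconvex domains in `ℂᵐ`, `2 ≤ m ≤ n`
      ∀ m, 2 ≤ m → m ≤ n → ∀ D : Set (EuclideanSpace ℂ (Fin m)), IsStrictlyPscDomain D → Q1On N D,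
      -- (b) Q1 for `N` functions on one nonempty bounded open set in `ℂⁿ` with a `C²` boundary
      ∃ D : Set (EuclideanSpace ℂ (Fin n)), Bornology.IsBounded D ∧ HasC2Boundary D ∧
        D.Nonempty ∧ Q1On N D,
      -- (c) Q1 for `N` functions on the ball of `ℂⁿ`
      Q1On N (ball (0 : EuclideanSpace ℂ (Fin n)) 1),
      -- (d) the same with uniform bounds
      ∀ δ > 0, ∃ A : ℝ, UniformQ1 N δ A (ball (0 : EuclideanSpace ℂ (Fin n)) 1) (ball 0 1),
      -- (e) local solutions near all boundary points of all domains, with uniform bounds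
      ∀ δ > 0, ∃ A : ℝ, ∀ D : Set (EuclideanSpace ℂ (Fin n)), IsStrictlyPscDomain D →
        ∀ p ∈ frontier D, ∀ s > 0, ∃ r > 0, UniformQ1 N δ A (D ∩ ball p s) (D ∩ ball p r),
      -- (f) bounded solutions near `p`, for data on the ball with one singular boundary point `p`
      ∀ p ∈ sphere (0 : EuclideanSpace ℂ (Fin n)) 1, OnePoint N (ball 0 1) p 1,
      -- (g) solutions of a fixed, arbitrary growth near one point of one strictly pseudoconvex domain
      ∃ (D : Set (EuclideanSpace ℂ (Fin n))) (p : EuclideanSpace ℂ (Fin n)) (φ : ℝ → ℝ≥0),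
        IsStrictlyPscDomain D ∧ p ∈ frontier D ∧ AntitoneOn φ (Ioi 0) ∧ OnePoint N D p φ] := by
  have hn1 : 1 ≤ n := by omega
  tfae_have 4 → 3 := by
    intro hb f hf hδ
    obtain ⟨δ, hδ0, hA⟩ := exists_of_uniform hf hδ
    obtain ⟨A, hA'⟩ := hb δ hδ0
    exact hA _ A hA'
  tfae_have 3 → 6 := fun ha p _ => onePoint_of_q1 ha p
  tfae_have 6 → 7 := by
    intro hc
    have hp : (EuclideanSpace.single ⟨0, hn1⟩ 1 : EuclideanSpace ℂ (Fin n)) ∈
        sphere (0 : EuclideanSpace ℂ (Fin n)) 1 := by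
      rw [mem_sphere_zero_iff_norm]
      simp
    exact ⟨ball 0 1, _, 1, Pool.Agent.MPca0fc2.TB.isStrictlyPscDomain_ball,
      by rw [frontier_ball _ one_ne_zero]; exact hp, antitoneOn_const, hc _ hp⟩
  tfae_have 7 → 4 := by
    rintro ⟨D, p, φ, hD, hp, hφ, hc⟩
    exact uniform_of_growth hn1 hD hp hφ hc
  tfae_have 4 → 5 := by
    intro hb δ hδ
    obtain ⟨A, hA⟩ := hb (δ / 2) (by positivity)
    refine ⟨|A| + 1, fun D hD p hp s hs => ?_⟩
    obtain ⟨r, hr, -, hloc⟩ := Pool.Agent.MPca0fc2.EQ.loc_psc hD hp (N := N) (abs_nonneg A)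
      (half_pos hδ) (half_lt_self hδ) (lt_add_one |A|) hs
      ((uniformQ1_iff (half_pos hδ) (abs_nonneg A)).1 (hA.mono le_rfl))
    exact ⟨r, hr, (uniformQ1_iff hδ (by positivity)).2 hloc⟩
  tfae_have 5 → 6 := by
    intro he p hp f hf _ hδ
    have hf' : ∀ j, IsHinf (ball (0 : EuclideanSpace ℂ (Fin n)) 1 ∩ ball p 1) (f j) := fun j =>
      ⟨(hf j).1.mono inter_subset_left, (hf j).2.imp fun M hM z hz => hM z hz.1⟩
    obtain ⟨δ, hδ0, hA⟩ := exists_of_uniform hf'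
      (hδ.imp fun δ h => ⟨h.1, fun z hz => h.2 z hz.1⟩)
    obtain ⟨A, hA'⟩ := he δ hδ0
    obtain ⟨r, hr, hr'⟩ := hA' _ Pool.Agent.MPca0fc2.TB.isStrictlyPscDomain_ball p
      (by rw [frontier_ball _ one_ne_zero]; exact hp) 1 one_pos
    obtain ⟨h, hh, hh1⟩ := hA _ A hr'
    choose hd M hM using hh
    refine ⟨r, hr, ∑ j, |M j|, h, hd, fun z hz => ⟨hh1 z hz, fun j => ?_⟩⟩
    simp only [Pi.one_apply, NNReal.coe_one, mul_one]
    exact (hM j z hz).trans ((le_abs_self _).trans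
      (Finset.single_le_sum (f := fun j => |M j|) (fun _ _ => abs_nonneg _) (Finset.mem_univ j)))
  tfae_have 4 → 1 := by
    intro hb m hm hmn D hD f hf hδ
    obtain ⟨δ, hδ, hfδ⟩ := hδ
    obtain ⟨C, h, h1, h2, h3⟩ := Pool.Agent.MPca0fc2.EQ.psc_of_tg hm (N := N) (by
      intro T s δ' f' hs hδ' hf' hfb
      obtain ⟨A, hA⟩ := hb (δ' / 2) (half_pos hδ')
      obtain ⟨s₁, hs₁, -, hloc⟩ := Pool.Agent.MPca0fc2.EQ.local_tg_sharp T (N := N) (abs_nonneg A)
        (half_pos hδ') (half_lt_self hδ') (lt_add_one |A|) hs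
        (Pool.Agent.MPca0fc2.EQ.ball_dim hmn
          ((uniformQ1_iff (half_pos hδ') (abs_nonneg A)).1 (hA.mono le_rfl)))
      exact ⟨s₁, hs₁, |A| + 1, hloc f' hf' hfb⟩) hD hf hδ hfδ
    exact ⟨h, fun j => ⟨h1 j, C, h2 j⟩, h3⟩
  tfae_have 1 → 2 := fun hQ =>
    have hB := Pool.Agent.MPca0fc2.TB.isStrictlyPscDomain_ball (n := n)
    ⟨ball 0 1, hB.1, hasC2Boundary_of_psc hB, ⟨0, mem_ball_self one_pos⟩, hQ n hn le_rfl _ hB⟩
  tfae_have 2 → 4 := by
    rintro ⟨D, hb, h2, hne, hQ⟩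
    obtain ⟨hDo, p, hp, hacc⟩ := Pool.Agent.MPca0fc2.EQ.far_seq hn1 hb h2 hne
    exact uniform_of_onePoint hDo hp hacc (onePoint_of_q1 hQ p)
  tfae_finish

/-- `N` arbitrary functions and functions in `A(D)` -/
theorem mixed {n N M : ℕ} (hn : 2 ≤ n)
    (hQ : ∀ m, 2 ≤ m → m ≤ n → ∀ D : Set (EuclideanSpace ℂ (Fin m)), IsStrictlyPscDomain D →
      Q1On N D) {D : Set (EuclideanSpace ℂ (Fin n))} (hD : IsStrictlyPscDomain D) :
    MixedQ1 N M D := by
  intro f g hf hg hδ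
  have hloc := ((core hn).out 0 4).1 hQ
  obtain ⟨U, ρ₀, hh, c, hs, -⟩ := Pool.Agent.MPca0fc2.LV.support_of_domain hD
  have hDo : IsOpen D := by
    rw [hs.eq]
    exact hs.dρ.continuousOn.isOpen_inter_preimage hs.opn (isOpen_Iio (a := (0:ℝ)))
  have hcpt : IsCompact (closure D) := by
    rw [Pool.Agent.MPca0fc2.FD.sup_closure hs]
    exact hs.cpt
  obtain ⟨δ, hδ0, hδ⟩ := hδ
  have hgb : ∀ i, ∃ C : ℝ, ∀ z ∈ closure D, ‖g i z‖ ≤ C := fun i =>
    hcpt.exists_bound_of_continuousOn (hg i).2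
  have hgH : ∀ i, IsHinf D (g i) := fun i =>
    ⟨(hg i).1, (hgb i).imp fun C hC z hz => hC z (subset_closure hz)⟩
  obtain ⟨F, hF⟩ : ∃ F : Fin (N + M) → EuclideanSpace ℂ (Fin n) → ℂ, F = Fin.append f g :=
    ⟨_, rfl⟩
  have hFl : ∀ j, F (Fin.castAdd M j) = f j := fun j => by rw [hF, Fin.append_left]
  have hFr : ∀ i, F (Fin.natAdd N i) = g i := fun i => by rw [hF, Fin.append_right]
  have hFH : ∀ j, IsHinf D (F j) := by
    intro j
    refine Fin.addCases (fun j => ?_) (fun i => ?_) j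
    · rw [hFl]
      exact hf j
    · rw [hFr]
      exact hgH i
  have hsum : ∀ (u : Fin (N + M) → ℂ), ∑ j, u j =
      ∑ j, u (Fin.castAdd M j) + ∑ i, u (Fin.natAdd N i) := fun u => Fin.sum_univ_add u
  choose hFd K hK using hFH
  obtain ⟨C, h, h1, h2, h3⟩ := Pool.Agent.MPca0fc2.FD.fibre_loc' hn hs (f := F)
    (M := ∑ j, |K j|) hFd (fun j z hz => (hK j z hz).trans ((le_abs_self _).trans
      (Finset.single_le_sum (f := fun j => |K j|) (fun _ _ => abs_nonneg _)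
        (Finset.mem_univ j)))) (by
    intro p hp
    by_cases hpD : p ∈ D
    · refine Pool.Agent.MPca0fc2.FD.solv_interior hDo hFd hδ0 (fun z hz => ?_) hpD
      have h4 : ∑ j, ‖F j z‖ ^ 2 = ∑ j, ‖f j z‖ ^ 2 + ∑ i, ‖g i z‖ ^ 2 := by
        rw [Fin.sum_univ_add]
        simp only [hFl, hFr]
      rw [h4]
      exact hδ z hz
    have hpf : p ∈ frontier D := ⟨hp, by rwa [hDo.interior_eq]⟩
    by_cases hg0 : ∃ i, g i p ≠ 0
    · -- one of the continuous functions does not vanish at `p`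
      obtain ⟨i, hi⟩ := hg0
      have hc := ((hg i).2 p hp).norm
      have hpos : ‖g i p‖ / 2 < ‖g i p‖ := by
        have := norm_pos_iff.2 hi
        linarith
      obtain ⟨r, hr, hrb⟩ := Metric.mem_nhdsWithin_iff.1 (hc (Ioi_mem_nhds hpos))
      have hlow : ∀ z ∈ D ∩ ball p r, ‖g i p‖ / 2 < ‖g i z‖ := fun z hz =>
        hrb ⟨hz.2, subset_closure hz.1⟩
      have hpp := norm_pos_iff.2 hi
      have hne : ∀ z ∈ D ∩ ball p r, g i z ≠ 0 := fun z hz h0 => by
        have := hlow z hz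
        rw [h0, norm_zero] at this
        linarith
      refine ⟨r, hr, 2 / ‖g i p‖, fun j z => if j = Fin.natAdd N i then (g i z)⁻¹ else 0,
        fun j => ?_, fun j z hz => ?_, fun z hz => ?_⟩
      · by_cases hj : j = Fin.natAdd N i
        · simp only [hj, if_true]
          exact ((hg i).1.mono inter_subset_left).inv hne
        · simp only [hj, if_false]
          exact differentiableOn_const _
      · by_cases hj : j = Fin.natAdd N i
        · simp only [hj, if_true]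
          rw [norm_inv]
          have h5 := hlow z hz
          rw [inv_le_comm₀ (by linarith) (by positivity), inv_div]
          exact h5.le
        · simp only [hj, if_false]
          rw [norm_zero]
          positivity
      · rw [Finset.sum_eq_single (Fin.natAdd N i)]
        · simp only [if_true, hFr]
          exact mul_inv_cancel₀ (hne z hz)
        · intro j _ hj
          simp only [hj, if_false, mul_zero]
        · intro h0
          exact absurd (Finset.mem_univ _) h0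
    · -- all continuous functions vanish at `p`
      push Not at hg0
      have hc : ContinuousWithinAt (fun z => ∑ i, ‖g i z‖ ^ 2) (closure D) p := by
        refine tendsto_finsetSum _ fun i _ => ?_
        exact (((hg i).2 p hp).norm).pow 2
      have h0 : ∑ i, ‖g i p‖ ^ 2 = 0 := by
        refine Finset.sum_eq_zero fun i _ => ?_
        rw [hg0 i, norm_zero]
        norm_num
      obtain ⟨s, hs0, hsb⟩ := Metric.mem_nhdsWithin_iff.1
        (hc (Iio_mem_nhds (show ∑ i, ‖g i p‖ ^ 2 < δ / 2 by rw [h0]; positivity)))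
      have hf' : ∀ j, IsHinf (D ∩ ball p s) (f j) := fun j =>
        ⟨(hf j).1.mono inter_subset_left, (hf j).2.imp fun A hA z hz => hA z hz.1⟩
      obtain ⟨δ', hδ', hA⟩ := exists_of_uniform hf' ⟨δ / 2, by positivity, fun z hz => by
        have h5 := hδ z hz.1
        have h6 : ∑ i, ‖g i z‖ ^ 2 < δ / 2 := hsb ⟨hz.2, subset_closure hz.1⟩
        linarith⟩
      obtain ⟨A, hA'⟩ := hloc δ' hδ'
      obtain ⟨r, hr, hU⟩ := hA' D hD p hpf s hs0
      obtain ⟨h, hh1, hh2⟩ := hA _ A hU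
      choose hd B hB using hh1
      refine ⟨r, hr, ∑ j, |B j|, Fin.append h (fun _ _ => 0), fun j => ?_, fun j z hz => ?_,
        fun z hz => ?_⟩
      · refine Fin.addCases (fun j => ?_) (fun i => ?_) j
        · rw [Fin.append_left]
          exact hd j
        · rw [Fin.append_right]
          exact differentiableOn_const _
      · have h7 : 0 ≤ ∑ j, |B j| := Finset.sum_nonneg fun j _ => abs_nonneg _
        refine Fin.addCases (fun j => ?_) (fun i => ?_) j
        · rw [Fin.append_left]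
          exact (hB j z hz).trans ((le_abs_self _).trans
            (Finset.single_le_sum (f := fun j => |B j|) (fun _ _ => abs_nonneg _)
              (Finset.mem_univ j)))
        · rw [Fin.append_right]
          simpa using h7
      · rw [Fin.sum_univ_add]
        simp only [hFl, hFr, Fin.append_left, Fin.append_right, mul_zero,
          Finset.sum_const_zero, add_zero]
        exact hh2 z hz)
  refine ⟨fun j => h (Fin.castAdd M j), fun i => h (Fin.natAdd N i), fun j => ⟨h1 _, C, h2 _⟩,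
    fun i => ⟨h1 _, C, h2 _⟩, fun z hz => ?_⟩
  have h4 := h3 z hz
  rw [Fin.sum_univ_add] at h4
  simp only [hFl, hFr] at h4
  exact h4

/-- The data of the space are solvable if there are uniform bounds. -/
theorem solvable_data {n N : ℕ}
    (hQ : ∀ δ > 0, ∃ A : ℝ, UniformQ1 N δ A (ball (0 : EuclideanSpace ℂ (Fin n)) 1) (ball 0 1))
    {δ : ℝ} (hδ : 0 < δ) (f : Data n N δ) :
    ∃ h : Fin N → EuclideanSpace ℂ (Fin n) → ℂ, (∀ j, IsHinf (ball 0 1) (h j)) ∧
      ∀ z ∈ ball (0 : EuclideanSpace ℂ (Fin n)) 1, ∑ j, ext f.1 z j * h j z = 1 := by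
  obtain ⟨δ', hδ', hunif⟩ := exists_of_uniform
    (U := ball (0 : EuclideanSpace ℂ (Fin n)) 1) (f := fun j z => ext f.1 z j)
    (fun j => ⟨(EuclideanSpace.proj (𝕜 := ℂ) j).differentiable.comp_differentiableOn
      (Pool.Agent.MPca0fc2.ZL.data_bounds f).1,
      1, fun z hz => ((Pool.Agent.MPca0fc2.ZL.data_bounds f).2 z hz).1 j⟩)
    ⟨δ ^ 2, by positivity, fun z hz => by
      rw [← EuclideanSpace.norm_sq_eq]
      exact pow_le_pow_left₀ hδ.le ((Pool.Agent.MPca0fc2.ZL.data_bounds f).2 z hz).2 2⟩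
  obtain ⟨A, hA⟩ := hQ δ' hδ'
  exact hunif _ A hA

/-- The zero-one law. -/
theorem uniform_of_nonmeager {n N : ℕ} (hn : 1 ≤ n) (hN : 1 ≤ N)
    (H : ∀ δ ∈ Ioo (0 : ℝ) 1, ∃ F : EuclideanSpace ℂ (Fin n) → ℂ, IsHinf (ball 0 1) F ∧
      ¬ IsMeagre {f : Data n N δ | SolvableSomewhere f.1 ∨ CloseToIdeal F f.1}) :
    ∀ δ > 0, ∃ A : ℝ, UniformQ1 N δ A (ball (0 : EuclideanSpace ℂ (Fin n)) 1) (ball 0 1) := by
  by_contra hQ
  push Not at hQ
  obtain ⟨δ₀, hδ₀, hcon⟩ := hQ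
  have h1 : 1 < N := by
    rcases hN.eq_or_lt with h1 | h1
    · subst h1
      obtain ⟨A, hA⟩ := Pool.Agent.MPca0fc2AD.uniform_one (n := n) δ₀ hδ₀
      exact absurd hA (hcon A)
    · exact h1
  have hδ : min δ₀ (1 / 2) ∈ Ioo (0 : ℝ) 1 :=
    ⟨lt_min hδ₀ (by norm_num), (min_le_right _ _).trans_lt (by norm_num)⟩
  have hno : ∀ A : ℝ, ¬ ∀ g : Data n N (min δ₀ (1 / 2)),
      Pool.Agent.MPca0fc2.TB.Solv (ext g.1) (ball 0 1) A := by
    intro A hA
    refine hcon |A| fun g hg hgb => ?_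
    exact Pool.Agent.MPca0fc2AD.uniform_of_data hδ.1 hA g hg fun z hz =>
      ⟨(pow_le_pow_left₀ hδ.1.le (min_le_left _ _) 2).trans (hgb z hz).1, (hgb z hz).2⟩
  obtain ⟨F, hF, hm⟩ := H _ hδ
  apply hm
  have a1 := Pool.Agent.MPca0fc2.XC.gen_ideal hn h1 hδ.1 hδ.2 hF.1
  have a2 := Pool.Agent.MPca0fc2.ZL.gen_extremal (n := n) h1 hδ.1 hδ.2
  rw [IsMeagre]
  filter_upwards [a1, a2] with f b1 b2
  rintro (hf | hf)
  · obtain ⟨p, hp, r, hr, h, hh, hsol⟩ := hf
    choose hd A hA using hh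
    refine hno (∑ j, |A j|) (b2 p hp r hr _ ⟨fun z => WithLp.toLp 2 fun j => h j z, ?_,
      fun z hz => ?_, hsol⟩)
    · intro z hz
      rw [differentiableWithinAt_euclidean]
      intro j
      exact (hd j) z hz
    · have h1 : ∀ j, ‖h j z‖ ≤ |A j| := fun j => (hA j z hz).trans (le_abs_self _)
      have h0 : 0 ≤ ∑ j, |A j| := Finset.sum_nonneg fun j _ => abs_nonneg _
      rw [EuclideanSpace.norm_eq, Real.sqrt_le_left h0]
      exact (Finset.sum_le_sum fun j _ => pow_le_pow_left₀ (norm_nonneg _) (h1 j) 2).trans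
        (Finset.sum_sq_le_sq_sum_of_nonneg fun j _ => abs_nonneg _)
  · obtain ⟨h, hh, s, hs, hz⟩ := hf
    choose hd M hM using hh
    obtain ⟨A, hA⟩ := b1 h (∑ j, |M j|) s hd (fun j z hz => (hM j z hz).trans
      ((le_abs_self _).trans (Finset.single_le_sum (f := fun j => |M j|)
        (fun _ _ => abs_nonneg _) (Finset.mem_univ j)))) hs hz
    exact hno A hA

/-- The local corona constants are universal. -/
theorem universal {n N : ℕ} {δ' δ A A' : ℝ} (hδ' : 0 < δ') (hδ : δ' < δ) (hA : 0 ≤ A) (hAA' : A < A')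
    {D D' : Set (EuclideanSpace ℂ (Fin n))} (hD : IsStrictlyPscDomain D) (hD' : IsStrictlyPscDomain D')
    {p p' : EuclideanSpace ℂ (Fin n)} (hp : p ∈ frontier D) (hp' : p' ∈ frontier D')
    (h : ∃ s > 0, ∃ r > 0, UniformQ1 N δ' A (D ∩ ball p s) (D ∩ ball p r)) :
    ∀ s > 0, ∃ r > 0, UniformQ1 N δ A' (D' ∩ ball p' s) (D' ∩ ball p' r) := by
  obtain ⟨s₀, hs₀, r₀, hr₀, h0⟩ := h
  intro s hs
  obtain ⟨r, hr, h1⟩ := Pool.Agent.MPca0fc2.EQ.const_univ (N := N) hD hD' hp hp' hδ' hδ hA hAA'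
    ⟨s₀, hs₀, r₀, hr₀, (uniformQ1_iff hδ' hA).1 h0⟩ s hs
  exact ⟨r, hr, (uniformQ1_iff (hδ'.trans hδ) (hA.trans hAA'.le)).2 h1⟩

theorem result {n N : ℕ} (hn : 2 ≤ n) (hN : 1 ≤ N) :
    -- (0) the local corona constants are universal
    (∀ δ' δ A A' : ℝ, 0 < δ' → δ' < δ → 0 ≤ A → A < A' →
      ∀ D D' : Set (EuclideanSpace ℂ (Fin n)), IsStrictlyPscDomain D → IsStrictlyPscDomain D' →
      ∀ p ∈ frontier D, ∀ p' ∈ frontier D',
        (∃ s > 0, ∃ r > 0, UniformQ1 N δ' A (D ∩ ball p s) (D ∩ ball p r)) →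
        ∀ s > 0, ∃ r > 0, UniformQ1 N δ A' (D' ∩ ball p' s) (D' ∩ ball p' r)) ∧
    List.TFAE [
      -- (a) Q1 for `N` functions on all strictly pseudoconvex domains in `ℂᵐ`, `2 ≤ m ≤ n`
      ∀ m, 2 ≤ m → m ≤ n → ∀ D : Set (EuclideanSpace ℂ (Fin m)), IsStrictlyPscDomain D → Q1On N D,
      -- (b) Q1 for `N` functions on one nonempty bounded open set in `ℂⁿ` with a `C²` boundary
      ∃ D : Set (EuclideanSpace ℂ (Fin n)), Bornology.IsBounded D ∧ HasC2Boundary D ∧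
        D.Nonempty ∧ Q1On N D,
      -- (c) Q1 for `N` functions on the ball of `ℂⁿ`
      Q1On N (ball (0 : EuclideanSpace ℂ (Fin n)) 1),
      -- (d) the same with uniform bounds
      ∀ δ > 0, ∃ A : ℝ, UniformQ1 N δ A (ball (0 : EuclideanSpace ℂ (Fin n)) 1) (ball 0 1),
      -- (e) local solutions near all boundary points of all domains, with uniform bounds
      ∀ δ > 0, ∃ A : ℝ, ∀ D : Set (EuclideanSpace ℂ (Fin n)), IsStrictlyPscDomain D →
        ∀ p ∈ frontier D, ∀ s > 0, ∃ r > 0, UniformQ1 N δ A (D ∩ ball p s) (D ∩ ball p r),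
      -- (f) solutions of a fixed, arbitrary growth near one point of one strictly pseudoconvex domain
      ∃ (D : Set (EuclideanSpace ℂ (Fin n))) (p : EuclideanSpace ℂ (Fin n)) (φ : ℝ → ℝ≥0),
        IsStrictlyPscDomain D ∧ p ∈ frontier D ∧ AntitoneOn φ (Ioi 0) ∧ OnePoint N D p φ,
      -- (g) `N` arbitrary functions together with functions in `A(D)`
      ∀ M m, 2 ≤ m → m ≤ n → ∀ D : Set (EuclideanSpace ℂ (Fin m)), IsStrictlyPscDomain D →
        MixedQ1 N M D,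
      -- (h) in the space `X_δ` of the data on the ball with `|f_j| ≤ 1`, `|f| ≥ δ` those `f` are not
      -- meager which have a bounded solution near at least one boundary point or for which `F` (some
      -- bounded holomorphic function, which may depend on `δ`) is closer to the ideal of `f` than to `0`
      ∀ δ ∈ Ioo (0 : ℝ) 1, ∃ F : EuclideanSpace ℂ (Fin n) → ℂ, IsHinf (ball 0 1) F ∧
        ¬ IsMeagre {f : Data n N δ | SolvableSomewhere f.1 ∨ CloseToIdeal F f.1}] := by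
  refine ⟨fun δ' δ A A' hδ' hδ hA hAA' D D' hD hD' p hp p' hp' h =>
    universal hδ' hδ hA hAA' hD hD' hp hp' h, ?_⟩
  have hcore := core (n := n) (N := N) hn
  tfae_have 1 ↔ 2 := hcore.out 0 1
  tfae_have 1 ↔ 3 := hcore.out 0 2
  tfae_have 1 ↔ 4 := hcore.out 0 3
  tfae_have 1 ↔ 5 := hcore.out 0 4
  tfae_have 1 ↔ 6 := hcore.out 0 6
  tfae_have 1 → 7 := fun hQ M m hm hmn D hD =>
    mixed hm (fun k hk hkm => hQ k hk (hkm.trans hmn)) hD
  tfae_have 7 → 1 := by
    intro h m hm hmn D hD f hf hδ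
    obtain ⟨g, k, h1, -, h2⟩ := h 0 m hm hmn D hD f (fun i => Fin.elim0 i) hf
      (fun i => Fin.elim0 i) (by
        obtain ⟨δ, hδ0, hδ⟩ := hδ
        exact ⟨δ, hδ0, fun z hz => by simpa using hδ z hz⟩)
    exact ⟨g, h1, fun z hz => by simpa using h2 z hz⟩
  tfae_have 8 → 4 := uniform_of_nonmeager (by omega) hN
  tfae_have 4 → 8 := by
    intro hQ δ hδ
    refine ⟨fun _ => 1, ⟨differentiableOn_const _, 1, fun z _ => by simp⟩, ?_⟩
    have h1 : {f : Data n N δ | SolvableSomewhere f.1 ∨ CloseToIdeal (fun _ => 1) f.1} = univ := by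
      refine eq_univ_of_forall fun f => Or.inr ?_
      obtain ⟨h, hh, hsol⟩ := solvable_data hQ hδ.1 f
      exact ⟨h, hh, 0, fun z hz => by rw [hsol z hz]; simp, 0, mem_ball_self one_pos, by simp⟩
    have hB : BaireSpace (Data n N δ) := Pool.Agent.MPca0fc2.ZL.baire_data _
    have hne : Nonempty (Data n N δ) :=
      (Pool.Agent.MPca0fc2.ZL.data_nonempty hN hδ.2.le).to_subtype
    rw [h1]
    exact not_isMeagre_of_isOpen isOpen_univ univ_nonempty
  tfae_finish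

end Pool.Agent.Results.MP_ca0fc2_an.AllDomains
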