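import Pool.Agent.Lib.MP_ca0fc2_an.FP.Core
import Pool.Agent.Lib.MP_ca0fc2_an.FP.P7
import Pool.Agent.Lib.MP_ca0fc2_an.FP.V4
import Pool.Agent.Lib.MP_ca0fc2_an.FP.V5
import Pool.Agent.Lib.MP_ca0fc2_an.FP.V6
import Pool.Agent.Lib.MP_ca0fc2_an.EQ.U1
import Pool.Agent.Lib.MP_ca0fc2_an.DS.S9

/-!
# The corona problem on strictly pseudoconvex domains and bounded Dirichlet series

Let `B` be the unit ball of `ℓ²`, `B_n` the unit ball of `ℂⁿ`, `Δ` the unit ball of `c₀` (the infinite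
polydisc), and `Dir` the algebra of the bounded Dirichlet series: bounded holomorphic functions `F` on
`{Re s > 0}` with `F(s) = ∑ a_k k^(-s)` for large `Re s`. There are a holomorphic map `G : Δ → B` and the curve
`g(s) = G(2^-s, 3^-s, 5^-s, …)` in `B` with the properties (1), (2), for `V = B` and, if we take the first `n`
coordinates of `G` and of `g`, for `V = B_n`, and with the properties (3), (4).

1. There is a linear map `P : Dir → H^∞(V)` with `|P F| ≤ sup |F|`, `P 1 = 1` and `P ((φ ∘ g) F) = φ P F` for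
   all `φ ∈ H^∞(V)`. So `φ ↦ φ ∘ g` embeds the algebra `H^∞(V)` into the algebra `Dir`, and `P` projects `Dir`
   onto it, with the norm one and as a map of `H^∞(V)`-modules; this is a projection of the type which Forelli
   constructed for finite Riemann surfaces. The same holds with `Δ`, `G` and `H^∞(Δ)` in place of
   `{Re s > 0}`, `g` and `Dir`.
2. For `f₁, …, f_N, u ∈ H^∞(V)` the equation `∑ f_j h_j = u` has a solution on `V` with `∑ |h_j|² ≤ A²` if and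
   only if the equation `∑ (f_j ∘ g) F_j = u ∘ g` has a solution in bounded Dirichlet series with
   `∑ |F_j|² ≤ A²`; if and only if the equation for `f_j ∘ G`, `u ∘ G` has one on `Δ`; if and only if it has
   one on each of the finite dimensional sections of `Δ`, which are polydiscs.
3. For `n ≥ 2` the corona theorem for `N` functions holds on all strictly pseudoconvex domains in `ℂᵐ`,
   `2 ≤ m ≤ n`, if and only if for all corona data `f` on `B_n` there are bounded Dirichlet series `F_j` with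
   `∑ (f_j ∘ g) F_j = 1`. (By Carleson's theorem there are bounded holomorphic functions `F_j` on
   `{Re s > 0}` with this property.)
4. For each `N` the following are equivalent. (a) There are local solutions near all boundary points of all
   strictly pseudoconvex domains of all dimensions, with bounds which depend only on the lower bound of the
   data; (b) the same for one boundary point of one strictly pseudoconvex domain in each `ℂⁿ`, `n ≥ 2`; (c) the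
   same for the balls `B_n`; (d) the corona theorem for `N` functions holds on `B`; (e) for all corona data `f`
   on `B` there are bounded Dirichlet series `F_j` with `∑ (f_j ∘ g) F_j = 1`; (f) the same on `Δ`, for
   `f ∘ G`; (g) the same on the sections of `Δ`, with bounds which depend only on the lower bound of the data.
5. The corona theorem for `N` functions on `Δ` is equivalent to the one on all polydiscs with bounds which do
   not depend on the dimension. It implies the corona theorem for `N` functions on `B`, and this implies the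
   one on all strictly pseudoconvex domains.
6. The best bounds satisfy `C(B_n) ≤ C(B) = sup C(B_n) ≤ C(Δ) = sup C(polydiscs)`.

So one sequence `g₁, g₂, …` of bounded Dirichlet series with `∑ |g_j|² < 1` decides the question in all
dimensions.
-/

set_option autoImplicit false

open Metric Set Filter Topology
open scoped ZeroAtInfty ComplexConjugate
open Pool.Agent.Lib.MP_ca0fc2_an
open Pool.Agent.MPca0fc2.FP (sec)

namespace Pool.Agent.Results.MP_ca0fc2_an.DirichletSeries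

/-- `H^∞(U)`: the functions which are holomorphic and bounded on the open set `U`. -/
def Hinf {E : Type} [NormedAddCommGroup E] [NormedSpace ℂ E] (U : Set E) : Set (E → ℂ) :=
  {f | DifferentiableOn ℂ f U ∧ ∃ C : ℝ, ∀ z ∈ U, ‖f z‖ ≤ C}

/-- The unit ball of `ℂⁿ`. -/
def B (n : ℕ) : Set (EuclideanSpace ℂ (Fin n)) := ball 0 1

/-- `ℓ²` -/
abbrev L2 : Type := lp (fun _ : ℕ => ℂ) 2

/-- The unit ball of `ℓ²`. -/
def BB : Set L2 := ball 0 1

/-- The first `n` coordinates of a map to `ℓ²`. -/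
def first (n : ℕ) {X : Type} (G : X → L2) : X → EuclideanSpace ℂ (Fin n) :=
  fun x => WithLp.toLp 2 fun i : Fin n => G x i

/-- The unit ball of `c₀`. -/
def Δ : Set C₀(ℕ, ℂ) := ball 0 1

/-- The unit polydisc of `ℂᵐ`. -/
def Pd (m : ℕ) : Set (Fin m → ℂ) := ball 0 1

/-- The right half plane `{Re s > 0}`. -/
def RHP : Set ℂ := {s | 0 < s.re}

/-- The bounded Dirichlet series: the functions `F` which are holomorphic and bounded on the right half
plane and are sums of a Dirichlet series `∑ a_k k^(-s)` for large `Re s`. -/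
def Dir : Set (ℂ → ℂ) :=
  {F | F ∈ Hinf RHP ∧ ∃ (a : ℕ → ℂ) (σ : ℝ), ∀ s : ℂ, σ < s.re → LSeriesHasSum a s (F s)}

/-- `G` maps `U` to `V`, `S` is an algebra of functions on `U` which contains all `φ ∘ G`, `φ ∈ H^∞(V)`,
and `P` is a linear map of `S` to `H^∞(V)` with `|P h| ≤ sup |h|`, `P 1 = 1` and `P ((φ ∘ G) h) = φ P h`. (So
`P (φ ∘ G) = φ`. Multiplication by scalars is the case of a constant `φ`.) -/
structure IsModuleProjection {X F : Type} [NormedAddCommGroup F] [NormedSpace ℂ F] (S : Set (X → ℂ))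
    (U : Set X) (V : Set F) (G : X → F) (P : (X → ℂ) → F → ℂ) : Prop where
  /-- `G` maps `U` to `V` -/
  mem : ∀ x ∈ U, G x ∈ V
  /-- `S` is closed under products -/
  mul_mem : ∀ h ∈ S, ∀ k ∈ S, (fun x => h x * k x) ∈ S
  /-- `P` maps `S` to `H^∞(V)` -/
  maps : ∀ h ∈ S, P h ∈ Hinf V
  /-- the norm is at most one -/
  le : ∀ h ∈ S, ∀ C : ℝ, (∀ x ∈ U, ‖h x‖ ≤ C) → ∀ z ∈ V, ‖P h z‖ ≤ C
  /-- `1 ∈ S` and `P 1 = 1` -/
  one : (fun _ => 1) ∈ S ∧ ∀ z ∈ V, P (fun _ => 1) z = 1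
  /-- `P (h + k) = P h + P k` -/
  add : ∀ h ∈ S, ∀ k ∈ S, (fun x => h x + k x) ∈ S ∧
    ∀ z ∈ V, P (fun x => h x + k x) z = P h z + P k z
  /-- `P ((φ ∘ G) h) = φ P h` -/
  mul : ∀ φ ∈ Hinf V, ∀ h ∈ S, (fun x => φ (G x) * h x) ∈ S ∧
    ∀ z ∈ V, P (fun x => φ (G x) * h x) z = φ z * P h z

/-- The equation `∑ (f_j ∘ G) h_j = u ∘ G` on `U` has a solution `h_j ∈ S` with `∑ |h_j|² ≤ A²`. -/
def Sol {X Y : Type} (S : Set (X → ℂ)) (U : Set X) (G : X → Y) {N : ℕ} (f : Fin N → Y → ℂ)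
    (u : Y → ℂ) (A : ℝ) : Prop :=
  ∃ h : Fin N → X → ℂ, (∀ j, h j ∈ S) ∧
    ∀ x ∈ U, ∑ j, f j (G x) * h j x = u (G x) ∧ ∑ j, ‖h j x‖ ^ 2 ≤ A ^ 2

/-- `f₁, …, f_N ∈ H^∞(U)` and `∑ |f_j|² ≥ δ` on `U` for some `δ > 0`. -/
def IsData {E : Type} [NormedAddCommGroup E] [NormedSpace ℂ E] (U : Set E) {N : ℕ}
    (f : Fin N → E → ℂ) : Prop :=
  (∀ j, f j ∈ Hinf U) ∧ ∃ δ > 0, ∀ z ∈ U, δ ≤ ∑ j, ‖f j z‖ ^ 2

/-- The corona theorem on `U` for `N` functions: `∑ f_j h_j = 1` has bounded solutions. -/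
def Corona {E : Type} [NormedAddCommGroup E] [NormedSpace ℂ E] (N : ℕ) (U : Set E) : Prop :=
  ∀ f : Fin N → E → ℂ, IsData U f → ∃ A : ℝ, Sol (Hinf U) U id f 1 A

/-- `f₁, …, f_N` are holomorphic on `U` with `δ² ≤ ∑ |f_j|² ≤ 1`. -/
def IsDeltaData {E : Type} [NormedAddCommGroup E] [NormedSpace ℂ E] (U : Set E) {N : ℕ} (δ : ℝ)
    (f : Fin N → E → ℂ) : Prop :=
  (∀ j, DifferentiableOn ℂ (f j) U) ∧ ∀ z ∈ U, δ ^ 2 ≤ ∑ j, ‖f j z‖ ^ 2 ∧ ∑ j, ‖f j z‖ ^ 2 ≤ 1

/-- All `f₁, …, f_N` on `U` with `δ² ≤ ∑ |f_j|² ≤ 1` have solutions on `V` with `∑ |h_j|² ≤ A²`. -/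
def Uniform {E : Type} [NormedAddCommGroup E] [NormedSpace ℂ E] (N : ℕ) (δ A : ℝ) (U V : Set E) : Prop :=
  ∀ f : Fin N → E → ℂ, IsDeltaData U δ f → Sol (Hinf V) V id f 1 A

/-- Q1 for `N` functions: the corona theorem on all strictly pseudoconvex domains in `ℂᵐ`, `2 ≤ m ≤ n`. -/
def Q1 (n N : ℕ) : Prop :=
  ∀ m, 2 ≤ m → m ≤ n → ∀ D : Set (EuclideanSpace ℂ (Fin m)), IsStrictlyPscDomain D → Corona N D

/-- `g(s) = G(2^-s, 3^-s, 5^-s, …)` for `Re s > 0`. -/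
def IsPrimeCurve {F : Type} (G : C₀(ℕ, ℂ) → F) (g : ℂ → F) : Prop :=
  ∀ s ∈ RHP, ∃ x ∈ Δ, (∀ i, x i = (Nat.nth Nat.Prime i : ℂ) ^ (-s)) ∧ g s = G x

/-- The equation `∑ f_j h_j = u` on `V` has a solution with `∑ |h_j|² ≤ A²` if and only if its pull back by `g`
has one in the bounded Dirichlet series; if and only if its pull back by `G` has one on `Δ`; if and only if the
latter has one on all finite dimensional sections of `Δ`. -/
def SameEquations {F : Type} [NormedAddCommGroup F] [NormedSpace ℂ F] (V : Set F) (G : C₀(ℕ, ℂ) → F)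
    (g : ℂ → F) : Prop :=
  ∀ (N : ℕ) (f : Fin N → F → ℂ) (u : F → ℂ) (A : ℝ), (∀ j, f j ∈ Hinf V) → u ∈ Hinf V → 0 ≤ A →
    List.TFAE [
      Sol (Hinf V) V id f u A,
      Sol Dir RHP g f u A,
      Sol (Hinf Δ) Δ G f u A,
      ∀ m, Sol (Hinf (Pd m)) (Pd m) (fun t => G (sec m t)) f u A]

/-- The bounded Dirichlet series and the bounded holomorphic functions on `Δ` are projected to `H^∞(V)`, and
the equations on `V` have the same solvability as their pull backs. -/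
def Transfers {F : Type} [NormedAddCommGroup F] [NormedSpace ℂ F] (V : Set F) (G : C₀(ℕ, ℂ) → F)
    (g : ℂ → F) : Prop :=
  (∃ P, IsModuleProjection Dir RHP V g P) ∧ (∃ P, IsModuleProjection (Hinf Δ) Δ V G P) ∧
    SameEquations V G g

/-- Q1 for `N` functions on all strictly pseudoconvex domains in `ℂᵐ`, `2 ≤ m ≤ n`, holds if and only if for
all corona data `f` on the ball of `ℂⁿ` the equation `∑ (f_j ∘ g) F_j = 1` has a solution in the bounded
Dirichlet series; if and only if for all such `f` the equation for `f ∘ G` has bounded solutions on `Δ`; if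
and only if it has solutions on the sections of `Δ` with bounds which depend only on the lower bound. -/
def DecidesQ1 (n N : ℕ) (G : C₀(ℕ, ℂ) → EuclideanSpace ℂ (Fin n)) (g : ℂ → EuclideanSpace ℂ (Fin n)) :
    Prop :=
  List.TFAE [
    Q1 n N,
    ∀ f : Fin N → EuclideanSpace ℂ (Fin n) → ℂ, IsData (B n) f → ∃ A : ℝ, Sol Dir RHP g f 1 A,
    ∀ f : Fin N → EuclideanSpace ℂ (Fin n) → ℂ, IsData (B n) f → ∃ A : ℝ, Sol (Hinf Δ) Δ G f 1 A,
    ∀ δ > 0, ∃ A : ℝ, ∀ f : Fin N → EuclideanSpace ℂ (Fin n) → ℂ, IsDeltaData (B n) δ f →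
      ∀ m, Sol (Hinf (Pd m)) (Pd m) (fun t => G (sec m t)) f 1 A]

/-- The corona theorem for `N` functions with bounds which do not depend on the dimension is equivalent to the
corona theorem for `N` functions on the ball of `ℓ²`, and to the solvability of the equations
`∑ (f_j ∘ g) F_j = 1` in the bounded Dirichlet series, for all corona data `f` on the ball of `ℓ²`. -/
def DecidesFree (N : ℕ) (G : C₀(ℕ, ℂ) → L2) (g : ℂ → L2) : Prop :=
  List.TFAE [
    -- local bounds at all boundary points of all strictly pseudoconvex domains of all dimensions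
    ∀ δ > 0, ∃ A : ℝ, ∀ n, ∀ D : Set (EuclideanSpace ℂ (Fin n)), IsStrictlyPscDomain D →
      ∀ p ∈ frontier D, ∀ s > 0, ∃ r > 0, Uniform N δ A (D ∩ ball p s) (D ∩ ball p r),
    -- local bounds at one boundary point of one such domain in each dimension
    ∀ δ > 0, ∃ A : ℝ, ∀ n ≥ 2, ∃ D : Set (EuclideanSpace ℂ (Fin n)), IsStrictlyPscDomain D ∧
      ∃ p ∈ frontier D, ∃ s > 0, ∃ r > 0, Uniform N δ A (D ∩ ball p s) (D ∩ ball p r),
    -- the balls
    ∀ δ > 0, ∃ A : ℝ, ∀ n, Uniform N δ A (B n) (B n),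
    -- the ball of `ℓ²`
    Corona N BB,
    -- bounded Dirichlet series
    ∀ f : Fin N → L2 → ℂ, IsData BB f → ∃ A : ℝ, Sol Dir RHP g f 1 A,
    -- the ball of `c₀`
    ∀ f : Fin N → L2 → ℂ, IsData BB f → ∃ A : ℝ, Sol (Hinf Δ) Δ G f 1 A,
    -- its sections
    ∀ δ > 0, ∃ A : ℝ, ∀ f : Fin N → L2 → ℂ, IsDeltaData BB δ f →
      ∀ m, Sol (Hinf (Pd m)) (Pd m) (fun t => G (sec m t)) f 1 A]

/-- The corona theorem for `N` functions on the polydiscs, with bounds which do not depend on the dimension. -/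
def PolydiscsFree (N : ℕ) : Prop := ∀ δ > 0, ∃ A : ℝ, ∀ m, Uniform N δ A (Pd m) (Pd m)

/-- The bounds for the ball of `ℓ²` are those for all balls, the bounds for `Δ` are those for all polydiscs, and
the latter are bounds for the balls. -/
def Constants (N : ℕ) (δ A : ℝ) : Prop :=
  (Uniform N δ A BB BB ↔ ∀ n, Uniform N δ A (B n) (B n)) ∧
    (Uniform N δ A Δ Δ ↔ ∀ m, Uniform N δ A (Pd m) (Pd m)) ∧ (Uniform N δ A Δ Δ → Uniform N δ A BB BB)

/-! ### Functions -/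

section

variable {E : Type} [NormedAddCommGroup E] [NormedSpace ℂ E] {U : Set E} {N : ℕ}

theorem const_mem (c : ℂ) : (fun _ => c) ∈ Hinf U :=
  ⟨differentiableOn_const c, ‖c‖, fun _ _ => le_rfl⟩

theorem mul_mem' {h k : E → ℂ} (hh : h ∈ Hinf U) (hk : k ∈ Hinf U) : (fun x => h x * k x) ∈ Hinf U := by
  obtain ⟨hh, C, hC⟩ := hh
  obtain ⟨hk, M, hM⟩ := hk
  refine ⟨hh.mul hk, |C| * |M|, fun z hz => ?_⟩
  rw [norm_mul]
  exact mul_le_mul ((hC z hz).trans (le_abs_self C)) ((hM z hz).trans (le_abs_self M))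
    (norm_nonneg _) (abs_nonneg C)

theorem add_mem' {h k : E → ℂ} (hh : h ∈ Hinf U) (hk : k ∈ Hinf U) : (fun x => h x + k x) ∈ Hinf U := by
  obtain ⟨hh, C, hC⟩ := hh
  obtain ⟨hk, M, hM⟩ := hk
  exact ⟨hh.add hk, C + M, fun z hz => (norm_add_le _ _).trans (add_le_add (hC z hz) (hM z hz))⟩

theorem Hinf_comp {F : Type} [NormedAddCommGroup F] [NormedSpace ℂ F] {V : Set F} {φ : F → ℂ}
    (hφ : φ ∈ Hinf V) {G : E → F} (hG : DifferentiableOn ℂ G U) (hG1 : ∀ x ∈ U, G x ∈ V) :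
    (fun x => φ (G x)) ∈ Hinf U :=
  ⟨hφ.1.comp hG hG1, hφ.2.imp fun _ hC x hx => hC _ (hG1 x hx)⟩

theorem mem_of_sq {h : Fin N → E → ℂ} {A : ℝ} (hh : ∀ j, DifferentiableOn ℂ (h j) U)
    (hb : ∀ z ∈ U, ∑ j, ‖h j z‖ ^ 2 ≤ A ^ 2) (j : Fin N) : h j ∈ Hinf U :=
  ⟨hh j, |A|, fun x hx => by
    have h1 : ‖h j x‖ ^ 2 ≤ A ^ 2 := (Finset.single_le_sum
      (f := fun j => ‖h j x‖ ^ 2) (fun _ _ => sq_nonneg _) (Finset.mem_univ j)).trans (hb x hx)
    rw [← sq_abs A] at h1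
    exact (sq_le_sq₀ (norm_nonneg _) (abs_nonneg A)).mp h1⟩

end

/-! ### Module projections -/

namespace IsModuleProjection

variable {X F : Type} [NormedAddCommGroup F] [NormedSpace ℂ F] {S : Set (X → ℂ)} {U : Set X} {V : Set F}
    {G : X → F} {P : (X → ℂ) → F → ℂ}

/-- Linear combinations with coefficients in `H^∞(V)`. -/
theorem sum (hP : IsModuleProjection S U V G P) {N : ℕ} {φ : Fin N → F → ℂ}
    (hφ : ∀ j, φ j ∈ Hinf V) {h : Fin N → X → ℂ} (hh : ∀ j, h j ∈ S) (s : Finset (Fin N)) :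
    (fun x => ∑ j ∈ s, φ j (G x) * h j x) ∈ S ∧
      ∀ z ∈ V, P (fun x => ∑ j ∈ s, φ j (G x) * h j x) z = ∑ j ∈ s, φ j z * P (h j) z := by
  classical
  induction s using Finset.induction_on with
  | empty =>
    have h1 := hP.mul (fun _ => 0) (const_mem 0) (fun _ => 1) hP.one.1
    simp only [zero_mul] at h1
    simpa using h1
  | insert a s ha ih =>
    have h1 := hP.mul (φ a) (hφ a) (h a) (hh a)
    have h2 := hP.add _ h1.1 _ ih.1
    have h3 : (fun x => ∑ j ∈ insert a s, φ j (G x) * h j x) =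
        fun x => φ a (G x) * h a x + ∑ j ∈ s, φ j (G x) * h j x := by
      funext x
      rw [Finset.sum_insert ha]
    rw [h3]
    refine ⟨h2.1, fun z hz => ?_⟩
    rw [h2.2 z hz, h1.2 z hz, ih.2 z hz, Finset.sum_insert ha]

/-- Equality on `U` is enough. -/
theorem congr (hP : IsModuleProjection S U V G P) {h k : X → ℂ} (hh : h ∈ S) (hk : k ∈ S)
    (e : ∀ x ∈ U, h x = k x) {z : F} (hz : z ∈ V) : P h z = P k z := by
  have h1 := hP.mul (fun _ => -1) (const_mem _) k hk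
  have h2 := hP.add h hh _ h1.1
  have h3 := hP.le _ h2.1 0 (fun x hx => by
    rw [e x hx]
    simp) z hz
  rw [h2.2 z hz, h1.2 z hz, norm_le_zero_iff] at h3
  linear_combination h3

/-- Vector norms. -/
theorem norm_vec (hP : IsModuleProjection S U V G P) {N : ℕ} {h : Fin N → X → ℂ} (hh : ∀ j, h j ∈ S)
    {A : ℝ} (hA : 0 ≤ A) (hb : ∀ x ∈ U, ∑ j, ‖h j x‖ ^ 2 ≤ A ^ 2) {z : F} (hz : z ∈ V) :
    ∑ j, ‖P (h j) z‖ ^ 2 ≤ A ^ 2 := by
  set T : ℝ := ∑ j, ‖P (h j) z‖ ^ 2 with hT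
  have hT0 : 0 ≤ T := Finset.sum_nonneg fun j _ => sq_nonneg _
  have h0 := hP.sum (φ := fun j _ => conj (P (h j) z)) (fun j => const_mem _) hh Finset.univ
  have h1 : P (fun x => ∑ j, conj (P (h j) z) * h j x) z = (T : ℂ) := by
    rw [h0.2 z hz, hT, Complex.ofReal_sum]
    refine Finset.sum_congr rfl fun j _ => ?_
    rw [← Complex.normSq_eq_conj_mul_self, Complex.normSq_eq_norm_sq]
  have h2 : ‖P (fun x => ∑ j, conj (P (h j) z) * h j x) z‖ ≤ Real.sqrt T * A := by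
    refine hP.le _ h0.1 _ (fun x hx => ?_) z hz
    refine (norm_sum_le _ _).trans ?_
    have h3 : ∑ j, ‖conj (P (h j) z) * h j x‖ = ∑ j, ‖conj (P (h j) z)‖ * ‖h j x‖ :=
      Finset.sum_congr rfl fun j _ => norm_mul _ _
    rw [h3]
    have h4 : ∑ j, ‖conj (P (h j) z)‖ ^ 2 = T := by
      rw [hT]
      refine Finset.sum_congr rfl fun j _ => ?_
      rw [RCLike.norm_conj]
    refine (Real.sum_mul_le_sqrt_mul_sqrt _ _ _).trans ?_
    rw [h4]
    refine mul_le_mul_of_nonneg_left ?_ (Real.sqrt_nonneg _)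
    rw [Real.sqrt_le_left hA]
    exact hb x hx
  rw [h1, Complex.norm_real, Real.norm_of_nonneg hT0] at h2
  by_contra hlt
  push Not at hlt
  have hTp : 0 < T := lt_of_le_of_lt (sq_nonneg A) hlt
  have h5 : Real.sqrt T ≤ A := by
    have h6 : Real.sqrt T * Real.sqrt T ≤ Real.sqrt T * A := by
      rw [Real.mul_self_sqrt hT0]
      exact h2
    exact le_of_mul_le_mul_left h6 (Real.sqrt_pos.2 hTp)
  have h7 : T ≤ A ^ 2 := by
    rw [← Real.sq_sqrt hT0]
    exact pow_le_pow_left₀ (Real.sqrt_nonneg _) h5 2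
  exact absurd h7 (not_le.2 hlt)

/-- Solutions are carried over. -/
theorem sol (hP : IsModuleProjection S U V G P) {N : ℕ} {f : Fin N → F → ℂ}
    (hf : ∀ j, f j ∈ Hinf V) {u : F → ℂ} (hu : u ∈ Hinf V) {A : ℝ}
    (hA : 0 ≤ A) (H : Sol S U G f u A) : Sol (Hinf V) V id f u A := by
  obtain ⟨h, hh, hsol⟩ := H
  refine ⟨fun j => P (h j), fun j => hP.maps _ (hh j), fun z hz =>
    ⟨?_, hP.norm_vec hh hA (fun x hx => (hsol x hx).2) hz⟩⟩
  have h1 := hP.sum hf hh Finset.univ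
  have h2 := hP.mul u hu (fun _ => 1) hP.one.1
  have h3 := hP.congr h1.1 h2.1 (fun x hx => by
    rw [mul_one]
    exact (hsol x hx).1) hz
  rw [h1.2 z hz, h2.2 z hz, hP.one.2 z hz, mul_one] at h3
  exact h3

/-- `φ ∘ G ∈ S`. -/
theorem comp_mem (hP : IsModuleProjection S U V G P) {φ : F → ℂ} (hφ : φ ∈ Hinf V) :
    (fun x => φ (G x)) ∈ S := by
  have h1 := (hP.mul φ hφ (fun _ => 1) hP.one.1).1
  simp only [mul_one] at h1
  exact h1

end IsModuleProjection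

theorem Sol.abs {X Y : Type} {S : Set (X → ℂ)} {U : Set X} {G : X → Y} {N : ℕ} {f : Fin N → Y → ℂ}
    {u : Y → ℂ} {A : ℝ} (h : Sol S U G f u A) : Sol S U G f u |A| := by
  obtain ⟨h, h1, h2⟩ := h
  exact ⟨h, h1, fun z hz => ⟨(h2 z hz).1, by rw [sq_abs]; exact (h2 z hz).2⟩⟩

/-- Solutions are carried back. -/
theorem Sol.back {X Y : Type} {S : Set (X → ℂ)} {T : Set (Y → ℂ)} {U : Set X} {V : Set Y} {G : X → Y}
    (hGV : ∀ x ∈ U, G x ∈ V) (hT : ∀ h ∈ T, (fun x => h (G x)) ∈ S) {N : ℕ} {f : Fin N → Y → ℂ}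
    {u : Y → ℂ} {A : ℝ} (h : Sol T V id f u A) : Sol S U G f u A := by
  obtain ⟨h, h1, h2⟩ := h
  exact ⟨fun j x => h j (G x), fun j => hT _ (h1 j), fun x hx => h2 _ (hGV x hx)⟩

/-! ### Bounded Dirichlet series -/

section

open Pool.Agent.MPca0fc2.DS (pt IsDirichlet corr)

theorem dir_iff {F : ℂ → ℂ} : F ∈ Dir ↔ IsDirichlet F :=
  ⟨fun h => ⟨h.1.1, h.1.2, h.2⟩, fun h => ⟨⟨h.1, h.2.1⟩, h.2.2⟩⟩

/-- Bohr's lift: from a projection of `H^∞(Δ)` to one of the bounded Dirichlet series. -/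
theorem transfer {F : Type} [NormedAddCommGroup F] [NormedSpace ℂ F] {V : Set F} {G : C₀(ℕ, ℂ) → F}
    {P : (C₀(ℕ, ℂ) → ℂ) → F → ℂ} (hP : IsModuleProjection (Hinf Δ) Δ V G P) :
    ∃ Q, IsModuleProjection Dir RHP V (fun s => G (pt s)) Q := by
  classical
  have hC := corr
  have hl : ∀ K : ℂ → ℂ, ∃ H : C₀(ℕ, ℂ) → ℂ, K ∈ Dir →
      H ∈ Hinf Δ ∧ ∀ s : ℂ, 0 < s.re → H (pt s) = K s := by
    intro K
    by_cases hK : K ∈ Dir
    · obtain ⟨H, h1, h2⟩ := hC.lift (dir_iff.1 hK)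
      exact ⟨H, fun _ => ⟨h1, h2⟩⟩
    · exact ⟨0, fun h => absurd h hK⟩
  choose L hL using hl
  -- the lift is determined on the ball
  have key : ∀ (K : ℂ → ℂ) (H : C₀(ℕ, ℂ) → ℂ), K ∈ Dir → H ∈ Hinf Δ →
      (∀ s : ℂ, 0 < s.re → H (pt s) = K s) → ∀ z ∈ V, P (L K) z = P H z := by
    intro K H hK hH e z hz
    refine hP.congr (hL K hK).1 hH ?_ hz
    exact hC.eq_of (hL K hK).1 hH fun s hs => by rw [(hL K hK).2 s hs, e s hs]
  refine ⟨fun K => P (L K), ?_⟩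
  refine
    { mem := fun s hs => hP.mem _ (hC.mem s hs)
      mul_mem := fun h hh k hk => dir_iff.2 (hC.mul (dir_iff.1 hh) (dir_iff.1 hk))
      maps := fun h hh => hP.maps _ (hL h hh).1
      le := fun h hh C hb z hz => ?_
      one := ⟨dir_iff.2 (hC.const 1), fun z hz => ?_⟩
      add := fun h hh k hk => ⟨dir_iff.2 (hC.add (dir_iff.1 hh) (dir_iff.1 hk)), fun z hz => ?_⟩
      mul := fun φ hφ h hh => ⟨?_, fun z hz => ?_⟩ }
  · refine hP.le _ (hL h hh).1 C ?_ z hz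
    exact hC.norm_of (hL h hh).1 fun s hs => by
      rw [(hL h hh).2 s hs]
      exact hb s hs
  · rw [key _ (fun _ => 1) (dir_iff.2 (hC.const 1)) hP.one.1 (fun s _ => rfl) z hz]
    exact hP.one.2 z hz
  · have h1 := hP.add _ (hL h hh).1 _ (hL k hk).1
    rw [key _ _ (dir_iff.2 (hC.add (dir_iff.1 hh) (dir_iff.1 hk))) h1.1 (fun s hs => by
      rw [(hL h hh).2 s hs, (hL k hk).2 s hs]) z hz]
    exact h1.2 z hz
  · have h1 := hP.comp_mem hφ
    exact dir_iff.2 (hC.mul (hC.fwd _ h1) (dir_iff.1 hh))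
  · have h1 := hP.mul φ hφ _ (hL h hh).1
    rw [key _ _ (dir_iff.2 (hC.mul (hC.fwd _ (hP.comp_mem hφ)) (dir_iff.1 hh))) h1.1 (fun s hs => by
      rw [(hL h hh).2 s hs]) z hz]
    exact h1.2 z hz

end

/-! ### Consequences of a projection -/

section

open Pool.Agent.MPca0fc2.DS (pt IsDirichlet corr pt_mem pt_apply)
open Pool.Agent.MPca0fc2.FP (sec_diff sec_mem sol_of_sections)

variable {F : Type} [NormedAddCommGroup F] [NormedSpace ℂ F] {V : Set F} {G : C₀(ℕ, ℂ) → F}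
    {P : (C₀(ℕ, ℂ) → ℂ) → F → ℂ}

omit [NormedAddCommGroup F] [NormedSpace ℂ F] in
theorem isPrimeCurve (G : C₀(ℕ, ℂ) → F) : IsPrimeCurve G fun s => G (pt s) :=
  fun _ hs => ⟨pt _, pt_mem hs, fun i => pt_apply hs i, rfl⟩

theorem sec_comp (hP : IsModuleProjection (Hinf Δ) Δ V G P) {φ : F → ℂ} (hφ : φ ∈ Hinf V) (m : ℕ) :
    (fun t => φ (G (sec m t))) ∈ Hinf (Pd m) :=
  Hinf_comp (hP.comp_mem hφ) (sec_diff m).differentiableOn fun _ ht => sec_mem ht

theorem sameEquations (hP : IsModuleProjection (Hinf Δ) Δ V G P) :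
    SameEquations V G fun s => G (pt s) := by
  intro N f u A hf hu hA
  obtain ⟨Q, hQ⟩ := transfer hP
  tfae_have 1 → 2 := fun h => h.back hQ.mem fun φ hφ => hQ.comp_mem hφ
  tfae_have 1 → 3 := fun h => h.back hP.mem fun φ hφ => hP.comp_mem hφ
  tfae_have 1 → 4 := fun h m => h.back (fun t ht => hP.mem _ (sec_mem ht)) fun φ hφ => sec_comp hP hφ m
  tfae_have 4 → 3 := by
    intro h
    have h1 := sol_of_sections (f := fun j x => f j (G x)) (g := fun x => u (G x)) hA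
      (fun j => (hP.comp_mem (hf j)).1.continuousOn) (hP.comp_mem hu).1.continuousOn fun m => by
        obtain ⟨k, hk, hk1⟩ := h m
        exact ⟨k, fun j => (hk j).1, hk1⟩
    obtain ⟨k, hk, hk1⟩ := h1
    exact ⟨k, fun j => mem_of_sq hk (fun x hx => (hk1 x hx).2) j, hk1⟩
  tfae_have 2 → 1 := fun h => hQ.sol hf hu hA h
  tfae_have 3 → 1 := fun h => hP.sol hf hu hA h
  tfae_finish

end

section

open Pool.Agent.MPca0fc2.DS (pt)
open Pool.Agent.MPca0fc2.FP (sec_diff sec_mem)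
open Pool.Agent.MPca0fc2AD (Q1On UniformQ1 core)

variable {n N : ℕ}

theorem corona_iff {D : Set (EuclideanSpace ℂ (Fin n))} : Corona N D ↔ Q1On N D := by
  constructor
  · intro h f hf hδ
    obtain ⟨A, k, hk, hk1⟩ := h f ⟨hf, hδ⟩
    exact ⟨k, hk, fun z hz => (hk1 z hz).1⟩
  · intro h f hf
    obtain ⟨k, hk, hk1⟩ := h f hf.1 hf.2
    choose C hC using fun j => (hk j).2
    refine ⟨Real.sqrt (∑ j, C j ^ 2), k, hk, fun z hz => ⟨hk1 z hz, ?_⟩⟩
    rw [Real.sq_sqrt (Finset.sum_nonneg fun j _ => sq_nonneg _)]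
    exact Finset.sum_le_sum fun j _ => pow_le_pow_left₀ (norm_nonneg _) (hC j z hz) 2

theorem uniform_iff {δ A : ℝ} {U V : Set (EuclideanSpace ℂ (Fin n))} :
    Uniform N δ A U V ↔ UniformQ1 N δ A U V := by
  constructor
  · intro h f hf hfb
    obtain ⟨k, hk, hk1⟩ := h f ⟨hf, hfb⟩
    exact ⟨k, fun j => (hk j).1, hk1⟩
  · intro h f hf
    obtain ⟨k, hk, hk1⟩ := h f hf.1 hf.2
    exact ⟨k, fun j => mem_of_sq hk (fun x hx => (hk1 x hx).2) j, hk1⟩

theorem q1_iff : Q1 n N ↔ ∀ m, 2 ≤ m → m ≤ n → ∀ D : Set (EuclideanSpace ℂ (Fin m)),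
    IsStrictlyPscDomain D → Q1On N D :=
  ⟨fun h m hm hmn D hD => corona_iff.1 (h m hm hmn D hD),
    fun h m hm hmn D hD => corona_iff.2 (h m hm hmn D hD)⟩

theorem one_mem {E : Type} [NormedAddCommGroup E] [NormedSpace ℂ E] {U : Set E} :
    (1 : E → ℂ) ∈ Hinf U := const_mem 1

/-- Bounds on the sections are bounds on the ball. -/
theorem uniform_of_sections {G : C₀(ℕ, ℂ) → EuclideanSpace ℂ (Fin n)}
    {P : (C₀(ℕ, ℂ) → ℂ) → EuclideanSpace ℂ (Fin n) → ℂ}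
    (hP : IsModuleProjection (Hinf Δ) Δ (B n) G P) {δ A : ℝ} (hA : 0 ≤ A)
    (h : ∀ f : Fin N → EuclideanSpace ℂ (Fin n) → ℂ, IsDeltaData (B n) δ f →
      ∀ m, Sol (Hinf (Pd m)) (Pd m) (fun t => G (sec m t)) f 1 A) : Uniform N δ A (B n) (B n) := by
  intro f hf
  have hfm : ∀ j, f j ∈ Hinf (B n) := mem_of_sq (A := 1) hf.1 fun z hz => by
    rw [one_pow]
    exact (hf.2 z hz).2
  exact ((sameEquations hP N f 1 A hfm one_mem hA).out 3 0).1 (h f hf)

theorem decidesQ1 (hn : 2 ≤ n) {G : C₀(ℕ, ℂ) → EuclideanSpace ℂ (Fin n)}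
    {P : (C₀(ℕ, ℂ) → ℂ) → EuclideanSpace ℂ (Fin n) → ℂ}
    (hP : IsModuleProjection (Hinf Δ) Δ (B n) G P) : DecidesQ1 n N G fun s => G (pt s) := by
  have hcore := core (n := n) (N := N) hn
  obtain ⟨Q, hQ⟩ := transfer hP
  unfold DecidesQ1
  tfae_have 1 → 4 := by
    intro h δ hδ
    have h4 : ∀ δ > 0, ∃ A : ℝ, UniformQ1 N δ A (ball (0 : EuclideanSpace ℂ (Fin n)) 1) (ball 0 1) :=
      (hcore.out 0 3).1 (q1_iff.1 h)
    obtain ⟨A, hA⟩ := h4 δ hδ
    exact ⟨A, fun f hf m => (uniform_iff.2 hA f hf).back (fun t ht => hP.mem _ (sec_mem ht))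
      fun φ hφ => sec_comp hP hφ m⟩
  tfae_have 4 → 1 := by
    intro h
    have h4 : ∀ δ > 0, ∃ A : ℝ, UniformQ1 N δ A (ball (0 : EuclideanSpace ℂ (Fin n)) 1) (ball 0 1) := by
      intro δ hδ
      obtain ⟨A, hA⟩ := h δ hδ
      exact ⟨|A|, uniform_iff.1 (uniform_of_sections hP (abs_nonneg A) fun f hf m => (hA f hf m).abs)⟩
    exact q1_iff.2 ((hcore.out 3 0).1 h4)
  tfae_have 1 → 2 := by
    intro h f hf
    have h4 : Q1On N (ball (0 : EuclideanSpace ℂ (Fin n)) 1) := (hcore.out 0 2).1 (q1_iff.1 h)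
    obtain ⟨A, hA⟩ := corona_iff.2 h4 f hf
    exact ⟨A, hA.back hQ.mem fun φ hφ => hQ.comp_mem hφ⟩
  tfae_have 2 → 1 := by
    intro h
    have h4 : Corona N (ball (0 : EuclideanSpace ℂ (Fin n)) 1) := by
      intro f hf
      obtain ⟨A, hA⟩ := h f hf
      exact ⟨|A|, hQ.sol hf.1 one_mem (abs_nonneg A) hA.abs⟩
    exact q1_iff.2 ((hcore.out 2 0).1 (corona_iff.1 h4))
  tfae_have 1 → 3 := by
    intro h f hf
    have h4 : Q1On N (ball (0 : EuclideanSpace ℂ (Fin n)) 1) := (hcore.out 0 2).1 (q1_iff.1 h)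
    obtain ⟨A, hA⟩ := corona_iff.2 h4 f hf
    exact ⟨A, hA.back hP.mem fun φ hφ => hP.comp_mem hφ⟩
  tfae_have 3 → 1 := by
    intro h
    have h4 : Corona N (ball (0 : EuclideanSpace ℂ (Fin n)) 1) := by
      intro f hf
      obtain ⟨A, hA⟩ := h f hf
      exact ⟨|A|, hP.sol hf.1 one_mem (abs_nonneg A) hA.abs⟩
    exact q1_iff.2 ((hcore.out 2 0).1 (corona_iff.1 h4))
  tfae_finish

/-- The corona theorem for the ball of `c₀` implies Q1. -/
theorem q1_of_corona (hn : 2 ≤ n) {G : C₀(ℕ, ℂ) → EuclideanSpace ℂ (Fin n)}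
    {P : (C₀(ℕ, ℂ) → ℂ) → EuclideanSpace ℂ (Fin n) → ℂ}
    (hP : IsModuleProjection (Hinf Δ) Δ (B n) G P) (h : Corona N Δ) : Q1 n N := by
  refine ((decidesQ1 (N := N) hn hP).out 2 0).1 ?_
  rintro f ⟨hf, δ, hδ, hfδ⟩
  obtain ⟨A, hA⟩ := h (fun j x => f j (G x)) ⟨fun j => hP.comp_mem (hf j), δ, hδ,
    fun x hx => hfδ _ (hP.mem x hx)⟩
  exact ⟨A, hA⟩

/-- Bounds for the ball are local bounds for all domains. -/
theorem local_of_uniform {δ A : ℝ} (hδ : 0 < δ) (hA : 0 ≤ A) (h : Uniform N δ A (B n) (B n))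
    {δ' A' : ℝ} (hδ' : δ < δ') (hA' : A < A') {D : Set (EuclideanSpace ℂ (Fin n))}
    (hD : IsStrictlyPscDomain D) {p : EuclideanSpace ℂ (Fin n)} (hp : p ∈ frontier D) {s : ℝ}
    (hs : 0 < s) : ∃ r > 0, Uniform N δ' A' (D ∩ ball p s) (D ∩ ball p r) := by
  obtain ⟨r, hr, -, hloc⟩ := Pool.Agent.MPca0fc2.EQ.loc_psc hD hp (N := N) hA hδ hδ' hA' hs
    ((Pool.Agent.MPca0fc2AD.uniformQ1_iff hδ hA).1 (uniform_iff.1 h))
  exact ⟨r, hr, uniform_iff.2
    ((Pool.Agent.MPca0fc2AD.uniformQ1_iff (hδ.trans hδ') (hA.trans hA'.le)).2 hloc)⟩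

end

/-! ### The projection -/

section

open Pool.Agent.MPca0fc2.DS (pt)
open Pool.Agent.MPca0fc2.FP (jn pn jn_mem pn_mem pn_jn sec_diff sec_mem)

/-- The projection for fewer coordinates. -/
theorem IsModuleProjection.first {X : Type} {S : Set (X → ℂ)} {U : Set X} {G : X → L2}
    {P : (X → ℂ) → L2 → ℂ} (hP : IsModuleProjection S U BB G P) (n : ℕ) :
    IsModuleProjection S U (B n) (first n G) fun h w => P h (jn n w) where
  mem x hx := pn_mem (n := n) (hP.mem x hx)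
  mul_mem := hP.mul_mem
  maps h hh := Hinf_comp (hP.maps h hh) (jn n).differentiable.differentiableOn fun w hw => jn_mem hw
  le h hh C hC w hw := hP.le h hh C hC _ (jn_mem hw)
  one := ⟨hP.one.1, fun w hw => hP.one.2 _ (jn_mem hw)⟩
  add h hh k hk := ⟨(hP.add h hh k hk).1, fun w hw => (hP.add h hh k hk).2 _ (jn_mem hw)⟩
  mul φ hφ h hh := by
    have h1 : (fun y : L2 => φ (pn n y)) ∈ Hinf BB :=
      Hinf_comp hφ (pn n).differentiable.differentiableOn fun x hx => pn_mem hx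
    have h2 := hP.mul _ h1 h hh
    refine ⟨h2.1, fun w hw => ?_⟩
    have h3 := h2.2 _ (jn_mem hw)
    rw [pn_jn] at h3
    exact h3

theorem exists_projection : ∃ (G : C₀(ℕ, ℂ) → L2) (P : (C₀(ℕ, ℂ) → ℂ) → L2 → ℂ),
    DifferentiableOn ℂ G Δ ∧ IsModuleProjection (Hinf Δ) Δ BB G P := by
  obtain ⟨G, P, hG, hG1, hP⟩ := Pool.Agent.MPca0fc2.FP.exists_proj_l2
  exact ⟨G, P, hG,
    { mem := hG1
      mul_mem := fun h hh k hk => mul_mem' hh hk
      maps := fun h hh => ⟨hP.diff h hh, hh.2.imp fun C hC => hP.norm h hh C hC⟩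
      le := fun h hh C hb z hz => hP.norm h hh C hb z hz
      one := ⟨const_mem 1, hP.one⟩
      add := fun h hh k hk => ⟨add_mem' hh hk, fun z hz => hP.add h k hh hk z hz⟩
      mul := fun φ hφ h hh => ⟨mul_mem' (Hinf_comp hφ hG hG1) hh, fun z hz => hP.mod φ h hφ hh z hz⟩ }⟩

theorem transfers {F : Type} [NormedAddCommGroup F] [NormedSpace ℂ F] {V : Set F} {G : C₀(ℕ, ℂ) → F}
    {P : (C₀(ℕ, ℂ) → ℂ) → F → ℂ} (hP : IsModuleProjection (Hinf Δ) Δ V G P) :
    Transfers V G fun s => G (pt s) :=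
  ⟨transfer hP, ⟨P, hP⟩, sameEquations hP⟩

theorem corona_BB {G : C₀(ℕ, ℂ) → L2} {P : (C₀(ℕ, ℂ) → ℂ) → L2 → ℂ}
    (hP : IsModuleProjection (Hinf Δ) Δ BB G P) {N : ℕ} (h : Corona N Δ) : Corona N BB := by
  rintro f ⟨hf, δ, hδ, hfδ⟩
  obtain ⟨A, hA⟩ := h (fun j x => f j (G x)) ⟨fun j => hP.comp_mem (hf j), δ, hδ,
    fun x hx => hfδ _ (hP.mem x hx)⟩
  exact ⟨|A|, hP.sol hf one_mem (abs_nonneg A) (Sol.abs (G := G) (f := f) (u := 1) hA)⟩

theorem uniform_BB {G : C₀(ℕ, ℂ) → L2} {P : (C₀(ℕ, ℂ) → ℂ) → L2 → ℂ}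
    (hP : IsModuleProjection (Hinf Δ) Δ BB G P) {N : ℕ} {δ A : ℝ} (hA : 0 ≤ A)
    (h : ∀ m, Uniform N δ A (Pd m) (Pd m)) : Uniform N δ A BB BB := by
  intro f hf
  have hfm : ∀ j, f j ∈ Hinf BB := mem_of_sq (A := 1) hf.1 fun z hz => by
    rw [one_pow]
    exact (hf.2 z hz).2
  refine ((sameEquations hP N f 1 A hfm one_mem hA).out 3 0).1 fun m => ?_
  exact h m (fun j t => f j (G (sec m t))) ⟨fun j => (sec_comp hP (hfm j) m).1,
    fun t ht => hf.2 _ (hP.mem _ (sec_mem ht))⟩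

end

section

open Pool.Agent.MPca0fc2.FP (jn pn jn_mem pn_mem pn_jn tendsto_jn_pn)

/-- Dimension free bounds are bounds for the ball of `ℓ²`. -/
theorem uniform_BB_of {N : ℕ} {δ A : ℝ} (h : ∀ n, Uniform N δ A (B n) (B n)) : Uniform N δ A BB BB := by
  intro f hf
  have hfn : ∀ n, IsDeltaData (B n) δ fun j w => f j (jn n w) := fun n =>
    ⟨fun j => (hf.1 j).comp (jn n).differentiable.differentiableOn fun w hw => jn_mem hw,
      fun w hw => hf.2 _ (jn_mem hw)⟩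
  choose k hk hk1 using fun n => h n _ (hfn n)
  obtain ⟨𝒰, h𝒰⟩ : ∃ 𝒰 : Ultrafilter ℕ, (𝒰 : Filter ℕ) ≤ atTop :=
    ⟨Ultrafilter.of atTop, Ultrafilter.of_le _⟩
  have hb : ∀ n j, ∀ x ∈ BB, ‖k n j (pn n x)‖ ≤ |A| := by
    intro n j x hx
    have h1 := (hk1 n _ (pn_mem hx)).2
    have h2 : ‖k n j (pn n x)‖ ^ 2 ≤ |A| ^ 2 := by
      rw [sq_abs]
      exact (Finset.single_le_sum (f := fun j => ‖k n j (pn n x)‖ ^ 2) (fun _ _ => sq_nonneg _)
        (Finset.mem_univ j)).trans h1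
    exact (sq_le_sq₀ (norm_nonneg _) (abs_nonneg A)).mp h2
  choose g hg hgb hgt using fun j => Pool.Agent.MPca0fc2.DS.ultra_holo_banach 𝒰
    (G := fun n (x : L2) => k n j (pn n x)) (M := |A|)
    (fun n => (hk n j).1.comp (pn n).differentiable.differentiableOn fun x hx => pn_mem hx)
    (fun n x hx => hb n j x hx)
  refine ⟨g, fun j => ⟨hg j, |A|, hgb j⟩, fun x hx => ⟨?_, ?_⟩⟩
  · have h1 : Tendsto (fun n => ∑ j, f j (jn n (pn n x)) * k n j (pn n x)) 𝒰
        (𝓝 (∑ j, f j x * g j x)) := by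
      refine tendsto_finsetSum _ fun j _ => Tendsto.mul ?_ (hgt j x hx)
      have h2 : ContinuousAt (f j) x := ((hf.1 j).differentiableAt (isOpen_ball.mem_nhds hx)).continuousAt
      exact (h2.tendsto.comp (tendsto_jn_pn x)).mono_left h𝒰
    have h2 : (fun n => ∑ j, f j (jn n (pn n x)) * k n j (pn n x)) = fun _ => 1 :=
      funext fun n => (hk1 n _ (pn_mem hx)).1
    rw [h2] at h1
    exact tendsto_nhds_unique h1 tendsto_const_nhds
  · refine le_of_tendsto (tendsto_finsetSum _ fun j _ => ((hgt j x hx).norm.pow 2)) ?_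
    exact Eventually.of_forall fun n => (hk1 n _ (pn_mem hx)).2

theorem uniform_of_BB {N : ℕ} {δ A : ℝ} (h : Uniform N δ A BB BB) (n : ℕ) : Uniform N δ A (B n) (B n) := by
  intro f hf
  obtain ⟨k, hk, hk1⟩ := h (fun j x => f j (pn n x))
    ⟨fun j => (hf.1 j).comp (pn n).differentiable.differentiableOn fun x hx => pn_mem hx,
      fun x hx => hf.2 _ (pn_mem hx)⟩
  refine ⟨fun j w => k j (jn n w), fun j => Hinf_comp (hk j) (jn n).differentiable.differentiableOn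
    fun w hw => jn_mem hw, fun w hw => ?_⟩
  have h1 := hk1 _ (jn_mem hw)
  simp only [id, pn_jn] at h1
  exact h1

end

section

open Pool.Agent.MPca0fc2.FP (VSol VCor VUnif unif_of_cor cor_of_unif blocks_l2 blocks_c0 unif_l2_iff
  unif_c0_iff)
open Pool.Agent.MPca0fc2.PD (En)

variable {E : Type} [NormedAddCommGroup E] [NormedSpace ℂ E] {N : ℕ}

theorem sq_norm_toLp (v : Fin N → ℂ) : ‖(WithLp.toLp 2 v : En N)‖ ^ 2 = ∑ j, ‖v j‖ ^ 2 := by
  rw [EuclideanSpace.norm_sq_eq]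

theorem vsol_of_sol {U : Set E} {f : Fin N → E → ℂ} {A : ℝ} (h : Sol (Hinf U) U id f 1 A) :
    VSol (fun x => (WithLp.toLp 2 fun j => f j x : En N)) U |A| := by
  obtain ⟨k, hk, hk1⟩ := h
  refine ⟨fun x => WithLp.toLp 2 fun j => k j x, differentiableOn_euclidean.2 fun j => (hk j).1,
    fun x hx => ⟨(hk1 x hx).1, ?_⟩⟩
  rw [← sq_le_sq₀ (norm_nonneg _) (abs_nonneg A), sq_norm_toLp, sq_abs]
  exact (hk1 x hx).2

theorem sol_of_vsol {U : Set E} {f : Fin N → E → ℂ} {A : ℝ}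
    (h : VSol (fun x => (WithLp.toLp 2 fun j => f j x : En N)) U A) : Sol (Hinf U) U id f 1 A := by
  obtain ⟨k, hk, hk1⟩ := h
  have h1 : ∀ x ∈ U, ∑ j, ‖k x j‖ ^ 2 ≤ A ^ 2 := fun x hx => by
    rw [← EuclideanSpace.norm_sq_eq]
    exact pow_le_pow_left₀ (norm_nonneg _) (hk1 x hx).2 2
  have h2 : ∀ j, DifferentiableOn ℂ (fun x => k x j) U := fun j => differentiableOn_euclidean.1 hk j
  exact ⟨fun j x => k x j, mem_of_sq h2 h1, fun x hx => ⟨(hk1 x hx).1, h1 x hx⟩⟩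

theorem uniform_iff_vunif {δ A : ℝ} (hδ : 0 ≤ δ) (hA : 0 ≤ A) :
    Uniform N δ A (ball (0 : E) 1) (ball 0 1) ↔ VUnif N E δ A := by
  constructor
  · intro h f hf hfb
    have h1 := vsol_of_sol (h (fun j x => f x j) ⟨fun j => differentiableOn_euclidean.1 hf j,
      fun x hx => by
        rw [← EuclideanSpace.norm_sq_eq]
        refine ⟨pow_le_pow_left₀ hδ (hfb x hx).1 2, ?_⟩
        exact pow_le_one₀ (norm_nonneg _) (hfb x hx).2⟩)
    rwa [abs_of_nonneg hA] at h1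
  · intro h f hf
    refine sol_of_vsol (h _ (differentiableOn_euclidean.2 hf.1) fun x hx => ?_)
    obtain ⟨h1, h2⟩ := hf.2 x hx
    rw [← sq_norm_toLp] at h1 h2
    exact ⟨le_of_sq_le_sq h1 (norm_nonneg _),
      (sq_le_one_iff₀ (norm_nonneg _)).1 h2⟩

theorem corona_iff_vcor : Corona N (ball (0 : E) 1) ↔ VCor N E := by
  constructor
  · rintro h f hf ⟨C, hC⟩ ⟨δ, hδ, hfδ⟩
    obtain ⟨A, hA⟩ := h (fun j x => f x j) ⟨fun j => ⟨differentiableOn_euclidean.1 hf j, C, fun x hx =>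
      (PiLp.norm_apply_le (f x) j).trans (hC x hx)⟩, δ ^ 2, by positivity, fun x hx => by
        rw [← EuclideanSpace.norm_sq_eq]
        exact pow_le_pow_left₀ hδ.le (hfδ x hx) 2⟩
    exact ⟨|A|, vsol_of_sol hA⟩
  · rintro h f ⟨hf, δ, hδ, hfδ⟩
    choose C hC using fun j => (hf j).2
    obtain ⟨A, hA⟩ := h (fun x => WithLp.toLp 2 fun j => f j x) (differentiableOn_euclidean.2 fun j => (hf j).1)
      ⟨Real.sqrt (∑ j, C j ^ 2), fun x hx => by
        refine Real.le_sqrt_of_sq_le ?_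
        rw [sq_norm_toLp]
        exact Finset.sum_le_sum fun j _ => pow_le_pow_left₀ (norm_nonneg _) (hC j x hx) 2⟩
      ⟨Real.sqrt δ, Real.sqrt_pos.2 hδ, fun x hx => by
        refine Real.sqrt_le_iff.2 ⟨norm_nonneg _, ?_⟩
        rw [sq_norm_toLp]
        exact hfδ x hx⟩
    exact ⟨A, sol_of_vsol hA⟩

theorem Uniform.abs {U V : Set E} {δ A : ℝ} (h : Uniform N δ A U V) : Uniform N δ |A| U V :=
  fun f hf => (h f hf).abs

/-- From the corona theorem to uniform bounds, and back. -/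
theorem corona_BB_iff : Corona N BB ↔ ∀ δ > 0, ∃ A : ℝ, Uniform N δ A BB BB := by
  obtain ⟨W, Φ, Ψ, hB⟩ := blocks_l2
  refine corona_iff_vcor.trans ⟨fun h δ hδ => ?_, fun h => cor_of_unif fun δ hδ => ?_⟩
  · obtain ⟨A, hA⟩ := unif_of_cor hB h hδ
    exact ⟨|A|, (uniform_iff_vunif hδ.le (abs_nonneg A)).2 fun f hf hfb =>
      (hA f hf hfb).mono Subset.rfl (le_abs_self A)⟩
  · obtain ⟨A, hA⟩ := h δ hδ
    exact ⟨|A|, (uniform_iff_vunif hδ.le (abs_nonneg A)).1 hA.abs⟩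

theorem corona_Δ_iff : Corona N Δ ↔ PolydiscsFree N := by
  obtain ⟨W, Φ, Ψ, hB⟩ := blocks_c0
  refine corona_iff_vcor.trans ⟨fun h δ hδ => ?_, fun h => cor_of_unif fun δ hδ => ?_⟩
  · obtain ⟨A, hA⟩ := unif_of_cor hB h hδ
    have h1 : VUnif N C₀(ℕ, ℂ) δ |A| := fun f hf hfb => (hA f hf hfb).mono Subset.rfl (le_abs_self A)
    exact ⟨|A|, fun m => (uniform_iff_vunif hδ.le (abs_nonneg A)).2 ((unif_c0_iff (abs_nonneg A)).1 h1 m)⟩
  · obtain ⟨A, hA⟩ := h δ hδ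
    exact ⟨|A|, (unif_c0_iff (abs_nonneg A)).2 fun m =>
      (uniform_iff_vunif hδ.le (abs_nonneg A)).1 (hA m).abs⟩

theorem balls_iff {δ A : ℝ} : (∀ n, Uniform N δ A (B n) (B n)) ↔ Uniform N δ A BB BB :=
  ⟨uniform_BB_of, uniform_of_BB⟩

theorem uniform_abs_iff {U V : Set E} {δ A : ℝ} : Uniform N |δ| A U V ↔ Uniform N δ A U V := by
  unfold Uniform IsDeltaData
  rw [sq_abs]

theorem polydiscs_iff {δ A : ℝ} (hA : 0 ≤ A) :
    Uniform N δ A Δ Δ ↔ ∀ m, Uniform N δ A (Pd m) (Pd m) := by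
  have h1 : Uniform N |δ| A Δ Δ ↔ ∀ m, Uniform N |δ| A (Pd m) (Pd m) :=
    (uniform_iff_vunif (abs_nonneg δ) hA).trans ((unif_c0_iff hA).trans
      (forall_congr' fun m => (uniform_iff_vunif (abs_nonneg δ) hA).symm))
  exact uniform_abs_iff.symm.trans (h1.trans (forall_congr' fun m => uniform_abs_iff))

theorem constants {G : C₀(ℕ, ℂ) → L2} {P : (C₀(ℕ, ℂ) → ℂ) → L2 → ℂ}
    (hP : IsModuleProjection (Hinf Δ) Δ BB G P) {δ A : ℝ} (hA : 0 ≤ A) : Constants N δ A :=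
  ⟨balls_iff.symm, polydiscs_iff hA, fun h => uniform_BB hP hA ((polydiscs_iff hA).1 h)⟩

theorem decidesFree {G : C₀(ℕ, ℂ) → L2} {P : (C₀(ℕ, ℂ) → ℂ) → L2 → ℂ}
    (hP : IsModuleProjection (Hinf Δ) Δ BB G P) : DecidesFree N G fun s => G (Pool.Agent.MPca0fc2.DS.pt s) := by
  obtain ⟨Q, hQ⟩ := transfer hP
  unfold DecidesFree
  tfae_have 1 → 2 := by
    intro h δ hδ
    obtain ⟨A, hA⟩ := h δ hδ
    refine ⟨A, fun n hn => ⟨ball 0 1, Pool.Agent.MPca0fc2.TB.isStrictlyPscDomain_ball, ?_⟩⟩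
    have hp : (EuclideanSpace.single ⟨0, by omega⟩ 1 : EuclideanSpace ℂ (Fin n)) ∈
        frontier (ball (0 : EuclideanSpace ℂ (Fin n)) 1) := by
      rw [frontier_ball _ one_ne_zero, mem_sphere_zero_iff_norm]
      simp
    exact ⟨_, hp, 1, one_pos, hA n _ Pool.Agent.MPca0fc2.TB.isStrictlyPscDomain_ball _ hp 1 one_pos⟩
  tfae_have 2 → 3 := by
    intro h δ hδ
    obtain ⟨A, hA⟩ := h δ hδ
    refine ⟨|A|, balls_iff.2 ((uniform_iff_vunif hδ.le (abs_nonneg A)).2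
      ((unif_l2_iff (abs_nonneg A)).2 fun n hn => ?_))⟩
    obtain ⟨D, hD, p, hp, s, hs, r, hr, hu⟩ := hA n hn
    refine (uniform_iff_vunif hδ.le (abs_nonneg A)).1 (uniform_iff.2
      ((Pool.Agent.MPca0fc2AD.uniformQ1_iff hδ (abs_nonneg A)).2
        (Pool.Agent.MPca0fc2.EQ.ball_of_local hD hp hr
          ((Pool.Agent.MPca0fc2AD.uniformQ1_iff hδ (abs_nonneg A)).1 (uniform_iff.1 hu.abs)))))
  tfae_have 3 → 1 := by
    intro h δ hδ
    obtain ⟨A, hA⟩ := h (δ / 2) (half_pos hδ)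
    exact ⟨|A| + 1, fun n D hD p hp s hs => local_of_uniform (half_pos hδ) (abs_nonneg A) (hA n).abs
      (half_lt_self hδ) (lt_add_one _) hD hp hs⟩
  tfae_have 3 ↔ 4 := by
    rw [corona_BB_iff]
    exact forall₂_congr fun δ _ => exists_congr fun A => balls_iff
  tfae_have 4 → 5 := by
    intro h f hf
    obtain ⟨A, hA⟩ := h f hf
    exact ⟨A, hA.back hQ.mem fun φ hφ => hQ.comp_mem hφ⟩
  tfae_have 5 → 4 := by
    intro h f hf
    obtain ⟨A, hA⟩ := h f hf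
    exact ⟨|A|, hQ.sol hf.1 one_mem (abs_nonneg A) hA.abs⟩
  tfae_have 4 → 6 := by
    intro h f hf
    obtain ⟨A, hA⟩ := h f hf
    exact ⟨A, hA.back hP.mem fun φ hφ => hP.comp_mem hφ⟩
  tfae_have 6 → 4 := by
    intro h f hf
    obtain ⟨A, hA⟩ := h f hf
    exact ⟨|A|, hP.sol hf.1 one_mem (abs_nonneg A) hA.abs⟩
  tfae_have 4 → 7 := by
    intro h δ hδ
    obtain ⟨A, hA⟩ := corona_BB_iff.1 h δ hδ
    exact ⟨A, fun f hf m => (hA f hf).back
      (fun t ht => hP.mem _ (Pool.Agent.MPca0fc2.FP.sec_mem ht)) fun φ hφ => sec_comp hP hφ m⟩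
  tfae_have 7 → 4 := by
    intro h
    refine corona_BB_iff.2 fun δ hδ => ?_
    obtain ⟨A, hA⟩ := h δ hδ
    refine ⟨|A|, fun f hf => ?_⟩
    have hfm : ∀ j, f j ∈ Hinf BB := mem_of_sq (A := 1) hf.1 fun z hz => by
      rw [one_pow]
      exact (hf.2 z hz).2
    exact ((sameEquations hP N f 1 |A| hfm one_mem (abs_nonneg A)).out 3 0).1 fun m => (hA f hf m).abs
  tfae_finish

theorem q1_of_BB (h : Corona N BB) (n : ℕ) : Q1 n N := by
  rcases Nat.lt_or_ge n 2 with hn | hn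
  · intro m hm hmn
    omega
  · have hcore := Pool.Agent.MPca0fc2AD.core (n := n) (N := N) hn
    refine q1_iff.2 ((hcore.out 3 0).1 fun δ hδ => ?_)
    obtain ⟨A, hA⟩ := corona_BB_iff.1 h δ hδ
    exact ⟨A, uniform_iff.1 (balls_iff.2 hA n)⟩

end

/-- **Theorem.** -/
theorem result : ∃ (G : C₀(ℕ, ℂ) → L2) (g : ℂ → L2), DifferentiableOn ℂ G Δ ∧ IsPrimeCurve G g ∧
    -- (1), (2) projections and equations, for the ball of `ℓ²` and for the balls of `ℂⁿ`
    Transfers BB G g ∧ (∀ n, Transfers (B n) (first n G) (first n g)) ∧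
    -- (3) Q1
    (∀ n N, 2 ≤ n → DecidesQ1 n N (first n G) (first n g)) ∧
    -- (4) Q1 with bounds which do not depend on the dimension
    (∀ N, DecidesFree N G g) ∧
    -- (5) the ball of `c₀`, the ball of `ℓ²`, and Q1
    (∀ N, (Corona N Δ ↔ PolydiscsFree N) ∧ (Corona N Δ → Corona N BB) ∧ (Corona N BB → ∀ n, Q1 n N)) ∧
    -- (6) the bounds
    (∀ (N : ℕ) (δ A : ℝ), 0 ≤ A → Constants N δ A) := by
  obtain ⟨G, P, hG, hP⟩ := exists_projection
  exact ⟨G, _, hG, isPrimeCurve G, transfers hP, fun n => transfers (hP.first n),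
    fun n N hn => decidesQ1 hn (hP.first n), fun N => decidesFree hP,
    fun N => ⟨corona_Δ_iff, corona_BB hP, q1_of_BB⟩, fun N δ A hA => constants hP hA⟩

end Pool.Agent.Results.MP_ca0fc2_an.DirichletSeries
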