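import Pool.Agent.Lib.MP_ca0fc2_an.LD.A4
import Pool.Agent.Lib.MP_ca0fc2_an.LD.A5
import Pool.Agent.Lib.MP_ca0fc2_an.LD.P2
import Pool.Agent.Lib.MP_ca0fc2_an.BE.M3
import Pool.Agent.Lib.MP_ca0fc2_an.LS.F
import Pool.Agent.Lib.MP_ca0fc2_an.OV.L
import Pool.Agent.Lib.MP_ca0fc2_an.OV.H3
import Pool.Agent.Lib.MP_ca0fc2_an.OV.S3
import Pool.Agent.Lib.MP_ca0fc2_an.OV.W4
import Pool.Agent.Lib.MP_ca0fc2_an.OV.W5
import Pool.Agent.Lib.MP_ca0fc2_an.OV.Y1
import Pool.Agent.Lib.MP_ca0fc2_an.OV.Y3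
import Pool.Agent.Lib.MP_ca0fc2_an.OV.Z2
import Pool.Agent.Lib.MP_ca0fc2_an.OV.U2
import Pool.Agent.Lib.MP_ca0fc2_an.OVN.X6
import Pool.Agent.Lib.MP_ca0fc2_an.OVN.Y3
import Pool.Agent.Lib.MP_ca0fc2_an.OVN.Y4
import Pool.Agent.Lib.MP_ca0fc2_an.DADefs

/-!
# Omitted values and the corona problem

(A), (B) `D` is any strictly pseudoconvex domain and `f` are arbitrary corona data near a boundary point `p`
(on `D ∩ ball p r`) without bounded solutions near `p`. (If corona data on `D` have no bounded solutions on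
`D`, then there is such a point `p`.) Then the quotient `f_j / f_k` of two of the functions takes in every
neighbourhood of `p` all values outside a set of logarithmic capacity zero, and almost every linear
combination of the functions has zeros in every neighbourhood of `p`. More generally, for some point `x`
over `p` of the spectrum of the algebra `T_p` of the tame functions the following holds. Let `P_i` be
polynomials with coefficients in `T_p` which at `x` have no constant terms and finitely many common zeros.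
Then the quotient of two of the functions `P_i (f)` takes in every neighbourhood of `p` all values outside
a set of capacity zero, and in each neighbourhood of `x` all values outside a set (which depends on the
neighbourhood) which is removable for bounded analytic functions. The two functions are not tame at `p`.
(The quotient takes the value `a` at a point `z` if the denominator is not zero at `z` and the numerator is
`a` times the denominator.)

(C) `f` are holomorphic functions on `D` without common zeros such that the quotients `f_j / f_k`, `j < k`,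
take no value in the compact sets `K_jk`; either `D` is any convex domain and these sets have positive
capacity, or `D` is any open set and they are not removable. Then there are holomorphic `h_j` on `D` with
`∑ f_j h_j = 1` and `|h_j| ≤ C / |f|`, `|f|² = ∑ |f_k|²`; the constant `C` depends only on the sets `K_jk`
(not on `f`, `D` or the dimension). For `N = 2` both conditions are necessary: if such a constant exists for a
compact set `K` (in place of `K_12`) and corona data on the unit ball of some `ℂⁿ`, `n ≥ 1`, then `K` has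
positive capacity; if it exists for corona data on all open sets in some `ℂⁿ`, `n ≥ 1`, then `K` is not
removable.
-/

set_option autoImplicit false

open Metric Set Filter Topology MeasureTheory
open Pool.Agent.Lib.MP_ca0fc2_an

namespace Pool.Agent.Results.MP_ca0fc2_an.OmittedValues

/-- the data have bounded holomorphic solutions on `D` -/
def Solvable {n N : ℕ} (D : Set (EuclideanSpace ℂ (Fin n)))
    (f : Fin N → EuclideanSpace ℂ (Fin n) → ℂ) : Prop :=
  ∃ h : Fin N → EuclideanSpace ℂ (Fin n) → ℂ, (∀ j, IsHinf D (h j)) ∧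
    ∀ z ∈ D, ∑ j, f j z * h j z = 1

/-- corona data on `D` -/
def IsData {n N : ℕ} (D : Set (EuclideanSpace ℂ (Fin n)))
    (f : Fin N → EuclideanSpace ℂ (Fin n) → ℂ) : Prop :=
  (∀ j, IsHinf D (f j)) ∧ ∃ δ > 0, ∀ z ∈ D, δ ≤ ∑ j, ‖f j z‖ ^ 2

/-- the cell of the functions `u i` with centre `c` -/
def Cell {n m : ℕ} (D : Set (EuclideanSpace ℂ (Fin n)))
    (u : Fin m → EuclideanSpace ℂ (Fin n) → ℂ) (c : Fin m → ℂ) (ε : ℝ) :
    Set (EuclideanSpace ℂ (Fin n)) :=
  {z | z ∈ D ∧ ∀ i, ‖u i z - c i‖ < ε}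

/-- the generators of the algebra of the tame functions on `V = D ∩ ball p r`; `d` is the distance to the
complement of `D`, and `|Du|` at `z` is the supremum of `|(u ∘ φ)'(0)|` over the holomorphic maps `φ` of the
unit disc into `V` with `φ 0 = z`:
* `g ∘ Q`, `Q` a holomorphic map of `ball p r` into `ℂᵏ` with `|Q| < 1` on `V`, `g` a multiplier of the
  Drury-Arveson space of the unit ball of `ℂᵏ`;
* the same with `k = 1` and any `g` in `H^∞` of the unit disc;
* `u` in `H^∞ (V)` with `∫ |Du|^q d^(-n-1)` finite for some `q > 0` (in the form that `|Du|^q ≤ G` for some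
  `G` with `∫ G d^(-n-1)` finite);
* `u` in `H^∞ (V)` with `|Du|^q ≤ L (d / |F|)^s`, `q, s > 0`, `F` holomorphic on `ball p r` with positive
  real part on `V`;
* `u` in `H^∞ (V)` with `d |∇u| ≤ ω (d)`, `ω (t) / t` decreasing and `∫₀¹ exp (- c / ω (t)) dt / t` finite
  for all `c > 0`. -/
def Gen {n : ℕ} (D : Set (EuclideanSpace ℂ (Fin n))) (p : EuclideanSpace ℂ (Fin n)) (r : ℝ) :
    Set (EuclideanSpace ℂ (Fin n) → ℂ) :=
  {u | (∃ (k : ℕ) (Q : EuclideanSpace ℂ (Fin n) → EuclideanSpace ℂ (Fin k))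
      (g : EuclideanSpace ℂ (Fin k) → ℂ) (M : ℝ), DifferentiableOn ℂ Q (ball p r) ∧
      (∀ z ∈ D ∩ ball p r, ‖Q z‖ < 1) ∧ DAMultiplier M g ∧ ∀ z ∈ D ∩ ball p r, u z = g (Q z)) ∨
    (∃ (q : EuclideanSpace ℂ (Fin n) → ℂ) (g : ℂ → ℂ) (M : ℝ), DifferentiableOn ℂ q (ball p r) ∧
      (∀ z ∈ D ∩ ball p r, ‖q z‖ < 1) ∧ DifferentiableOn ℂ g (ball 0 1) ∧
      (∀ x ∈ ball (0 : ℂ) 1, ‖g x‖ ≤ M) ∧ ∀ z ∈ D ∩ ball p r, u z = g (q z)) ∨
    (IsHinf (D ∩ ball p r) u ∧
      ((∃ (q : ℝ) (G : EuclideanSpace ℂ (Fin n) → ℝ), 0 < q ∧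
        IntegrableOn (fun z => G z / infDist z Dᶜ ^ (n + 1)) (D ∩ ball p r) ∧
        ∀ φ : ℂ → EuclideanSpace ℂ (Fin n), DifferentiableOn ℂ φ (ball 0 1) →
          (∀ x ∈ ball (0 : ℂ) 1, φ x ∈ D ∩ ball p r) →
          ‖deriv (fun x => u (φ x)) 0‖ ^ q ≤ G (φ 0)) ∨
      (∃ (F : EuclideanSpace ℂ (Fin n) → ℂ) (q s L : ℝ), 0 < q ∧ 0 < s ∧
        DifferentiableOn ℂ F (ball p r) ∧ (∀ z ∈ D ∩ ball p r, 0 < (F z).re) ∧
        ∀ φ : ℂ → EuclideanSpace ℂ (Fin n), DifferentiableOn ℂ φ (ball 0 1) →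
          (∀ x ∈ ball (0 : ℂ) 1, φ x ∈ D ∩ ball p r) →
          ‖deriv (fun x => u (φ x)) 0‖ ^ q ≤ L * (infDist (φ 0) Dᶜ / ‖F (φ 0)‖) ^ s) ∨
      (∃ ω : ℝ → ℝ, (∀ t ∈ Ioo (0 : ℝ) 1, 0 < ω t) ∧
        (∀ c : ℝ, 0 < c → IntegrableOn (fun t => Real.exp (-(c / ω t)) / t) (Ioo 0 1)) ∧
        AntitoneOn (fun t => ω t / t) (Ioo 0 1) ∧
        ∀ z ∈ D ∩ ball p r, infDist z Dᶜ < 1 →
          infDist z Dᶜ * ‖fderiv ℂ u z‖ ≤ ω (infDist z Dᶜ))))}

/-- the closed algebra `T_p` of the tame functions near `p`: the bounded holomorphic functions near `p`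
which are near `p` uniform limits of polynomials in the generators (for each `ε` the distance to some
polynomial is at most `ε` on `D ∩ ball p r` for some `r`) -/
def Tame {n : ℕ} (D : Set (EuclideanSpace ℂ (Fin n))) (p : EuclideanSpace ℂ (Fin n)) :
    Set (EuclideanSpace ℂ (Fin n) → ℂ) :=
  {u | (∃ r > 0, IsHinf (D ∩ ball p r) u) ∧
    ∀ ε > 0, ∃ r > 0, ∃ v ∈ Algebra.adjoin ℂ (Gen D p r), ∀ z ∈ D ∩ ball p r, ‖u z - v z‖ ≤ ε}

/-- the neighbourhoods, in `D`, of the point of the spectrum of `T_p` given by the ultrafilter `x` in `D`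
with limit `p`: the cells `{z in D : |z - p| < ε, |u_i (z) - c_i| < ε}`, `u_i` in `T_p`, `c_i` the limit of
`u_i` along `x` -/
def Nbhds {n : ℕ} (D : Set (EuclideanSpace ℂ (Fin n))) (p : EuclideanSpace ℂ (Fin n))
    (x : Ultrafilter (EuclideanSpace ℂ (Fin n))) : Set (Set (EuclideanSpace ℂ (Fin n))) :=
  {S | ∃ (m : ℕ) (u : Fin m → EuclideanSpace ℂ (Fin n) → ℂ) (c : Fin m → ℂ) (ε : ℝ), 0 < ε ∧
    (∀ i, u i ∈ Tame D p) ∧ (∀ i, Tendsto (u i) x (𝓝 (c i))) ∧ S = Cell (D ∩ ball p ε) u c ε}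

/-- `K` is a compact set of positive logarithmic capacity: it carries a probability measure whose
logarithmic potential is bounded from below -/
def PosCapacity (K : Set ℂ) : Prop :=
  IsCompact K ∧ ∃ (μ : Measure ℂ) (B : ℝ), IsProbabilityMeasure μ ∧ μ Kᶜ = 0 ∧
    ∀ t : ℂ, Integrable (fun a => Real.log ‖t - a‖) μ ∧ -B ≤ ∫ a, Real.log ‖t - a‖ ∂μ

/-- `K` is compact and not removable for bounded analytic functions: some bounded holomorphic function
on the complement of `K` is not constant -/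
def NonRemovable (K : Set ℂ) : Prop :=
  IsCompact K ∧ ∃ b : ℂ → ℂ, DifferentiableOn ℂ b Kᶜ ∧ (∃ M, ∀ z ∉ K, ‖b z‖ ≤ M) ∧
    ∃ z ∉ K, ∃ w ∉ K, b z ≠ b w

/-- the function `P (f_1, .., f_N, t_1, .., t_m)`: a polynomial in the functions `f_j` whose coefficients
are polynomials in the functions `t_l` -/
noncomputable def poly {n N m : ℕ} (f : Fin N → EuclideanSpace ℂ (Fin n) → ℂ)
    (t : Fin m → EuclideanSpace ℂ (Fin n) → ℂ) (P : MvPolynomial (Fin N ⊕ Fin m) ℂ) :
    EuclideanSpace ℂ (Fin n) → ℂ :=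
  fun z => MvPolynomial.eval (Sum.elim (fun j => f j z) fun l => t l z) P

/-- the quotient `x / y` takes the value `a` at some point of `S` -/
def Takes {n : ℕ} (x y : EuclideanSpace ℂ (Fin n) → ℂ) (a : ℂ) (S : Set (EuclideanSpace ℂ (Fin n))) :
    Prop :=
  ∃ z ∈ S, y z ≠ 0 ∧ x z = a * y z

variable {n : ℕ}

theorem gen_tame (hn : 2 ≤ n) {D : Set (EuclideanSpace ℂ (Fin n))} (hD : IsStrictlyPscDomain D)
    (p : EuclideanSpace ℂ (Fin n)) (hp : p ∈ frontier D) :
    ∃ R > 0, ∀ r r' : ℝ, r' < r → r' ≤ R → Gen D p r ⊆ TameOn D (ball p r') := by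
  obtain ⟨U, ρ, h, c, hs, -⟩ := Pool.Agent.MPca0fc2.LV.support_of_domain hD
  obtain ⟨R, hR, hB⟩ := Pool.Agent.MPca0fc2.BE.besov_carl (by omega) hs hp
  refine ⟨R, hR, fun r r' hr hr' => ?_⟩
  rintro u (hu | hu | ⟨h1, hu | hu | hu⟩)
  · obtain ⟨k, Q, g, M, h1, h2, h3, h4⟩ := hu
    exact Or.inl (Pool.Agent.MPca0fc2.GW.comp_carl (by omega) hs hr
      ⟨k, Q, g, M, 1, le_rfl, h1, h2, Or.inl h3, h4⟩)
  · exact Or.inl (Pool.Agent.MPca0fc2.GW.comp_carl (by omega) hs hr
      (Pool.Agent.MPca0fc2.GW.disc_comp D (ball p r) hu))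
  · obtain ⟨q, G, hq, hG, h2⟩ := hu
    exact Or.inl (hB r r' hr hr' u h1 q G hq hG h2)
  · obtain ⟨F, q, s, L, hq, hs1, hF, hF1, h2⟩ := hu
    exact Or.inl (Pool.Agent.MPca0fc2.LD.holder_carl (by omega) hs hr hF hF1 h1 hq hs1 h2)
  · obtain ⟨⟨h1, M, h2⟩, ω, h3, h4, h5, h6⟩ := And.intro h1 hu
    have hsub : D ∩ ball p r' ⊆ D ∩ ball p r := fun z hz => ⟨hz.1, ball_subset_ball hr.le hz.2⟩
    exact Or.inr ⟨⟨h1.mono hsub, M, fun z hz => h2 z (hsub hz)⟩, ω, ⟨h3, h4⟩, h5,
      fun z hz => h6 z (hsub hz)⟩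

theorem solvable_iff {N : ℕ} {D : Set (EuclideanSpace ℂ (Fin n))}
    {f : Fin N → EuclideanSpace ℂ (Fin n) → ℂ} : Solvable D f ↔ ∃ C, SolvableOn f D C := by
  constructor
  · rintro ⟨h, h1, h2⟩
    choose hd C hC using h1
    exact ⟨∑ j, |C j|, h, hd, fun j z hz => (hC j z hz).trans ((le_abs_self _).trans
      (Finset.single_le_sum (f := fun j => |C j|) (fun _ _ => abs_nonneg _)
        (Finset.mem_univ j))), h2⟩
  · rintro ⟨C, h, h1, h2, h3⟩
    exact ⟨h, fun j => ⟨h1 j, C, h2 j⟩, h3⟩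

/-- Data on `D` are solvable if they are solvable near each boundary point. -/
theorem solve_of_near {N : ℕ} (hn : 2 ≤ n) {D : Set (EuclideanSpace ℂ (Fin n))}
    (hD : IsStrictlyPscDomain D) {f : Fin N → EuclideanSpace ℂ (Fin n) → ℂ} (hf : IsData D f)
    (H : ∀ p ∈ frontier D, ∃ r > 0, Solvable (D ∩ ball p r) f) : Solvable D f := by
  obtain ⟨hf, δ, hδ, hfδ⟩ := hf
  rw [solvable_iff]
  refine Pool.Agent.MPca0fc2.LD5.local_solve hn hD hf hδ hfδ (gen_tame hn hD) fun p hp => ?_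
  obtain ⟨r, hr, h⟩ := H p hp
  obtain ⟨C, hC⟩ := solvable_iff.1 h
  exact ⟨r, hr, 0, fun i => i.elim0, 1, one_pos, fun i => i.elim0, fun c =>
    ⟨C, Pool.Agent.MPca0fc2.CXS.solv_sub hC (fun z hz => hz.1) le_rfl⟩⟩

/-- **Localization over the spectrum**, near one boundary point. -/
theorem spectrum_solve {N : ℕ} (hn : 2 ≤ n) {D : Set (EuclideanSpace ℂ (Fin n))}
    (hD : IsStrictlyPscDomain D) {p : EuclideanSpace ℂ (Fin n)} (hp : p ∈ frontier D) {s : ℝ}
    (hs : 0 < s) {f : Fin N → EuclideanSpace ℂ (Fin n) → ℂ} (hf : IsData (D ∩ ball p s) f)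
    (H : ∀ U : Ultrafilter (EuclideanSpace ℂ (Fin n)),
      (U : Filter _) ≤ 𝓝[D] p → ∃ (m : ℕ) (u : Fin m → EuclideanSpace ℂ (Fin n) → ℂ)
      (c : Fin m → ℂ) (ε : ℝ), 0 < ε ∧ (∀ i, u i ∈ Tame D p) ∧
      (∀ i, Tendsto (u i) U (𝓝 (c i))) ∧ Solvable (Cell (D ∩ ball p ε) u c ε) f) :
    ∃ r > 0, Solvable (D ∩ ball p r) f := by
  obtain ⟨r, hr, h⟩ := Pool.Agent.MPca0fc2.OV.solve_at hn hD hp hs hf.1 (gen_tame hn hD p hp) (by
    obtain ⟨r, hr, m, u, ε, hε, hu, h⟩ := Pool.Agent.MPca0fc2.LS.uniform_cells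
      (Sol := fun C => Solvable C f) (T := Tame D p) (D := D) (p := p) (by
        rintro A B hAB ⟨h, h1, h2⟩
        exact ⟨h, fun j => ⟨(h1 j).1.mono hAB, (h1 j).2.choose,
          fun z hz => (h1 j).2.choose_spec z (hAB hz)⟩, fun z hz => h2 z (hAB hz)⟩)
      ⟨fun _ _ => 0, fun j => ⟨fun z hz => absurd hz (notMem_empty z), 0,
        fun z hz => absurd hz (notMem_empty z)⟩, fun z hz => absurd hz (notMem_empty z)⟩ H
    exact ⟨r, hr, m, u, ε, hε, fun i => (hu i).2, fun c => solvable_iff.1 (h c)⟩)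
  exact ⟨r, hr, solvable_iff.2 h⟩

theorem tame_hinf {D : Set (EuclideanSpace ℂ (Fin n))} {p : EuclideanSpace ℂ (Fin n)} {s : ℝ}
    {u : EuclideanSpace ℂ (Fin n) → ℂ} (hu : u ∈ Tame D p) :
    ∃ r > 0, IsHinf (D ∩ ball p s ∩ ball p r) u := by
  obtain ⟨⟨r, hr, h1, M, h2⟩, -⟩ := hu
  have hsub : D ∩ ball p s ∩ ball p r ⊆ D ∩ ball p r := fun z hz => ⟨hz.1.1, hz.2⟩
  exact ⟨r, hr, h1.mono hsub, M, fun z hz => h2 z (hsub hz)⟩

/-- the function `P (f_1, .., f_N)` -/
noncomputable def poly₀ {n N : ℕ} (f : Fin N → EuclideanSpace ℂ (Fin n) → ℂ)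
    (P : MvPolynomial (Fin N) ℂ) : EuclideanSpace ℂ (Fin n) → ℂ :=
  fun z => MvPolynomial.eval (fun j => f j z) P

/-- if for some polynomials in the data all pairs of functions are good at a point of the spectrum, then
the data have bounded solutions in a neighbourhood of this point -/
theorem good_cell₀ {N : ℕ} {D : Set (EuclideanSpace ℂ (Fin n))}
    (hD : IsStrictlyPscDomain D) {p : EuclideanSpace ℂ (Fin n)} (hp : p ∈ frontier D) {s : ℝ}
    (hs : 0 < s) {f : Fin N → EuclideanSpace ℂ (Fin n) → ℂ} (hf : IsData (D ∩ ball p s) f)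
    {x : Ultrafilter (EuclideanSpace ℂ (Fin n))}
    (hx : (x : Filter _) ≤ 𝓝[D] p) {M : ℕ} {P : Fin M → MvPolynomial (Fin N) ℂ}
    (h0 : ∀ i, MvPolynomial.eval 0 (P i) = 0)
    (hfin : {y : Fin N → ℂ | ∀ i, MvPolynomial.eval y (P i) = 0}.Finite)
    (H : ∀ i k, i ≠ k → poly₀ f (P i) ∉ Tame D p → poly₀ f (P k) ∉ Tame D p →
      (∀ K, PosCapacity K → ∃ a ∈ K, ∀ r > 0, Takes (poly₀ f (P i)) (poly₀ f (P k)) a (D ∩ ball p r)) →
      ∃ S ∈ Nbhds D p x, ∃ K, NonRemovable K ∧ ∀ a ∈ K,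
        ¬ Takes (poly₀ f (P i)) (poly₀ f (P k)) a S) :
    ∃ (m : ℕ) (u : Fin m → EuclideanSpace ℂ (Fin n) → ℂ)
      (c : Fin m → ℂ) (ε : ℝ), 0 < ε ∧ (∀ i, u i ∈ Tame D p) ∧
      (∀ i, Tendsto (u i) x (𝓝 (c i))) ∧ Solvable (Cell (D ∩ ball p ε) u c ε) f := by
  classical
  obtain ⟨hfH, δ, hδ, hfδ⟩ := hf
  have hpd : ∀ i, DifferentiableOn ℂ (poly₀ f (P i)) (D ∩ ball p s) := fun i =>
    (Pool.Agent.MPca0fc2.LP.poly_hinf hfH (P i)).1
  obtain ⟨-, U, ρ, hU, hUc, hρ, hUe, -⟩ := id hD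
  have hDo : IsOpen D := by
    rw [hUe]
    exact (hρ.continuousOn.isOpen_inter_preimage hU isOpen_Iio)
  have hx' : (x : Filter _) ≤ 𝓝[D ∩ ball p s] p := by
    rw [nhdsWithin_inter_of_mem' (mem_nhdsWithin_of_mem_nhds (ball_mem_nhds p hs))]
    exact hx
  obtain ⟨m, u, c, ε, hε, hu, hc, h, h1, h2⟩ := Pool.Agent.MPca0fc2.OV.ov_solve_cut
    (hDo.inter (isOpen_ball (x := p) (ε := s))) (T := Tame D p) (fun u hu => tame_hinf hu)
    hfH hδ hfδ h0 hfin
    (Finset.univ.filter fun i => poly₀ f (P i) ∉ Tame D p) (fun i hi => by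
      by_contra hcon
      exact hi (Finset.mem_filter.2 ⟨Finset.mem_univ _, hcon⟩)) hx'
    (fun i hi k hk hik => by
      have hi' := (Finset.mem_filter.1 hi).2
      have hk' := (Finset.mem_filter.1 hk).2
      by_cases hK : ∀ K, PosCapacity K → ∃ a ∈ K, ∀ r > 0,
          Takes (poly₀ f (P i)) (poly₀ f (P k)) a (D ∩ ball p r)
      · obtain ⟨S, ⟨m, u, c, ε, hε, hu, hc, rfl⟩, K, hKr, h⟩ := H i k hik hi' hk' hK
        obtain ⟨e, he, heε, heo⟩ := Pool.Agent.MPca0fc2.OV.cell_open_same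
          (hDo.inter (isOpen_ball (x := p) (ε := s))) (p := p) c (fun i => tame_hinf (hu i)) hε
        refine ⟨_, Pool.Agent.MPca0fc2.OV.cell_mem_fib he hu hc, ?_⟩
        have hsub : {z | z ∈ D ∩ ball p s ∩ ball p e ∧ ∀ i, ‖u i z - c i‖ < e} ⊆ D ∩ ball p s :=
          fun z hz => hz.1.1
        exact Pool.Agent.MPca0fc2.OV.cut_removable heo ((hpd i).mono hsub) ((hpd k).mono hsub) hKr
          fun a ha z hz hz0 h1 => h a ha ⟨z, ⟨⟨hz.1.1.1, ball_subset_ball heε hz.1.2⟩,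
            fun i => (hz.2 i).trans_le heε⟩, hz0, h1⟩
      · push Not at hK
        obtain ⟨K, hKc, h⟩ := hK
        obtain ⟨K', -, hK', r, hr, h'⟩ := Pool.Agent.MPca0fc2.OV.capPos_near_q
          (hDo.inter isOpen_ball) (hpd i).continuousOn (hpd k).continuousOn p (K := K) hKc
          (fun a ha => by
            obtain ⟨r, hr, h1⟩ := h a ha
            exact ⟨r, hr, fun z hz hz0 h2 => h1 ⟨z, ⟨hz.1.1, hz.2⟩, hz0, h2⟩⟩)
        have hss : D ∩ ball p (min r s) ⊆ D ∩ ball p s := fun z hz =>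
          ⟨hz.1, ball_subset_ball (min_le_right _ _) hz.2⟩
        obtain ⟨r', hr', C, hC⟩ := Pool.Agent.MPca0fc2.OV.cut_local hD hp (lt_min hr hs)
          ((hpd i).mono hss) ((hpd k).mono hss) hK' fun a ha z hz =>
            h' a ha z ⟨hss hz, ball_subset_ball (min_le_left _ _) hz.2⟩
        refine ⟨D ∩ ball p s ∩ ball p r', Pool.Agent.MPca0fc2.OV.fib_le_nhds
          (inter_mem_nhdsWithin _ (ball_mem_nhds p hr')), C, ?_⟩
        obtain ⟨φ, h1, h2⟩ := hC
        exact ⟨φ, h1.mono fun z hz => ⟨hz.1.1, hz.2⟩, fun z hz => h2 z ⟨hz.1.1, hz.2⟩⟩)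
  have hsub : Cell (D ∩ ball p (min ε s)) u c (min ε s) ⊆
      {z | z ∈ D ∩ ball p s ∩ ball p ε ∧ ∀ i, ‖u i z - c i‖ < ε} := fun z hz =>
    ⟨⟨⟨hz.1.1, ball_subset_ball (min_le_right _ _) hz.1.2⟩,
      ball_subset_ball (min_le_left _ _) hz.1.2⟩, fun i => (hz.2 i).trans_le (min_le_left _ _)⟩
  exact ⟨m, u, c, min ε s, lt_min hε hs, hu, hc, h, fun j => ⟨(h1 j).1.mono hsub, (h1 j).2.choose,
    fun z hz => (h1 j).2.choose_spec z (hsub hz)⟩, fun z hz => h2 z (hsub hz)⟩

theorem tame_sub {D : Set (EuclideanSpace ℂ (Fin n))} {p : EuclideanSpace ℂ (Fin n)}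
    {u : EuclideanSpace ℂ (Fin n) → ℂ} (hu : u ∈ Tame D p) (c : ℂ) :
    (fun z => u z - c) ∈ Tame D p := by
  obtain ⟨⟨r, hr, h1, M, h2⟩, h3⟩ := hu
  refine ⟨⟨r, hr, h1.sub_const c, M + ‖c‖, fun z hz => (norm_sub_le _ _).trans
    (add_le_add (h2 z hz) le_rfl)⟩, fun ε hε => ?_⟩
  obtain ⟨r, hr, v, hv, h⟩ := h3 ε hε
  refine ⟨r, hr, v - algebraMap ℂ _ c, Subalgebra.sub_mem _ hv (Subalgebra.algebraMap_mem _ c),
    fun z hz => ?_⟩
  have h4 : u z - c - (v - algebraMap ℂ (EuclideanSpace ℂ (Fin n) → ℂ) c) z = u z - v z := by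
    simp only [Pi.sub_apply, Pi.algebraMap_apply, Algebra.algebraMap_self, RingHom.id_apply]
    ring
  rw [h4]
  exact h z hz

/-- small functions can be removed from the data -/
theorem drop_small {N m : ℕ} {C : Set (EuclideanSpace ℂ (Fin n))}
    {f : Fin N → EuclideanSpace ℂ (Fin n) → ℂ} {g : Fin m → EuclideanSpace ℂ (Fin n) → ℂ}
    (hf : ∀ j, DifferentiableOn ℂ (f j) C) {h : Fin N → EuclideanSpace ℂ (Fin n) → ℂ}
    {k : Fin m → EuclideanSpace ℂ (Fin n) → ℂ} (hh : ∀ j, IsHinf C (h j)) {K η : ℝ}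
    (hη0 : 0 ≤ η) (hk : ∀ l, ∀ z ∈ C, ‖k l z‖ ≤ K) (hg : ∀ l, ∀ z ∈ C, ‖g l z‖ ≤ η)
    (hη : (m : ℝ) * (η * K) ≤ 1 / 2)
    (hs : ∀ z ∈ C, ∑ j, f j z * h j z + ∑ l, g l z * k l z = 1) : Solvable C f := by
  obtain ⟨S, hS⟩ : ∃ S : EuclideanSpace ℂ (Fin n) → ℂ, S = fun z => ∑ j, f j z * h j z := ⟨_, rfl⟩
  have hSlow : ∀ z ∈ C, 1 / 2 ≤ ‖S z‖ := by
    intro z hz
    have h2 : S z = 1 - ∑ l, g l z * k l z := by
      rw [hS]
      linear_combination hs z hz
    have h3 : ‖∑ l, g l z * k l z‖ ≤ (m : ℝ) * (η * K) := by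
      calc ‖∑ l, g l z * k l z‖ ≤ ∑ l, ‖g l z * k l z‖ := norm_sum_le _ _
        _ ≤ ∑ _l : Fin m, η * K := by
            refine Finset.sum_le_sum fun l _ => ?_
            rw [norm_mul]
            exact mul_le_mul (hg l z hz) (hk l z hz) (norm_nonneg _) hη0
        _ = (m : ℝ) * (η * K) := by
            rw [Finset.sum_const, Finset.card_univ, Fintype.card_fin, nsmul_eq_mul]
    have h4 : ‖(1 : ℂ)‖ ≤ ‖S z‖ + ‖∑ l, g l z * k l z‖ := by
      calc ‖(1 : ℂ)‖ = ‖S z + ∑ l, g l z * k l z‖ := by rw [h2]; congr 1; ring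
        _ ≤ _ := norm_add_le _ _
    rw [norm_one] at h4
    linarith
  have hSne : ∀ z ∈ C, S z ≠ 0 := fun z hz =>
    norm_pos_iff.1 ((by norm_num : (0 : ℝ) < 1 / 2).trans_le (hSlow z hz))
  have hSd : DifferentiableOn ℂ S C := by
    rw [hS]
    exact DifferentiableOn.fun_sum fun j _ => (hf j).mul (hh j).1
  refine ⟨fun j z => h j z * (S z)⁻¹, fun j => ?_, fun z hz => ?_⟩
  · obtain ⟨h1, M, hM⟩ := hh j
    refine ⟨h1.mul (hSd.inv hSne), |M| * 2, fun z hz => ?_⟩
    rw [norm_mul, norm_inv]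
    refine mul_le_mul ((hM z hz).trans (le_abs_self M)) ?_ (by positivity) (abs_nonneg M)
    have := inv_anti₀ (by norm_num : (0 : ℝ) < 1 / 2) (hSlow z hz)
    simpa using this
  · have h1 : ∑ j, f j z * (h j z * (S z)⁻¹) = S z * (S z)⁻¹ := by
      rw [hS]
      simp only [← mul_assoc]
      rw [Finset.sum_mul]
    rw [h1]
    exact mul_inv_cancel₀ (hSne z hz)

theorem eval_bind {σ τ : Type*} (g : σ → MvPolynomial τ ℂ) (v : τ → ℂ) (P : MvPolynomial σ ℂ) :
    MvPolynomial.eval v (MvPolynomial.bind₁ g P) =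
      MvPolynomial.eval (fun i => MvPolynomial.eval v (g i)) P := by
  induction P using MvPolynomial.induction_on with
  | C a => simp
  | add p q hp hq => simp [hp, hq]
  | mul_X p i hp => simp [hp]

/-- polynomials with tame coefficients: the functions `t_l - t_l (x)` are added to the data -/
theorem good_cell {N m : ℕ} {D : Set (EuclideanSpace ℂ (Fin n))}
    (hD : IsStrictlyPscDomain D) {p : EuclideanSpace ℂ (Fin n)} (hp : p ∈ frontier D) {s : ℝ}
    (hs : 0 < s) {f : Fin N → EuclideanSpace ℂ (Fin n) → ℂ} (hf : IsData (D ∩ ball p s) f)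
    {x : Ultrafilter (EuclideanSpace ℂ (Fin n))}
    (hx : (x : Filter _) ≤ 𝓝[D] p) {t : Fin m → EuclideanSpace ℂ (Fin n) → ℂ}
    (ht : ∀ l, t l ∈ Tame D p) {b : Fin m → ℂ} (hb : ∀ l, Tendsto (t l) x (𝓝 (b l)))
    {M : ℕ} {P : Fin M → MvPolynomial (Fin N ⊕ Fin m) ℂ}
    (h0 : ∀ i, MvPolynomial.eval (Sum.elim 0 b) (P i) = 0)
    (hfin : {y : Fin N → ℂ | ∀ i, MvPolynomial.eval (Sum.elim y b) (P i) = 0}.Finite)
    (H : ∀ i k, i ≠ k → poly f t (P i) ∉ Tame D p → poly f t (P k) ∉ Tame D p →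
      (∀ K, PosCapacity K → ∃ a ∈ K, ∀ r > 0,
        Takes (poly f t (P i)) (poly f t (P k)) a (D ∩ ball p r)) →
      ∃ S ∈ Nbhds D p x, ∃ K, NonRemovable K ∧ ∀ a ∈ K,
        ¬ Takes (poly f t (P i)) (poly f t (P k)) a S) :
    ∃ (m : ℕ) (u : Fin m → EuclideanSpace ℂ (Fin n) → ℂ)
      (c : Fin m → ℂ) (ε : ℝ), 0 < ε ∧ (∀ i, u i ∈ Tame D p) ∧
      (∀ i, Tendsto (u i) x (𝓝 (c i))) ∧ Solvable (Cell (D ∩ ball p ε) u c ε) f := by
  classical
  -- a ball in which the functions `t` are bounded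
  have h1 : ∀ l, ∃ r > 0, IsHinf (D ∩ ball p r) (t l) := fun l => (ht l).1
  choose r hr hrt using h1
  obtain ⟨s', hs', hs's, hs'r⟩ : ∃ s' > 0, s' ≤ s ∧ ∀ l, s' ≤ r l := by
    rcases isEmpty_or_nonempty (Fin m) with hm | hm
    · exact ⟨s, hs, le_rfl, fun l => (hm.false l).elim⟩
    · exact ⟨min s (Finset.univ.inf' Finset.univ_nonempty r),
        lt_min hs ((Finset.lt_inf'_iff _).2 fun i _ => hr i), min_le_left _ _,
        fun i => (min_le_right _ _).trans (Finset.inf'_le _ (Finset.mem_univ i))⟩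
  have hsub : ∀ {q : ℝ}, s' ≤ q → D ∩ ball p s' ⊆ D ∩ ball p q := fun hq z hz =>
    ⟨hz.1, ball_subset_ball hq hz.2⟩
  -- the extended data
  obtain ⟨F, hF⟩ : ∃ F : Fin (N + m) → EuclideanSpace ℂ (Fin n) → ℂ,
      F = Fin.append f fun l z => t l z - b l := ⟨_, rfl⟩
  have hFl : ∀ j, F (Fin.castAdd m j) = f j := fun j => by rw [hF, Fin.append_left]
  have hFr : ∀ l, F (Fin.natAdd N l) = fun z => t l z - b l := fun l => by
    rw [hF, Fin.append_right]
  have hFdata : IsData (D ∩ ball p s') F := by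
    obtain ⟨hfH, δ, hδ, hfδ⟩ := hf
    refine ⟨fun j => ?_, δ, hδ, fun z hz => ?_⟩
    · refine Fin.addCases (fun i => ?_) (fun l => ?_) j
      · rw [hFl]
        exact ⟨(hfH i).1.mono (hsub hs's), (hfH i).2.choose,
          fun z hz => (hfH i).2.choose_spec z (hsub hs's hz)⟩
      · rw [hFr]
        obtain ⟨h2, B, hB⟩ := hrt l
        exact ⟨(h2.mono (hsub (hs'r l))).sub_const _, B + ‖b l‖, fun z hz =>
          (norm_sub_le _ _).trans (add_le_add (hB z (hsub (hs'r l) hz)) le_rfl)⟩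
    · rw [Fin.sum_univ_add]
      simp only [hFl, hFr]
      exact (hfδ z (hsub hs's hz)).trans
        (le_add_of_nonneg_right (Finset.sum_nonneg fun _ _ => by positivity))
  -- the extended polynomials
  obtain ⟨g, hg⟩ : ∃ g : Fin N ⊕ Fin m → MvPolynomial (Fin (N + m)) ℂ,
      g = Sum.elim (fun j => MvPolynomial.X (Fin.castAdd m j))
        fun l => MvPolynomial.X (Fin.natAdd N l) + MvPolynomial.C (b l) := ⟨_, rfl⟩
  obtain ⟨Q, hQ⟩ : ∃ Q : Fin (M + m) → MvPolynomial (Fin (N + m)) ℂ,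
      Q = Fin.append (fun i => MvPolynomial.bind₁ g (P i)) fun l => MvPolynomial.X (Fin.natAdd N l) :=
    ⟨_, rfl⟩
  have hQl : ∀ i, Q (Fin.castAdd m i) = MvPolynomial.bind₁ g (P i) := fun i => by
    rw [hQ, Fin.append_left]
  have hQr : ∀ l, Q (Fin.natAdd M l) = MvPolynomial.X (Fin.natAdd N l) := fun l => by
    rw [hQ, Fin.append_right]
  have hev : ∀ (y : Fin (N + m) → ℂ) (i : Fin M), MvPolynomial.eval y (Q (Fin.castAdd m i)) =
      MvPolynomial.eval (Sum.elim (fun j => y (Fin.castAdd m j))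
        fun l => y (Fin.natAdd N l) + b l) (P i) := by
    intro y i
    rw [hQl, eval_bind]
    congr 2
    funext j
    rcases j with j | l
    · simp [hg]
    · simp [hg]
  have hpl : ∀ i, poly₀ F (Q (Fin.castAdd m i)) = poly f t (P i) := by
    intro i
    funext z
    show MvPolynomial.eval (fun j => F j z) (Q (Fin.castAdd m i)) = _
    rw [hev]
    simp only [hFl, hFr, sub_add_cancel]
    rfl
  have hpr : ∀ l, poly₀ F (Q (Fin.natAdd M l)) = fun z => t l z - b l := by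
    intro l
    funext z
    show MvPolynomial.eval (fun j => F j z) (Q (Fin.natAdd M l)) = _
    rw [hQr, MvPolynomial.eval_X, hFr]
  have hcell := good_cell₀ hD hp hs' hFdata hx (P := Q) (fun i => by
      refine Fin.addCases (fun i => ?_) (fun l => ?_) i
      · rw [hev]
        simp only [Pi.zero_apply, zero_add]
        exact h0 i
      · rw [hQr, MvPolynomial.eval_X, Pi.zero_apply])
    ((hfin.image fun y => Fin.append y (0 : Fin m → ℂ)).subset fun y hy => by
      have h2 : ∀ l, y (Fin.natAdd N l) = 0 := fun l => by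
        have := hy (Fin.natAdd M l)
        rwa [hQr, MvPolynomial.eval_X] at this
      refine ⟨fun j => y (Fin.castAdd m j), fun i => ?_, ?_⟩
      · have := hy (Fin.castAdd m i)
        rw [hev] at this
        simpa only [h2, zero_add] using this
      · funext j
        refine Fin.addCases (fun i => ?_) (fun l => ?_) j
        · exact Fin.append_left _ _ _
        · show Fin.append _ _ _ = _
          rw [Fin.append_right, h2]
          rfl)
    (fun i k => by
      refine Fin.addCases (fun i => ?_) (fun l => ?_) i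
      · refine Fin.addCases (fun k => ?_) (fun l => ?_) k
        · intro hik
          rw [hpl, hpl]
          exact H i k fun h => hik (by rw [h])
        · intro _ _ h2
          rw [hpr] at h2
          exact absurd (tame_sub (ht l) (b l)) h2
      · intro _ h2
        rw [hpr] at h2
        exact absurd (tame_sub (ht l) (b l)) h2)
  obtain ⟨k, u, c, ε, hε, hu, hc, h, hh, hsol⟩ := hcell
  -- the smaller cell
  choose hd B hB using hh
  obtain ⟨K, hK0, hK⟩ : ∃ K : ℝ, 0 ≤ K ∧ ∀ j, ∀ z ∈ Cell (D ∩ ball p ε) u c ε, ‖h j z‖ ≤ K :=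
    ⟨∑ j, |B j|, Finset.sum_nonneg fun _ _ => abs_nonneg _, fun j z hz => (hB j z hz).trans
      ((le_abs_self _).trans (Finset.single_le_sum (f := fun j => |B j|) (fun _ _ => abs_nonneg _)
        (Finset.mem_univ j)))⟩
  obtain ⟨η, hη, hηK⟩ : ∃ η > 0, (m : ℝ) * (η * K) ≤ 1 / 2 := by
    refine ⟨1 / (2 * ((m : ℝ) * K + 1)), by positivity, ?_⟩
    have h1 : (m : ℝ) * (1 / (2 * ((m : ℝ) * K + 1)) * K) = (m * K) / (2 * ((m : ℝ) * K + 1)) := by
      field_simp
    rw [h1, div_le_div_iff₀ (by positivity) (by norm_num)]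
    nlinarith [mul_nonneg (Nat.cast_nonneg (α := ℝ) m) hK0]
  obtain ⟨e, he, heε, heη, hes⟩ : ∃ e > 0, e ≤ ε ∧ e ≤ η ∧ e ≤ s :=
    ⟨min ε (min η s), lt_min hε (lt_min hη hs), min_le_left _ _,
      (min_le_right _ _).trans (min_le_left _ _), (min_le_right _ _).trans (min_le_right _ _)⟩
  refine ⟨k + m, Fin.append u t, Fin.append c b, e, he, fun i => ?_, fun i => ?_, ?_⟩
  · refine Fin.addCases (fun i => ?_) (fun l => ?_) i
    · rw [Fin.append_left]
      exact hu i
    · rw [Fin.append_right]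
      exact ht l
  · refine Fin.addCases (fun i => ?_) (fun l => ?_) i
    · rw [Fin.append_left, Fin.append_left]
      exact hc i
    · rw [Fin.append_right, Fin.append_right]
      exact hb l
  · have hsub2 : Cell (D ∩ ball p e) (Fin.append u t) (Fin.append c b) e ⊆
        Cell (D ∩ ball p ε) u c ε := fun z hz => ⟨⟨hz.1.1, ball_subset_ball heε hz.1.2⟩,
      fun i => by
        have := hz.2 (Fin.castAdd m i)
        rw [Fin.append_left, Fin.append_left] at this
        exact this.trans_le heε⟩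
    have hsm : ∀ l, ∀ z ∈ Cell (D ∩ ball p e) (Fin.append u t) (Fin.append c b) e,
        ‖t l z - b l‖ ≤ η := fun l z hz => by
      have := hz.2 (Fin.natAdd k l)
      rw [Fin.append_right, Fin.append_right] at this
      exact this.le.trans heη
    refine drop_small (g := fun l z => t l z - b l) (h := fun j => h (Fin.castAdd m j))
      (k := fun l => h (Fin.natAdd N l)) (fun j => (hf.1 j).1.mono fun z hz =>
        ⟨hz.1.1, ball_subset_ball hes hz.1.2⟩) (fun j => ⟨(hd _).mono hsub2, B _,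
        fun z hz => hB _ z (hsub2 hz)⟩) hη.le (fun l z hz => hK _ z (hsub2 hz)) hsm hηK
      fun z hz => ?_
    have := hsol z (hsub2 hz)
    rw [Fin.sum_univ_add] at this
    simpa only [hFl, hFr] using this

/-- Omitted values, (A) and (B). If corona data on a strictly pseudoconvex domain have no bounded solutions, then
there is a boundary point `p` near which they have no bounded solutions. Let `p` be such a point, for data
which are given only near `p`. Then (A) for some `j ≠ k` the quotient `f_j / f_k` takes in every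
neighbourhood of `p` all values outside a set of capacity zero, and almost all linear combinations of the
functions have zeros in every neighbourhood of `p`; (B) for some point `x` over `p` of the spectrum of
`T_p` and any polynomials `P_i` in `f` with coefficients in `T_p` which at `x` have no constant terms and
have finitely many common zeros, the same holds for `P_j (f) / P_k (f)` for some `j ≠ k`, and in each
neighbourhood of `x` this quotient takes all values outside a removable set (which depends on the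
neighbourhood). The two functions are not tame at `p`. -/
theorem local_values {N : ℕ} (hn : 2 ≤ n) {D : Set (EuclideanSpace ℂ (Fin n))}
    (hD : IsStrictlyPscDomain D) (f : Fin N → EuclideanSpace ℂ (Fin n) → ℂ) :
    -- data on `D` without bounded solutions have no bounded solutions near some boundary point
    (IsData D f → ¬ Solvable D f → ∃ p ∈ frontier D, ∀ r > 0, ¬ Solvable (D ∩ ball p r) f) ∧
    -- data near `p` without bounded solutions near `p`
    ∀ p ∈ frontier D, (∃ r > 0, IsData (D ∩ ball p r) f) → (∀ r > 0, ¬ Solvable (D ∩ ball p r) f) →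
      -- (A) the quotient of two of the functions
      (∃ j k, j ≠ k ∧ f j ∉ Tame D p ∧ f k ∉ Tame D p ∧ ∀ K, PosCapacity K →
        ∃ a ∈ K, ∀ r > 0, Takes (f j) (f k) a (D ∩ ball p r)) ∧
      -- almost all linear combinations
      (∀ᵐ a : Fin N → ℂ, ∀ r > 0, ∃ z ∈ D ∩ ball p r, ∑ j, a j * f j z = 0) ∧
      -- (B) polynomials in the functions with coefficients in `T_p`
      ∃ x : Ultrafilter (EuclideanSpace ℂ (Fin n)), (x : Filter _) ≤ 𝓝[D] p ∧
        ∀ (m : ℕ) (t : Fin m → EuclideanSpace ℂ (Fin n) → ℂ) (b : Fin m → ℂ),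
          (∀ l, t l ∈ Tame D p) → (∀ l, Tendsto (t l) x (𝓝 (b l))) →
          ∀ (M : ℕ) (P : Fin M → MvPolynomial (Fin N ⊕ Fin m) ℂ),
            (∀ i, MvPolynomial.eval (Sum.elim 0 b) (P i) = 0) →
            {y : Fin N → ℂ | ∀ i, MvPolynomial.eval (Sum.elim y b) (P i) = 0}.Finite →
            ∃ j k, j ≠ k ∧ poly f t (P j) ∉ Tame D p ∧ poly f t (P k) ∉ Tame D p ∧
              (∀ K, PosCapacity K → ∃ a ∈ K, ∀ r > 0,
                Takes (poly f t (P j)) (poly f t (P k)) a (D ∩ ball p r)) ∧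
              ∀ S ∈ Nbhds D p x, ∀ K, NonRemovable K → ∃ a ∈ K,
                Takes (poly f t (P j)) (poly f t (P k)) a S := by
  refine ⟨fun hf hns => ?_, ?_⟩
  · by_contra hcon
    push Not at hcon
    exact hns (solve_of_near hn hD hf fun p hp => by
      obtain ⟨r, hr, h⟩ := hcon p hp
      exact ⟨r, hr, h⟩)
  rintro p hp ⟨s, hs, hf⟩ hns
  by_contra hcon
  obtain ⟨r₀, hr₀, hsol⟩ : ∃ r > 0, Solvable (D ∩ ball p r) f := by
    refine spectrum_solve hn hD hp hs hf fun x hx => ?_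
    by_contra hbad
    have hII : ∀ (m : ℕ) (t : Fin m → EuclideanSpace ℂ (Fin n) → ℂ) (b : Fin m → ℂ),
        (∀ l, t l ∈ Tame D p) → (∀ l, Tendsto (t l) x (𝓝 (b l))) →
        ∀ (M : ℕ) (P : Fin M → MvPolynomial (Fin N ⊕ Fin m) ℂ),
          (∀ i, MvPolynomial.eval (Sum.elim 0 b) (P i) = 0) →
          {y : Fin N → ℂ | ∀ i, MvPolynomial.eval (Sum.elim y b) (P i) = 0}.Finite →
          ∃ j k, j ≠ k ∧ poly f t (P j) ∉ Tame D p ∧ poly f t (P k) ∉ Tame D p ∧
            (∀ K, PosCapacity K → ∃ a ∈ K, ∀ r > 0,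
              Takes (poly f t (P j)) (poly f t (P k)) a (D ∩ ball p r)) ∧
            ∀ S ∈ Nbhds D p x, ∀ K, NonRemovable K → ∃ a ∈ K,
              Takes (poly f t (P j)) (poly f t (P k)) a S := by
      intro m t b ht hb M P h0 hfin
      by_contra hno
      refine hbad (good_cell hD hp hs hf hx ht hb h0 hfin fun i k hik hi hk h1 => ?_)
      by_contra hS
      refine hno ⟨i, k, hik, hi, hk, h1, fun S hS' K hK => ?_⟩
      by_contra ha
      push Not at ha
      exact hS ⟨S, hS', K, hK, ha⟩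
    refine hcon ⟨?_, ?_, x, hx, hII⟩
    · obtain ⟨j, k, hjk, hj, hk, h1, -⟩ := hII 0 (fun l => l.elim0) (fun l => l.elim0)
        (fun l => l.elim0) (fun l => l.elim0) N (fun i => MvPolynomial.X (Sum.inl i))
        (fun i => by simp) ((finite_singleton (0 : Fin N → ℂ)).subset fun y hy => by
          refine mem_singleton_iff.2 (funext fun i => ?_)
          simpa using hy i)
      have hX : ∀ i, poly f (fun l : Fin 0 => l.elim0) (MvPolynomial.X (Sum.inl i)) = f i :=
        fun i => by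
          funext z
          simp [poly]
      simp only [hX] at hj hk h1
      exact ⟨j, k, hjk, hj, hk, h1⟩
    · obtain ⟨-, U, ρ, hU, hUc, hρ, hUe, -⟩ := id hD
      have hDo : IsOpen D := by
        rw [hUe]
        exact (hρ.continuousOn.isOpen_inter_preimage hU isOpen_Iio)
      have h := Pool.Agent.MPca0fc2.OV.ae_near (hDo.inter (isOpen_ball (x := p) (ε := s))) p
        (fun j => (hf.1 j).1.continuousOn) fun b hb => by
        have hP : ∀ i, poly f (fun l : Fin 0 => l.elim0)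
            (∑ l, MvPolynomial.C (b i l) * MvPolynomial.X (Sum.inl l)) =
            fun z => ∑ l, b i l * f l z := fun i => by
          funext z
          simp [poly]
        obtain ⟨j, k, hjk, -, -, h1, -⟩ := hII 0 (fun l => l.elim0) (fun l => l.elim0)
          (fun l => l.elim0) (fun l => l.elim0) N
          (fun i => ∑ l, MvPolynomial.C (b i l) * MvPolynomial.X (Sum.inl l)) (fun i => by simp)
          ((finite_singleton (0 : Fin N → ℂ)).subset fun y hy => by
            refine mem_singleton_iff.2 (Pool.Agent.MPca0fc2.OV.forms_zero hb fun i => ?_)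
            simpa using hy i)
        simp only [hP] at h1
        refine ⟨j, k, hjk, fun K hK hK0 r hr => ?_⟩
        obtain ⟨t, ht, h2⟩ := h1 K (Pool.Agent.MPca0fc2.OV.capPos_of_volume hK hK0)
        obtain ⟨z, hz, -, h3⟩ := h2 (min r s) (lt_min hr hs)
        exact ⟨t, ht, z, ⟨⟨hz.1, ball_subset_ball (min_le_right _ _) hz.2⟩,
          ball_subset_ball (min_le_left _ _) hz.2⟩, sub_eq_zero.2 h3⟩
      exact h.mono fun a ha r hr => by
        obtain ⟨z, hz, h1⟩ := ha r hr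
        exact ⟨z, ⟨hz.1.1, hz.2⟩, h1⟩
  exact hns r₀ hr₀ hsol

/-- **Omitted values.** If corona data on a strictly pseudoconvex domain have no bounded solutions, then
there is a boundary point `p` near which they have no bounded solutions. Let `p` be such a point, for data
which are given only near `p`. Then (A) for some `j ≠ k` the quotient `f_j / f_k` takes in every
neighbourhood of `p` all values outside a set of capacity zero, and almost all linear combinations of the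
functions have zeros in every neighbourhood of `p`; (B) for some point `x` over `p` of the spectrum of
`T_p` and any polynomials `P_i` in `f` with coefficients in `T_p` which at `x` have no constant terms and
have finitely many common zeros, the same holds for `P_j (f) / P_k (f)` for some `j ≠ k`, and in each
neighbourhood of `x` this quotient takes all values outside a removable set (which depends on the
neighbourhood). The two functions are not tame at `p`. (C) On convex domains (on all open sets) data such that the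
quotients `f_j / f_k`, `j < k`, omit given sets of positive capacity (which are not removable) have solutions
with `|h_j| ≤ C / |f|`, `C` a constant which depends only on these sets; for `N = 2` this fails for all compact
sets of capacity zero (which are removable). -/
theorem result :
    -- `D` any strictly pseudoconvex domain
    (∀ (n N : ℕ) (D : Set (EuclideanSpace ℂ (Fin n))) (f : Fin N → EuclideanSpace ℂ (Fin n) → ℂ),
      2 ≤ n → IsStrictlyPscDomain D →
      -- data on `D` without bounded solutions have no bounded solutions near some boundary point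
      (IsData D f → ¬ Solvable D f → ∃ p ∈ frontier D, ∀ r > 0, ¬ Solvable (D ∩ ball p r) f) ∧
      -- data near `p` without bounded solutions near `p`
      ∀ p ∈ frontier D, (∃ r > 0, IsData (D ∩ ball p r) f) → (∀ r > 0, ¬ Solvable (D ∩ ball p r) f) →
        -- (A) the quotient of two of the functions
        (∃ j k, j ≠ k ∧ f j ∉ Tame D p ∧ f k ∉ Tame D p ∧ ∀ K, PosCapacity K →
          ∃ a ∈ K, ∀ r > 0, Takes (f j) (f k) a (D ∩ ball p r)) ∧
        -- almost all linear combinations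
        (∀ᵐ a : Fin N → ℂ, ∀ r > 0, ∃ z ∈ D ∩ ball p r, ∑ j, a j * f j z = 0) ∧
        -- (B) polynomials in the functions with coefficients in `T_p`
        ∃ x : Ultrafilter (EuclideanSpace ℂ (Fin n)), (x : Filter _) ≤ 𝓝[D] p ∧
          ∀ (m : ℕ) (t : Fin m → EuclideanSpace ℂ (Fin n) → ℂ) (b : Fin m → ℂ),
            (∀ l, t l ∈ Tame D p) → (∀ l, Tendsto (t l) x (𝓝 (b l))) →
            ∀ (M : ℕ) (P : Fin M → MvPolynomial (Fin N ⊕ Fin m) ℂ),
              (∀ i, MvPolynomial.eval (Sum.elim 0 b) (P i) = 0) →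
              {y : Fin N → ℂ | ∀ i, MvPolynomial.eval (Sum.elim y b) (P i) = 0}.Finite →
              ∃ j k, j ≠ k ∧ poly f t (P j) ∉ Tame D p ∧ poly f t (P k) ∉ Tame D p ∧
                (∀ K, PosCapacity K → ∃ a ∈ K, ∀ r > 0,
                  Takes (poly f t (P j)) (poly f t (P k)) a (D ∩ ball p r)) ∧
                ∀ S ∈ Nbhds D p x, ∀ K, NonRemovable K → ∃ a ∈ K,
                  Takes (poly f t (P j)) (poly f t (P k)) a S) ∧
    -- (C) `D` convex and sets of positive capacity, or `D` open and sets which are not removable; the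
    -- constant depends only on the omitted sets
    (∀ (N : ℕ) (K : Fin N → Fin N → Set ℂ), ∃ C : ℝ, ∀ (n : ℕ) (D : Set (EuclideanSpace ℂ (Fin n)))
      (f : Fin N → EuclideanSpace ℂ (Fin n) → ℂ), IsOpen D →
      ((Convex ℝ D ∧ ∀ j k, j < k → PosCapacity (K j k)) ∨ ∀ j k, j < k → NonRemovable (K j k)) →
      (∀ j, DifferentiableOn ℂ (f j) D) → (∀ z ∈ D, ∃ k, f k z ≠ 0) →
      (∀ j k, j < k → ∀ a ∈ K j k, ¬ Takes (f j) (f k) a D) →
      ∃ h : Fin N → EuclideanSpace ℂ (Fin n) → ℂ, (∀ j, DifferentiableOn ℂ (h j) D) ∧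
        (∀ j, ∀ z ∈ D, ‖h j z‖ ≤ C / √(∑ k, ‖f k z‖ ^ 2)) ∧ ∀ z ∈ D, ∑ j, f j z * h j z = 1) ∧
    -- `N = 2`: for the unit ball and bounded data such a constant exists only for sets of positive capacity
    (∀ (n : ℕ) (K : Set ℂ), 1 ≤ n → IsCompact K →
      (∃ C : ℝ, ∀ f : Fin 2 → EuclideanSpace ℂ (Fin n) → ℂ, IsData (ball 0 1) f →
        (∀ a ∈ K, ¬ Takes (f 0) (f 1) a (ball 0 1)) →
        ∃ h : Fin 2 → EuclideanSpace ℂ (Fin n) → ℂ, (∀ j, DifferentiableOn ℂ (h j) (ball 0 1)) ∧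
          (∀ j, ∀ z ∈ ball 0 1, ‖h j z‖ ≤ C / √(∑ k, ‖f k z‖ ^ 2)) ∧
          ∀ z ∈ ball 0 1, ∑ j, f j z * h j z = 1) → PosCapacity K) ∧
    -- `N = 2`: for all open sets and bounded data it exists only for sets which are not removable
    ∀ (n : ℕ) (K : Set ℂ), 1 ≤ n → IsCompact K →
      (∃ C : ℝ, ∀ (D : Set (EuclideanSpace ℂ (Fin n))) (f : Fin 2 → EuclideanSpace ℂ (Fin n) → ℂ),
        IsOpen D → IsData D f → (∀ a ∈ K, ¬ Takes (f 0) (f 1) a D) →
        ∃ h : Fin 2 → EuclideanSpace ℂ (Fin n) → ℂ, (∀ j, DifferentiableOn ℂ (h j) D) ∧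
          (∀ j, ∀ z ∈ D, ‖h j z‖ ≤ C / √(∑ k, ‖f k z‖ ^ 2)) ∧
          ∀ z ∈ D, ∑ j, f j z * h j z = 1) → NonRemovable K := by
  classical
  refine ⟨fun n N D f hn hD => local_values hn hD f, fun N K => ?_,
    fun n K hn hK ⟨C, hC⟩ => Pool.Agent.MPca0fc2.OVN.capPos_of_ball hK hn (C := C) fun f h1 h2 h3 h4 =>
      hC f ⟨fun j => ⟨h1 j, h2 j⟩, 1, one_pos, h3⟩ fun a ha ⟨z, hz, hne, heq⟩ =>
        h4 a ha z hz hne heq,
    fun n K hn hK ⟨C, hC⟩ => Pool.Agent.MPca0fc2.OVN.nonRem_of_open hK hn (C := C)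
      fun D f hD _ h1 h2 h3 h4 => hC D f hD ⟨fun j => ⟨h1 j, h2 j⟩, 1, one_pos, h3⟩
        fun a ha ⟨z, hz, hne, heq⟩ => h4 a ha z hz hne heq⟩
  -- the two constants
  obtain ⟨C₁, hC₁⟩ : ∃ C : ℝ, (∀ j k, j < k → PosCapacity (K j k)) →
      ∀ (n : ℕ) (D : Set (EuclideanSpace ℂ (Fin n))) (f : Fin N → EuclideanSpace ℂ (Fin n) → ℂ),
      IsOpen D → Convex ℝ D → (∀ j, DifferentiableOn ℂ (f j) D) → (∀ z ∈ D, ∃ k, f k z ≠ 0) →
      (∀ j k, j < k → ∀ a ∈ K j k, ∀ z ∈ D, f k z ≠ 0 → f j z ≠ a * f k z) →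
      ∃ h : Fin N → EuclideanSpace ℂ (Fin n) → ℂ, (∀ j, DifferentiableOn ℂ (h j) D) ∧
        (∀ j, ∀ z ∈ D, ∀ k, ‖h j z‖ * ‖f k z‖ ≤ C) ∧ ∀ z ∈ D, ∑ j, f j z * h j z = 1 := by
    by_cases hK : ∀ j k, j < k → PosCapacity (K j k)
    · obtain ⟨C, hC⟩ := Pool.Agent.MPca0fc2.OV.convex_hom K hK
      exact ⟨C, fun _ => hC⟩
    · exact ⟨0, fun h => absurd h hK⟩
  obtain ⟨C₂, hC₂⟩ : ∃ C : ℝ, (∀ j k, j < k → NonRemovable (K j k)) →
      ∀ (n : ℕ) (D : Set (EuclideanSpace ℂ (Fin n))) (f : Fin N → EuclideanSpace ℂ (Fin n) → ℂ),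
      IsOpen D → (∀ j, DifferentiableOn ℂ (f j) D) → (∀ z ∈ D, ∃ k, f k z ≠ 0) →
      (∀ j k, j < k → ∀ a ∈ K j k, ∀ z ∈ D, f k z ≠ 0 → f j z ≠ a * f k z) →
      ∃ h : Fin N → EuclideanSpace ℂ (Fin n) → ℂ, (∀ j, DifferentiableOn ℂ (h j) D) ∧
        (∀ j, ∀ z ∈ D, ∀ k, ‖h j z‖ * ‖f k z‖ ≤ C) ∧ ∀ z ∈ D, ∑ j, f j z * h j z = 1 := by
    by_cases hK : ∀ j k, j < k → NonRemovable (K j k)
    · obtain ⟨C, hC⟩ := Pool.Agent.MPca0fc2.OVN.open_hom K hK
      exact ⟨C, fun _ => hC⟩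
    · exact ⟨0, fun h => absurd h hK⟩
  obtain ⟨C, hC, hC1, hC2⟩ : ∃ C : ℝ, 0 ≤ C ∧ C₁ ≤ C ∧ C₂ ≤ C :=
    ⟨max 0 (max C₁ C₂), le_max_left _ _, (le_max_left _ _).trans (le_max_right _ _),
      (le_max_right _ _).trans (le_max_right _ _)⟩
  refine ⟨N * C, fun n D f hD hcase hf h0 hom => ?_⟩
  have hom' : ∀ j k, j < k → ∀ a ∈ K j k, ∀ z ∈ D, f k z ≠ 0 → f j z ≠ a * f k z :=
    fun j k hjk a ha z hz hne heq => hom j k hjk a ha ⟨z, hz, hne, heq⟩
  obtain ⟨h, h1, h2, h3⟩ : ∃ h : Fin N → EuclideanSpace ℂ (Fin n) → ℂ,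
      (∀ j, DifferentiableOn ℂ (h j) D) ∧ (∀ j, ∀ z ∈ D, ∀ k, ‖h j z‖ * ‖f k z‖ ≤ C) ∧
      ∀ z ∈ D, ∑ j, f j z * h j z = 1 := by
    rcases hcase with ⟨hc, hK⟩ | hK
    · obtain ⟨h, h1, h2, h3⟩ := hC₁ hK n D f hD hc hf h0 hom'
      exact ⟨h, h1, fun j z hz k => (h2 j z hz k).trans hC1, h3⟩
    · obtain ⟨h, h1, h2, h3⟩ := hC₂ hK n D f hD hf h0 hom'
      exact ⟨h, h1, fun j z hz k => (h2 j z hz k).trans hC2, h3⟩
  refine ⟨h, h1, fun j z hz => ?_, h3⟩
  have h4 : 0 < √(∑ k, ‖f k z‖ ^ 2) := by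
    obtain ⟨k, hk⟩ := h0 z hz
    refine Real.sqrt_pos.2 (lt_of_lt_of_le (pow_pos (norm_pos_iff.2 hk) 2)
      (Finset.single_le_sum (f := fun k => ‖f k z‖ ^ 2) (fun _ _ => by positivity)
        (Finset.mem_univ k)))
  have h5 : √(∑ k, ‖f k z‖ ^ 2) ≤ ∑ k, ‖f k z‖ := by
    refine Real.sqrt_le_iff.2 ⟨Finset.sum_nonneg fun _ _ => norm_nonneg _, ?_⟩
    exact Finset.sum_sq_le_sq_sum_of_nonneg fun _ _ => norm_nonneg _
  rw [le_div_iff₀ h4]
  calc ‖h j z‖ * √(∑ k, ‖f k z‖ ^ 2) ≤ ‖h j z‖ * ∑ k, ‖f k z‖ :=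
        mul_le_mul_of_nonneg_left h5 (norm_nonneg _)
    _ = ∑ k, ‖h j z‖ * ‖f k z‖ := by rw [Finset.mul_sum]
    _ ≤ ∑ _k : Fin N, C := Finset.sum_le_sum fun k _ => h2 j z hz k
    _ = N * C := by simp

end Pool.Agent.Results.MP_ca0fc2_an.OmittedValues
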