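import Pool.Agent.Lib.MP_ca0fc2_an.LD.A4
import Pool.Agent.Lib.MP_ca0fc2_an.LD.A5
import Pool.Agent.Lib.MP_ca0fc2_an.LD.P2
import Pool.Agent.Lib.MP_ca0fc2_an.BE.M3
import Pool.Agent.Lib.MP_ca0fc2_an.TH.M
import Pool.Agent.Lib.MP_ca0fc2_an.LS.C
import Pool.Agent.Lib.MP_ca0fc2_an.LS.F
import Pool.Agent.Lib.MP_ca0fc2_an.DADefs

/-!
# The corona problem on a strictly pseudoconvex domain is local over algebras of tame functions

`D` is any strictly pseudoconvex domain. Near a boundary point `p` the tame functions are the uniform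
limits of polynomials in the compositions `g ∘ Q`, where `Q` is a holomorphic map near `p` with
`|Q| < 1` on `D`, and `g` is a multiplier of the Drury-Arveson space of the unit ball (in dimension one
any bounded holomorphic function), in the bounded functions in Besov spaces, in the functions which are
Hölder continuous off the zero set of a holomorphic function with positive real part on `D`, and in the
slowly oscillating functions. The condition on the third class is sharp at each boundary point of each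
domain. Arbitrary data are solvable if the components of their limit sets over the points of the spectrum
of the tame functions lie in strictly pseudoconvex domains whose closure omits the origin, or in curves.
-/

set_option autoImplicit false

open Metric Set Filter Topology MeasureTheory
open Pool.Agent.Lib.MP_ca0fc2_an

namespace Pool.Agent.Results.MP_ca0fc2_an.TameGerms

/-- the data have bounded holomorphic solutions on `D` -/
def Solvable {n N : ℕ} (D : Set (EuclideanSpace ℂ (Fin n)))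
    (f : Fin N → EuclideanSpace ℂ (Fin n) → ℂ) : Prop :=
  ∃ h : Fin N → EuclideanSpace ℂ (Fin n) → ℂ, (∀ j, IsHinf D (h j)) ∧
    ∀ z ∈ D, ∑ j, f j z * h j z = 1

/-- corona data on `D` -/
def IsData {n N : ℕ} (D : Set (EuclideanSpace ℂ (Fin n)))
    (f : Fin N → EuclideanSpace ℂ (Fin n) → ℂ) : Prop :=
  (∀ j, IsHinf D (f j)) ∧ ∃ δ > 0, ∀ z ∈ D, δ ≤ ∑ j, ‖f j z‖ ^ 2

/-- the cell of the functions `u i` with centre `c` -/
def Cell {n m : ℕ} (D : Set (EuclideanSpace ℂ (Fin n)))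
    (u : Fin m → EuclideanSpace ℂ (Fin n) → ℂ) (c : Fin m → ℂ) (ε : ℝ) :
    Set (EuclideanSpace ℂ (Fin n)) :=
  {z | z ∈ D ∧ ∀ i, ‖u i z - c i‖ < ε}

/-- the functions `g ∘ Q`, `Q` a holomorphic map of `ball p r` into `ℂᵏ` with `|Q| < 1` on `D`, `g` a
multiplier of the Drury-Arveson space of the unit ball of `ℂᵏ` -/
def MultComp {n : ℕ} (D : Set (EuclideanSpace ℂ (Fin n))) (p : EuclideanSpace ℂ (Fin n)) (r : ℝ) :
    Set (EuclideanSpace ℂ (Fin n) → ℂ) :=
  {u | ∃ (k : ℕ) (Q : EuclideanSpace ℂ (Fin n) → EuclideanSpace ℂ (Fin k))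
    (g : EuclideanSpace ℂ (Fin k) → ℂ) (M : ℝ), DifferentiableOn ℂ Q (ball p r) ∧
    (∀ z ∈ D ∩ ball p r, ‖Q z‖ < 1) ∧ DAMultiplier M g ∧ ∀ z ∈ D ∩ ball p r, u z = g (Q z)}

/-- the functions `g ∘ q`, `q` a holomorphic function on `ball p r` with `|q| < 1` on `D`, `g` in `H^∞`
of the unit disc -/
def DiscComp {n : ℕ} (D : Set (EuclideanSpace ℂ (Fin n))) (p : EuclideanSpace ℂ (Fin n)) (r : ℝ) :
    Set (EuclideanSpace ℂ (Fin n) → ℂ) :=
  {u | ∃ (q : EuclideanSpace ℂ (Fin n) → ℂ) (g : ℂ → ℂ) (M : ℝ), DifferentiableOn ℂ q (ball p r) ∧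
    (∀ z ∈ D ∩ ball p r, ‖q z‖ < 1) ∧ DifferentiableOn ℂ g (ball 0 1) ∧
    (∀ x ∈ ball (0 : ℂ) 1, ‖g x‖ ≤ M) ∧ ∀ z ∈ D ∩ ball p r, u z = g (q z)}

/-- the functions `v` in `H^∞ (D ∩ ball p r)` with `d |∇v| ≤ ω (d)`, where `d` is the distance to the
complement of `D`, `ω (t) / t` is decreasing and `∫₀¹ exp (- c / ω (t)) dt / t` is finite for all
`c > 0` -/
def Slow {n : ℕ} (D : Set (EuclideanSpace ℂ (Fin n))) (p : EuclideanSpace ℂ (Fin n)) (r : ℝ) :
    Set (EuclideanSpace ℂ (Fin n) → ℂ) :=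
  {u | IsHinf (D ∩ ball p r) u ∧ ∃ ω : ℝ → ℝ, (∀ t ∈ Ioo (0 : ℝ) 1, 0 < ω t) ∧
    (∀ c : ℝ, 0 < c → IntegrableOn (fun t => Real.exp (-(c / ω t)) / t) (Ioo 0 1)) ∧
    AntitoneOn (fun t => ω t / t) (Ioo 0 1) ∧
    ∀ z ∈ D ∩ ball p r, infDist z Dᶜ < 1 → infDist z Dᶜ * ‖fderiv ℂ u z‖ ≤ ω (infDist z Dᶜ)}

/-- the functions `v` in `H^∞ (D ∩ ball p r)` with `∫ |Dv|^q d^(-n-1)` finite for some `q > 0` (in the
form that `|Dv|^q ≤ G` for some `G` with `∫ G d^(-n-1)` finite); here `d` is the distance to the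
complement of `D` and `|Dv|` at `z` is the supremum of `|(v ∘ φ)'(0)|` over the holomorphic maps `φ` of the
unit disc into `D ∩ ball p r` with `φ 0 = z` -/
def Besov {n : ℕ} (D : Set (EuclideanSpace ℂ (Fin n))) (p : EuclideanSpace ℂ (Fin n)) (r : ℝ) :
    Set (EuclideanSpace ℂ (Fin n) → ℂ) :=
  {v | IsHinf (D ∩ ball p r) v ∧ ∃ (q : ℝ) (G : EuclideanSpace ℂ (Fin n) → ℝ), 0 < q ∧
    IntegrableOn (fun z => G z / infDist z Dᶜ ^ (n + 1)) (D ∩ ball p r) ∧
    ∀ φ : ℂ → EuclideanSpace ℂ (Fin n), DifferentiableOn ℂ φ (ball 0 1) →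
      (∀ x ∈ ball (0 : ℂ) 1, φ x ∈ D ∩ ball p r) →
      ‖deriv (fun x => v (φ x)) 0‖ ^ q ≤ G (φ 0)}

/-- the functions `v` in `H^∞ (D ∩ ball p r)` with `|Dv|^q ≤ L (d / |F|)^s`, for some `q, s > 0` and some
holomorphic `F` on `ball p r` with positive real part on `D`; `d` and `|Dv|` as in `Besov` -/
def HolderOff {n : ℕ} (D : Set (EuclideanSpace ℂ (Fin n))) (p : EuclideanSpace ℂ (Fin n)) (r : ℝ) :
    Set (EuclideanSpace ℂ (Fin n) → ℂ) :=
  {v | IsHinf (D ∩ ball p r) v ∧ ∃ (F : EuclideanSpace ℂ (Fin n) → ℂ) (q s L : ℝ), 0 < q ∧ 0 < s ∧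
    DifferentiableOn ℂ F (ball p r) ∧ (∀ z ∈ D ∩ ball p r, 0 < (F z).re) ∧
    ∀ φ : ℂ → EuclideanSpace ℂ (Fin n), DifferentiableOn ℂ φ (ball 0 1) →
      (∀ x ∈ ball (0 : ℂ) 1, φ x ∈ D ∩ ball p r) →
      ‖deriv (fun x => v (φ x)) 0‖ ^ q ≤ L * (infDist (φ 0) Dᶜ / ‖F (φ 0)‖) ^ s}

/-- the generators -/
def Gen {n : ℕ} (D : Set (EuclideanSpace ℂ (Fin n))) (p : EuclideanSpace ℂ (Fin n)) (r : ℝ) :
    Set (EuclideanSpace ℂ (Fin n) → ℂ) :=
  MultComp D p r ∪ DiscComp D p r ∪ Besov D p r ∪ HolderOff D p r ∪ Slow D p r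

/-- the bounded holomorphic functions near `p` which are near `p` uniform limits of polynomials in
functions in `𝓖 r`: for each `ε` the distance to some polynomial is at most `ε` on `D ∩ ball p r` for
some `r` -/
def Germs {n : ℕ} (D : Set (EuclideanSpace ℂ (Fin n))) (p : EuclideanSpace ℂ (Fin n))
    (𝓖 : ℝ → Set (EuclideanSpace ℂ (Fin n) → ℂ)) : Set (EuclideanSpace ℂ (Fin n) → ℂ) :=
  {u | (∃ r > 0, IsHinf (D ∩ ball p r) u) ∧
    ∀ ε > 0, ∃ r > 0, ∃ v ∈ Algebra.adjoin ℂ (𝓖 r), ∀ z ∈ D ∩ ball p r, ‖u z - v z‖ ≤ ε}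

/-- the closed algebra `T_p` of the tame functions near `p` -/
def Tame {n : ℕ} (D : Set (EuclideanSpace ℂ (Fin n))) (p : EuclideanSpace ℂ (Fin n)) :
    Set (EuclideanSpace ℂ (Fin n) → ℂ) :=
  Germs D p (Gen D p)

/-- the limits in `ℂᴺ` of the functions `f j` over the point of the spectrum of `T_p` given by the
ultrafilter `U` in `D` with limit `p`: the limits along all ultrafilters `V` in `D` with limit `p` such
that all functions in `T_p` have the same limits along `V` as along `U` -/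
def Limits {n N : ℕ} (D : Set (EuclideanSpace ℂ (Fin n))) (p : EuclideanSpace ℂ (Fin n))
    (U : Ultrafilter (EuclideanSpace ℂ (Fin n))) (f : Fin N → EuclideanSpace ℂ (Fin n) → ℂ) :
    Set (EuclideanSpace ℂ (Fin N)) :=
  {y | ∃ V : Ultrafilter (EuclideanSpace ℂ (Fin n)), ((V : Filter _) ≤ 𝓝[D] p ∧
    ∀ u ∈ Tame D p, ∀ c : ℂ, Tendsto u U (𝓝 c) → Tendsto u V (𝓝 c)) ∧
    ∀ j, Tendsto (f j) V (𝓝 (y j))}

/-- `K` lies in a strictly pseudoconvex domain whose closure omits the origin -/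
def InDomain {N : ℕ} (K : Set (EuclideanSpace ℂ (Fin N))) : Prop :=
  ∃ W, IsStrictlyPscDomain W ∧ (0 : EuclideanSpace ℂ (Fin N)) ∉ closure W ∧ K ⊆ W

/-- `K` lies in an algebraic curve: in the set of the common zeros of some polynomials `P i`, where some
polynomial which vanishes at the origin has finitely many zeros in this set -/
def InCurve {N : ℕ} (K : Set (EuclideanSpace ℂ (Fin N))) : Prop :=
  ∃ (m : ℕ) (P : Fin m → MvPolynomial (Fin N) ℂ) (P₀ : MvPolynomial (Fin N) ℂ),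
    (∀ y ∈ K, ∀ i, MvPolynomial.eval y (P i) = 0) ∧ MvPolynomial.eval 0 P₀ = 0 ∧
    {x : Fin N → ℂ | (∀ i, MvPolynomial.eval x (P i) = 0) ∧ MvPolynomial.eval x P₀ = 0}.Finite

/-- `v` is continuous on the closure of `D` except at `p`, and `|Dv|² ≤ lam (|F|) d / |F|` on `D` near
`p`, i.e. `|(v ∘ φ)'(0)|² ≤ lam (|F|) d / |F|` at `φ 0` for all holomorphic maps `φ` of the unit disc
into `D ∩ ball p r` -/
def Singular {n : ℕ} (D : Set (EuclideanSpace ℂ (Fin n))) (p : EuclideanSpace ℂ (Fin n))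
    (F : EuclideanSpace ℂ (Fin n) → ℂ) (lam : ℝ → ℝ) : Set (EuclideanSpace ℂ (Fin n) → ℂ) :=
  {v | ContinuousOn v (closure D \ {p}) ∧ ∃ r > 0, ∀ φ : ℂ → EuclideanSpace ℂ (Fin n),
    DifferentiableOn ℂ φ (ball 0 1) → (∀ x ∈ ball (0 : ℂ) 1, φ x ∈ D ∩ ball p r) →
    ‖deriv (fun x => v (φ x)) 0‖ ^ 2 ≤ lam ‖F (φ 0)‖ * (infDist (φ 0) Dᶜ / ‖F (φ 0)‖)}

/-- Q1 for `N` functions on all strictly pseudoconvex domains in `ℂᵐ`, `2 ≤ m ≤ n` -/
def Q1Upto (N n : ℕ) : Prop :=
  ∀ m, 2 ≤ m → m ≤ n → ∀ D : Set (EuclideanSpace ℂ (Fin m)), IsStrictlyPscDomain D →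
    ∀ f : Fin N → EuclideanSpace ℂ (Fin m) → ℂ, IsData D f → Solvable D f

variable {n : ℕ}

theorem gen_tame (hn : 2 ≤ n) {D : Set (EuclideanSpace ℂ (Fin n))} (hD : IsStrictlyPscDomain D)
    (p : EuclideanSpace ℂ (Fin n)) (hp : p ∈ frontier D) :
    ∃ R > 0, ∀ r r' : ℝ, r' < r → r' ≤ R → Gen D p r ⊆ TameOn D (ball p r') := by
  obtain ⟨U, ρ, h, c, hs, -⟩ := Pool.Agent.MPca0fc2.LV.support_of_domain hD
  obtain ⟨R, hR, hB⟩ := Pool.Agent.MPca0fc2.BE.besov_carl (by omega) hs hp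
  refine ⟨R, hR, fun r r' hr hr' => ?_⟩
  rintro u ((((hu | hu) | hu) | hu) | hu)
  · obtain ⟨k, Q, g, M, h1, h2, h3, h4⟩ := hu
    exact Or.inl (Pool.Agent.MPca0fc2.GW.comp_carl (by omega) hs hr
      ⟨k, Q, g, M, 1, le_rfl, h1, h2, Or.inl h3, h4⟩)
  · exact Or.inl (Pool.Agent.MPca0fc2.GW.comp_carl (by omega) hs hr
      (Pool.Agent.MPca0fc2.GW.disc_comp D (ball p r) hu))
  · obtain ⟨h1, q, G, hq, hG, h2⟩ := hu
    exact Or.inl (hB r r' hr hr' u h1 q G hq hG h2)
  · obtain ⟨h1, F, q, s, L, hq, hs1, hF, hF1, h2⟩ := hu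
    exact Or.inl (Pool.Agent.MPca0fc2.LD.holder_carl (by omega) hs hr hF hF1 h1 hq hs1 h2)
  · obtain ⟨⟨h1, M, h2⟩, ω, h3, h4, h5, h6⟩ := hu
    have hsub : D ∩ ball p r' ⊆ D ∩ ball p r := fun z hz => ⟨hz.1, ball_subset_ball hr.le hz.2⟩
    exact Or.inr ⟨⟨h1.mono hsub, M, fun z hz => h2 z (hsub hz)⟩, ω, ⟨h3, h4⟩, h5,
      fun z hz => h6 z (hsub hz)⟩

theorem solvable_iff {N : ℕ} {D : Set (EuclideanSpace ℂ (Fin n))}
    {f : Fin N → EuclideanSpace ℂ (Fin n) → ℂ} : Solvable D f ↔ ∃ C, SolvableOn f D C := by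
  constructor
  · rintro ⟨h, h1, h2⟩
    choose hd C hC using h1
    exact ⟨∑ j, |C j|, h, hd, fun j z hz => (hC j z hz).trans ((le_abs_self _).trans
      (Finset.single_le_sum (f := fun j => |C j|) (fun _ _ => abs_nonneg _)
        (Finset.mem_univ j))), h2⟩
  · rintro ⟨C, h, h1, h2, h3⟩
    exact ⟨h, fun j => ⟨h1 j, C, h2 j⟩, h3⟩

/-- localization -/
theorem local_solve {N : ℕ} (hn : 2 ≤ n) {D : Set (EuclideanSpace ℂ (Fin n))}
    (hD : IsStrictlyPscDomain D) {f : Fin N → EuclideanSpace ℂ (Fin n) → ℂ} (hf : IsData D f)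
    (H : ∀ p ∈ frontier D, ∃ r > 0, ∃ (m : ℕ)
      (u : Fin m → EuclideanSpace ℂ (Fin n) → ℂ) (ε : ℝ), 0 < ε ∧ (∀ i, u i ∈ Tame D p) ∧
      ∀ c : Fin m → ℂ, Solvable (Cell (D ∩ ball p r) u c ε) f) : Solvable D f := by
  obtain ⟨hf, δ, hδ, hfδ⟩ := hf
  rw [solvable_iff]
  refine Pool.Agent.MPca0fc2.LD5.local_solve hn hD hf hδ hfδ (gen_tame hn hD) fun p hp => ?_
  obtain ⟨r, hr, m, u, ε, hε, hu, h⟩ := H p hp
  exact ⟨r, hr, m, u, ε, hε, fun i => (hu i).2, fun c => solvable_iff.1 (h c)⟩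

/-- the constants are tame -/
theorem zero_tame (D : Set (EuclideanSpace ℂ (Fin n))) (p : EuclideanSpace ℂ (Fin n)) :
    (fun _ => 0) ∈ Tame D p :=
  ⟨⟨1, one_pos, differentiableOn_const _, 0, fun z _ => by rw [norm_zero]⟩, fun ε hε =>
    ⟨1, one_pos, 0, Subalgebra.zero_mem _, fun z _ => by
      rw [Pi.zero_apply, sub_zero, norm_zero]; exact hε.le⟩⟩

/-- all polynomials in the data but one are tame, and their only common zero is the origin -/
theorem poly_solve {N : ℕ} (hn : 2 ≤ n) {D : Set (EuclideanSpace ℂ (Fin n))}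
    (hD : IsStrictlyPscDomain D) {f : Fin N → EuclideanSpace ℂ (Fin n) → ℂ} (hf : IsData D f)
    (H : ∀ p ∈ frontier D, ∃ (m : ℕ) (P : Fin m → MvPolynomial (Fin N) ℂ) (k : Fin m),
      (∀ x : Fin N → ℂ, (∀ i, MvPolynomial.eval x (P i) = 0) ↔ x = 0) ∧
      ∀ i, i ≠ k → (fun z => MvPolynomial.eval (fun j => f j z) (P i)) ∈ Tame D p) :
    Solvable D f := by
  classical
  refine local_solve hn hD hf fun p hp => ?_
  obtain ⟨m, P, k, hP, hT⟩ := H p hp
  obtain ⟨hf, δ, hδ, hfδ⟩ := hf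
  choose M hM using fun j => (hf j).2
  have hP0 : ∀ i, MvPolynomial.eval 0 (P i) = 0 := (hP 0).2 rfl
  obtain ⟨κ, hκ, hlow⟩ := Pool.Agent.MPca0fc2.LP.poly_lower (fun x => (hP x).1) hδ (∑ j, |M j|)
  obtain ⟨ε, hε, hεκ⟩ : ∃ ε > 0, 2 * (m * ε ^ 2) ≤ κ := by
    refine ⟨√(κ / (2 * (m + 1))), Real.sqrt_pos.2 (by positivity), ?_⟩
    rw [Real.sq_sqrt (by positivity)]
    have h1 : 2 * ((m : ℝ) * (κ / (2 * (m + 1)))) = m / (m + 1) * κ := by field_simp
    rw [h1]
    have h2 : (m : ℝ) / (m + 1) ≤ 1 := by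
      rw [div_le_one (by positivity)]
      linarith
    nlinarith
  refine ⟨1, one_pos, m, fun i z => if i = k then 0 else MvPolynomial.eval (fun j => f j z) (P i),
    ε / 3, by positivity, fun i => ?_, fun c => ?_⟩
  · by_cases hi : i = k
    · simp only [hi, if_true]
      exact zero_tame D p
    · simp only [hi, if_false]
      exact hT i hi
  obtain ⟨C, hC⟩ : ∃ C, C = Cell (D ∩ ball p 1)
      (fun i z => if i = k then 0 else MvPolynomial.eval (fun j => f j z) (P i)) c (ε / 3) :=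
    ⟨_, rfl⟩
  have hCD : C ⊆ D := by
    rw [hC]
    exact fun z hz => hz.1.1
  have hfC : ∀ j, IsHinf C (f j) := fun j => ⟨(hf j).1.mono hCD, M j, fun z hz => hM j z (hCD hz)⟩
  have hCc : ∀ z ∈ C, ∀ i, i ≠ k →
      ‖MvPolynomial.eval (fun j => f j z) (P i) - c i‖ < ε / 3 := by
    rw [hC]
    intro z hz i hi
    have h1 := hz.2 i
    simpa only [hi, if_false] using h1
  rw [← hC]
  by_cases hc : ∃ i, i ≠ k ∧ 2 * ε / 3 ≤ ‖c i‖
  · obtain ⟨i, hik, hi⟩ := hc
    refine Pool.Agent.MPca0fc2.LP.solve_below hfC (hP0 i) (show 0 < ε / 3 by positivity)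
      fun z hz => ?_
    have h1 := hCc z hz i hik
    have h2 : ‖c i‖ ≤ ‖MvPolynomial.eval (fun j => f j z) (P i)‖ +
        ‖MvPolynomial.eval (fun j => f j z) (P i) - c i‖ := by
      calc ‖c i‖ = ‖MvPolynomial.eval (fun j => f j z) (P i) -
            (MvPolynomial.eval (fun j => f j z) (P i) - c i)‖ := by congr 1; ring
        _ ≤ _ := norm_sub_le _ _
    linarith
  · push Not at hc
    refine Pool.Agent.MPca0fc2.LP.solve_below hfC (hP0 k) (Real.sqrt_pos.2 (half_pos hκ))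
      fun z hz => ?_
    have h0 := hlow (fun j => f j z) (hfδ z (hCD hz)) (by
      refine (pi_norm_le_iff_of_nonneg (Finset.sum_nonneg fun j _ => abs_nonneg _)).2 fun j => ?_
      exact (hM j z (hCD hz)).trans ((le_abs_self _).trans
        (Finset.single_le_sum (f := fun j => |M j|) (fun _ _ => abs_nonneg _)
          (Finset.mem_univ j))))
    have h1 : ∀ i, i ≠ k → ‖MvPolynomial.eval (fun j => f j z) (P i)‖ ^ 2 ≤ ε ^ 2 := by
      intro i hi
      have h1 := hCc z hz i hi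
      have h2 := hc i hi
      refine pow_le_pow_left₀ (norm_nonneg _) ?_ 2
      calc ‖MvPolynomial.eval (fun j => f j z) (P i)‖
          = ‖(MvPolynomial.eval (fun j => f j z) (P i) - c i) + c i‖ := by congr 1; ring
        _ ≤ ‖MvPolynomial.eval (fun j => f j z) (P i) - c i‖ + ‖c i‖ := norm_add_le _ _
        _ ≤ ε := by linarith
    have h2 : ∑ i ∈ Finset.univ.erase k, ‖MvPolynomial.eval (fun j => f j z) (P i)‖ ^ 2 ≤
        m * ε ^ 2 := by
      refine (Finset.sum_le_sum fun i hi => h1 i (Finset.ne_of_mem_erase hi)).trans ?_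
      rw [Finset.sum_const, nsmul_eq_mul]
      refine mul_le_mul_of_nonneg_right ?_ (sq_nonneg _)
      have h3 := Finset.card_le_univ (Finset.univ.erase k)
      rw [Fintype.card_fin] at h3
      exact_mod_cast h3
    rw [← Finset.add_sum_erase _ _ (Finset.mem_univ k)] at h0
    rw [← Real.sqrt_sq (norm_nonneg (MvPolynomial.eval (fun j => f j z) (P k)))]
    exact Real.sqrt_le_sqrt (by linarith)

/-- for all `j ≠ k` one of the functions `f_j`, `f_k`, `f_j f_k` is tame -/
theorem product_solve {N : ℕ} (hn : 2 ≤ n) {D : Set (EuclideanSpace ℂ (Fin n))}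
    (hD : IsStrictlyPscDomain D) {f : Fin N → EuclideanSpace ℂ (Fin n) → ℂ} (hf : IsData D f)
    (H : ∀ p ∈ frontier D, ∀ j k, j ≠ k →
      f j ∈ Tame D p ∨ f k ∈ Tame D p ∨ (fun z => f j z * f k z) ∈ Tame D p) :
    Solvable D f := by
  classical
  refine poly_solve hn hD hf fun p hp => ?_
  -- the polynomials, indexed by the pairs
  obtain ⟨e⟩ : Nonempty (Fin (Fintype.card (Option (Fin N × Fin N))) ≃
    Option (Fin N × Fin N)) := ⟨(Fintype.equivFin _).symm⟩
  -- `X j` if `f j` is tame, otherwise the products with the other functions which are not tame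
  obtain ⟨Q, hQ⟩ : ∃ Q : Option (Fin N × Fin N) → MvPolynomial (Fin N) ℂ, Q = fun x =>
      match x with
      | none => ∑ j, if f j ∈ Tame D p then 0 else MvPolynomial.X j
      | some (j, k) => if f j ∈ Tame D p then MvPolynomial.X j else
          if f k ∈ Tame D p ∨ j = k then 0 else MvPolynomial.X j * MvPolynomial.X k := ⟨_, rfl⟩
  refine ⟨_, fun i => Q (e i), e.symm none, fun x => ⟨fun hx => ?_, fun hx i => ?_⟩,
    fun i hi => ?_⟩
  · have hx' : ∀ y, MvPolynomial.eval x (Q y) = 0 := by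
      intro y
      have h1 := hx (e.symm y)
      beta_reduce at h1
      rwa [e.apply_symm_apply] at h1
    have h1 : ∀ j, f j ∈ Tame D p → x j = 0 := by
      intro j hj
      have h2 := hx' (some (j, j))
      rw [hQ] at h2
      simpa only [hj, if_true, MvPolynomial.eval_X] using h2
    have h2 : ∀ j k, f j ∉ Tame D p → f k ∉ Tame D p → j ≠ k → x j = 0 ∨ x k = 0 := by
      intro j k hj hk hjk
      have h2 := hx' (some (j, k))
      rw [hQ] at h2
      simp only [hj, if_false, hk, hjk, or_self, map_mul, MvPolynomial.eval_X] at h2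
      exact mul_eq_zero.1 h2
    funext j
    show x j = 0
    by_contra hj
    have hjT : f j ∉ Tame D p := fun h => hj (h1 j h)
    have h3 : ∀ k, k ≠ j → x k = 0 := by
      intro k hk
      by_cases hkT : f k ∈ Tame D p
      · exact h1 k hkT
      · exact (h2 k j hkT hjT hk).resolve_right hj
    have h4 := hx' none
    rw [hQ] at h4
    simp only [map_sum] at h4
    rw [Finset.sum_eq_single j (fun k _ hk => ?_) fun h => absurd (Finset.mem_univ j) h] at h4
    · rw [if_neg hjT, MvPolynomial.eval_X] at h4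
      exact hj h4
    · split_ifs
      · rw [map_zero]
      · rw [MvPolynomial.eval_X]
        exact h3 k hk
  · rw [hx]
    beta_reduce
    generalize e i = y
    rw [hQ]
    rcases y with _ | ⟨j, k⟩
    · simp only [map_sum]
      refine Finset.sum_eq_zero fun j _ => ?_
      split_ifs
      · rw [map_zero]
      · rw [MvPolynomial.eval_X]
        rfl
    · dsimp only
      split_ifs
      · rw [MvPolynomial.eval_X]
        rfl
      · rw [map_zero]
      · rw [map_mul, MvPolynomial.eval_X, Pi.zero_apply, zero_mul]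
  · have h1 : e i ≠ none := fun h => hi (by rw [← h, e.symm_apply_apply])
    beta_reduce
    generalize e i = y at h1
    rcases y with _ | ⟨j, k⟩
    · exact absurd rfl h1
    · rw [hQ]
      dsimp only
      split_ifs with h2 h3
      · simpa only [MvPolynomial.eval_X] using h2
      · simpa only [map_zero] using zero_tame D p
      · simp only [map_mul, MvPolynomial.eval_X]
        rw [not_or] at h3
        rcases H p hp j k h3.2 with h | h | h
        · exact absurd h h2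
        · exact absurd h h3.1
        · exact h

/-- all data in `T_p` for each `p` are solvable -/
theorem tame_solve {N : ℕ} (hn : 2 ≤ n) {D : Set (EuclideanSpace ℂ (Fin n))}
    (hD : IsStrictlyPscDomain D) {f : Fin N → EuclideanSpace ℂ (Fin n) → ℂ} (hf : IsData D f)
    (H : ∀ p ∈ frontier D, ∀ j, f j ∈ Tame D p) : Solvable D f :=
  product_solve hn hD hf fun p hp j _ _ => Or.inl (H p hp j)

/-- a function with a limit at `q` is tame at `q` -/
theorem tame_of_cont {D : Set (EuclideanSpace ℂ (Fin n))} {q : EuclideanSpace ℂ (Fin n)}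
    {v : EuclideanSpace ℂ (Fin n) → ℂ} (hv : IsHinf D v)
    (hc : ContinuousWithinAt v D q) : v ∈ Tame D q := by
  refine ⟨⟨1, one_pos, hv.1.mono inter_subset_left, hv.2.choose,
    fun z hz => hv.2.choose_spec z hz.1⟩, fun ε hε => ?_⟩
  obtain ⟨r, hr, h⟩ := Metric.continuousWithinAt_iff.1 hc ε hε
  refine ⟨r, hr, algebraMap ℂ _ (v q), Subalgebra.algebraMap_mem _ _, fun z hz => ?_⟩
  have h1 := h hz.1 hz.2
  rw [dist_eq_norm] at h1
  exact h1.le

theorem coord_psc {N : ℕ} {W : Set (EuclideanSpace ℂ (Fin N))} (hW : IsStrictlyPscDomain W)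
    (h0 : (0 : EuclideanSpace ℂ (Fin N)) ∉ closure W) :
    Pool.Agent.MPca0fc2.LS.CoordSolvable W := by
  obtain ⟨ε, hε, hεW⟩ : ∃ ε > 0, ∀ y ∈ W, ε ≤ ‖y‖ := by
    obtain ⟨ε, hε, h⟩ := Metric.nhds_basis_ball.mem_iff.1
      (isClosed_closure.isOpen_compl.mem_nhds h0)
    refine ⟨ε, hε, fun y hy => ?_⟩
    by_contra hcon
    exact h (mem_ball_zero_iff.2 (not_le.1 hcon)) (subset_closure hy)
  obtain ⟨R, hR⟩ := (isBounded_iff_forall_norm_le).1 hW.1
  have hdiff : ∀ j : Fin N, Differentiable ℂ fun y : EuclideanSpace ℂ (Fin N) => y j :=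
    fun j => (EuclideanSpace.proj j : EuclideanSpace ℂ (Fin N) →L[ℂ] ℂ).differentiable
  have hdata : IsData W fun (j : Fin N) (y : EuclideanSpace ℂ (Fin N)) => y j := by
    refine ⟨fun j => ⟨(hdiff j).differentiableOn, R, fun y hy =>
      (PiLp.norm_apply_le y j).trans (hR y hy)⟩, ε ^ 2, by positivity, fun y hy => ?_⟩
    rw [← EuclideanSpace.norm_sq_eq]
    exact pow_le_pow_left₀ hε.le (hεW y hy) 2
  rcases Nat.lt_or_ge N 2 with hN | hN
  · rcases W.eq_empty_or_nonempty with hWe | ⟨y₀, hy₀⟩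
    · rw [hWe]
      exact Pool.Agent.MPca0fc2.LS.coordSolvable_empty
    · have hN1 : N = 1 := by
        rcases Nat.lt_or_ge N 1 with h | h
        · exfalso
          have hN0 : N = 0 := by omega
          subst hN0
          have h1 := hεW y₀ hy₀
          rw [EuclideanSpace.norm_eq] at h1
          simp at h1
          linarith
        · omega
      subst hN1
      have hne : ∀ y ∈ W, ε ≤ ‖y 0‖ := by
        intro y hy
        have h1 := hεW y hy
        rw [EuclideanSpace.norm_eq] at h1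
        simpa using h1
      refine ⟨fun _ y => (y 0)⁻¹, fun j => ⟨?_, ε⁻¹, fun y hy => ?_⟩, fun y hy => ?_⟩
      · exact (hdiff 0).differentiableOn.inv fun y hy h => by
          have := hne y hy
          rw [h, norm_zero] at this
          linarith
      · rw [norm_inv]
        exact inv_anti₀ hε (hne y hy)
      · simp only [Finset.univ_unique, Fin.default_eq_zero, Fin.isValue, Finset.sum_singleton]
        exact mul_inv_cancel₀ fun h => by
          have := hne y hy
          rw [h, norm_zero] at this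
          linarith
  · exact tame_solve hN hW hdata fun p hp j => tame_of_cont (hdata.1 j)
      (hdiff j).continuous.continuousWithinAt

theorem coord_curve {N : ℕ} {K : Set (EuclideanSpace ℂ (Fin N))} (hK : IsCompact K)
    (h0 : (0 : EuclideanSpace ℂ (Fin N)) ∉ K) (h : InCurve K) :
    ∃ W, IsOpen W ∧ Pool.Agent.MPca0fc2.LS.CoordSolvable W ∧ K ⊆ W := by
  obtain ⟨m, P, P₀, hP, hP0, hfin⟩ := h
  have hcont : Continuous (WithLp.ofLp : EuclideanSpace ℂ (Fin N) → Fin N → ℂ) :=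
    (PiLp.continuousLinearEquiv 2 ℂ fun _ : Fin N => ℂ).continuous
  have hdiff : Differentiable ℂ (WithLp.ofLp : EuclideanSpace ℂ (Fin N) → Fin N → ℂ) :=
    (PiLp.continuousLinearEquiv 2 ℂ fun _ : Fin N => ℂ).differentiable
  obtain ⟨W, hW, hKW, G, B, hG, hGB, hG1⟩ := Pool.Agent.MPca0fc2.LS.curve_nbhd P P₀ hP0 hfin
    (hK.image hcont) (by rintro _ ⟨y, hy, rfl⟩; exact hP y hy) (by
      rintro ⟨y, hy, h1⟩
      refine h0 ?_
      have : y = 0 := by
        ext j
        rw [h1]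
        rfl
      rwa [this] at hy)
  refine ⟨WithLp.ofLp ⁻¹' W, hW.preimage hcont, ⟨fun j y => G j (WithLp.ofLp y), fun j =>
    ⟨(hG j).comp hdiff.differentiableOn (mapsTo_preimage _ _), B, fun y hy => hGB j _ hy⟩,
    fun y hy => hG1 _ hy⟩, fun y hy => hKW ⟨y, hy, rfl⟩⟩

/-- **Localization over the spectrum.** -/
theorem spectrum_solve {N : ℕ} (hn : 2 ≤ n) {D : Set (EuclideanSpace ℂ (Fin n))}
    (hD : IsStrictlyPscDomain D) {f : Fin N → EuclideanSpace ℂ (Fin n) → ℂ} (hf : IsData D f)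
    (H : ∀ p ∈ frontier D, ∀ U : Ultrafilter (EuclideanSpace ℂ (Fin n)),
      (U : Filter _) ≤ 𝓝[D] p → ∃ (m : ℕ) (u : Fin m → EuclideanSpace ℂ (Fin n) → ℂ)
      (c : Fin m → ℂ) (ε : ℝ), 0 < ε ∧ (∀ i, u i ∈ Tame D p) ∧
      (∀ i, Tendsto (u i) U (𝓝 (c i))) ∧ Solvable (Cell (D ∩ ball p ε) u c ε) f) :
    Solvable D f := by
  refine local_solve hn hD hf fun p hp => ?_
  refine Pool.Agent.MPca0fc2.LS.uniform_cells (Sol := fun C => Solvable C f) ?_ ?_ (H p hp)
  · rintro A B hAB ⟨h, h1, h2⟩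
    exact ⟨h, fun j => ⟨(h1 j).1.mono hAB, (h1 j).2.choose,
      fun z hz => (h1 j).2.choose_spec z (hAB hz)⟩, fun z hz => h2 z (hAB hz)⟩
  · exact ⟨fun _ _ => 0, fun j => ⟨fun z hz => absurd hz (notMem_empty z), 0,
      fun z hz => absurd hz (notMem_empty z)⟩, fun z hz => absurd hz (notMem_empty z)⟩

/-- the components of the limit sets over the points of the spectrum lie in domains or curves -/
theorem limit_solve {N : ℕ} (hn : 2 ≤ n) {D : Set (EuclideanSpace ℂ (Fin n))}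
    (hD : IsStrictlyPscDomain D) {f : Fin N → EuclideanSpace ℂ (Fin n) → ℂ} (hf : IsData D f)
    (H : ∀ p ∈ frontier D, ∀ U : Ultrafilter (EuclideanSpace ℂ (Fin n)),
      (U : Filter _) ≤ 𝓝[D] p → ∀ y ∈ Limits D p U f,
        InDomain (connectedComponentIn (Limits D p U f) y) ∨
        InCurve (connectedComponentIn (Limits D p U f) y)) : Solvable D f := by
  refine spectrum_solve hn hD hf fun p hp => ?_
  obtain ⟨hfH, δ, hδ, hfδ⟩ := hf
  choose M hM using fun j => (hfH j).2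
  have hMM : ∀ j, ∀ z ∈ D, ‖f j z‖ ≤ ∑ j, |M j| := fun j z hz =>
    (hM j z hz).trans ((le_abs_self _).trans
      (Finset.single_le_sum (f := fun j => |M j|) (fun _ _ => abs_nonneg _) (Finset.mem_univ j)))
  refine Pool.Agent.MPca0fc2.LS.cells_of_spectrum (T := Tame D p) hfH fun U hU y hy => ?_
  have hK : IsCompact (connectedComponentIn (Limits D p U f) y) := by
    have h1 := Pool.Agent.MPca0fc2.LS.flimits_compact (p := p) (T := Tame D p) (U := U) hMM
    have : CompactSpace (Limits D p U f) := isCompact_iff_compactSpace.1 h1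
    rw [connectedComponentIn_eq_image (show y ∈ Limits D p U f from hy)]
    exact (isClosed_connectedComponent.isCompact).image continuous_subtype_val
  rcases H p hp U hU y hy with ⟨W, hW, h0, hKW⟩ | hcur
  · refine ⟨W, ?_, coord_psc hW h0, hKW⟩
    obtain ⟨-, V, ρ, hV, hVc, hρ, hWe, -⟩ := hW
    rw [hWe]
    exact (hρ.continuousOn.isOpen_inter_preimage hV isOpen_Iio)
  · obtain ⟨W, h1, h2, h3⟩ := coord_curve hK (fun h0 => by
      obtain ⟨V, ⟨hV, -⟩, hy⟩ := (connectedComponentIn_subset (Limits D p U f) y) h0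
      have h1 : Tendsto (fun z => ∑ j, ‖f j z‖ ^ 2) V
          (𝓝 (∑ j, ‖(0 : EuclideanSpace ℂ (Fin N)) j‖ ^ 2)) :=
        tendsto_finsetSum _ fun j _ => ((hy j).norm).pow 2
      have hDV : D ∈ (V : Filter (EuclideanSpace ℂ (Fin n))) := hV self_mem_nhdsWithin
      have h2 := ge_of_tendsto h1 (mem_of_superset hDV fun z hz => hfδ z hz)
      simp at h2
      linarith) hcur
    exact ⟨W, h1, h2, h3⟩

/-- a nonconstant polynomial in two functions is tame -/
theorem relation_solve (hn : 2 ≤ n) {D : Set (EuclideanSpace ℂ (Fin n))}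
    (hD : IsStrictlyPscDomain D) {f : Fin 2 → EuclideanSpace ℂ (Fin n) → ℂ} (hf : IsData D f)
    (H : ∀ p ∈ frontier D, ∃ P : MvPolynomial (Fin 2) ℂ, (∀ c, P ≠ MvPolynomial.C c) ∧
      (fun z => MvPolynomial.eval (fun j => f j z) P) ∈ Tame D p) : Solvable D f := by
  refine limit_solve hn hD hf fun p hp U hU y hy => Or.inr ?_
  obtain ⟨P, hP, hPT⟩ := H p hp
  obtain ⟨V₀, ⟨hV₀, hV₀T⟩, hy₀⟩ := hy
  have hcont : Continuous fun x : Fin 2 → ℂ => MvPolynomial.eval x P :=
    MvPolynomial.continuous_eval P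
  have hlimit : ∀ {V : Ultrafilter (EuclideanSpace ℂ (Fin n))} {y : EuclideanSpace ℂ (Fin 2)},
      (∀ j, Tendsto (f j) V (𝓝 (y j))) → Tendsto (fun z => MvPolynomial.eval (fun j => f j z) P) V
        (𝓝 (MvPolynomial.eval y P)) := by
    intro V y h
    exact (hcont.tendsto _).comp (tendsto_pi_nhds.2 h)
  -- the limit of the polynomial along `U`
  obtain ⟨c, hc⟩ : ∃ c, Tendsto (fun z => MvPolynomial.eval (fun j => f j z) P) U (𝓝 c) := by
    obtain ⟨⟨r, hr, -, M, hM⟩, -⟩ := hPT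
    have h1 : D ∩ ball p r ∈ U := hU (inter_mem_nhdsWithin D (ball_mem_nhds p hr))
    have h2 : closedBall (0 : ℂ) M ∈
        U.map fun z => MvPolynomial.eval (fun j => f j z) P := by
      rw [Ultrafilter.mem_map]
      exact mem_of_superset h1 fun z hz => mem_closedBall_zero_iff.2 (hM z hz)
    obtain ⟨c, -, hc⟩ := (isCompact_closedBall (0 : ℂ) M).ultrafilter_le_nhds' _ h2
    exact ⟨c, hc⟩
  have hPc : P - MvPolynomial.C c ≠ 0 := fun h => hP c (sub_eq_zero.1 h)
  obtain ⟨v, hv⟩ : ∃ v : Fin 2 → ℂ, MvPolynomial.eval v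
      ((P - MvPolynomial.C c) * MvPolynomial.X 0) ≠ 0 := by
    by_contra hcon
    push Not at hcon
    have h1 : (P - MvPolynomial.C c) * MvPolynomial.X 0 = 0 :=
      MvPolynomial.funext fun x => by rw [hcon x, map_zero]
    exact (mul_ne_zero hPc (MvPolynomial.X_ne_zero 0)) h1
  rw [map_mul, MvPolynomial.eval_X] at hv
  obtain ⟨hv1, hv0⟩ := mul_ne_zero_iff.1 hv
  refine ⟨1, fun _ => P - MvPolynomial.C c,
    MvPolynomial.C (v 1) * MvPolynomial.X 0 - MvPolynomial.C (v 0) * MvPolynomial.X 1,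
    fun x hx i => ?_, by simp, ?_⟩
  · obtain ⟨V, ⟨hV, hVT⟩, hx⟩ := (connectedComponentIn_subset (Limits D p U f) y) hx
    have h1 := tendsto_nhds_unique (hlimit hx) (hVT _ hPT c hc)
    rw [map_sub, MvPolynomial.eval_C]
    exact sub_eq_zero.2 h1
  · -- the polynomial restricted to the line
    obtain ⟨q, hq⟩ : ∃ q : Polynomial ℂ, q = MvPolynomial.aeval
        (fun i => Polynomial.C (v i) * Polynomial.X) (P - MvPolynomial.C c) := ⟨_, rfl⟩
    have hqe : ∀ t : ℂ, q.eval t = MvPolynomial.eval (fun i => v i * t)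
        (P - MvPolynomial.C c) := by
      intro t
      have h1 : (Polynomial.aeval t).comp (MvPolynomial.aeval
          (fun i => Polynomial.C (v i) * Polynomial.X)) =
          (MvPolynomial.aeval (fun i => v i * t) : MvPolynomial (Fin 2) ℂ →ₐ[ℂ] ℂ) := by
        ext i
        simp
      have h2 := DFunLike.congr_fun h1 (P - MvPolynomial.C c)
      rw [hq, ← Polynomial.coe_aeval_eq_eval]
      exact h2
    have hq0 : q ≠ 0 := by
      intro h
      have h1 := hqe 1
      rw [h] at h1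
      simp only [Polynomial.eval_zero, mul_one] at h1
      exact hv1 h1.symm
    refine ((Polynomial.finite_setOfPred_isRoot hq0).image fun t i => v i * t).subset ?_
    rintro x ⟨hx1, hx2⟩
    refine ⟨x 0 / v 0, ?_, ?_⟩
    · show q.IsRoot _
      rw [Polynomial.IsRoot.def, hqe]
      have h1 := hx1 0
      have h2 : (fun i => v i * (x 0 / v 0)) = x := by
        funext i
        fin_cases i
        · show v 0 * (x 0 / v 0) = x 0
          field_simp
        · show v 1 * (x 0 / v 0) = x 1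
          simp at hx2
          field_simp
          linear_combination hx2
      rw [h2]
      exact h1
    · funext i
      fin_cases i
      · show v 0 * (x 0 / v 0) = x 0
        field_simp
      · show v 1 * (x 0 / v 0) = x 1
        simp at hx2
        field_simp
        linear_combination hx2

theorem threshold {N : ℕ} (hn : 2 ≤ n) (hN : 1 ≤ N) {D : Set (EuclideanSpace ℂ (Fin n))}
    (hD : IsStrictlyPscDomain D) {p : EuclideanSpace ℂ (Fin n)} (hp : p ∈ frontier D)
    {F : EuclideanSpace ℂ (Fin n) → ℂ} {r : ℝ} (hr : 0 < r) (hF : DifferentiableOn ℂ F (ball p r))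
    (hF0 : F p = 0) (hF1 : ∀ z ∈ D ∩ ball p r, 0 < (F z).re) {lam : ℝ → ℝ}
    (h1 : AntitoneOn lam (Ioi 0)) (h2 : ∀ t, 0 < t → 1 ≤ lam t) :
    List.TFAE [
      ∀ f : Fin N → EuclideanSpace ℂ (Fin n) → ℂ, IsData D f → (∀ j, f j ∈ Singular D p F lam) →
        Solvable D f,
      ∀ f : Fin N → EuclideanSpace ℂ (Fin n) → ℂ, IsData D f → (∀ j, f j ∈ Singular D p F lam) →
        ∃ s > 0, Solvable (D ∩ ball p s) f,
      BddAbove (lam '' Ioi 0) ∨ Q1Upto N n] := by
  tfae_have 1 → 2 := by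
    intro h f hf hfs
    obtain ⟨g, g1, g2⟩ := h f hf hfs
    exact ⟨1, one_pos, g, fun j => ⟨(g1 j).1.mono inter_subset_left, (g1 j).2.choose,
      fun z hz => (g1 j).2.choose_spec z hz.1⟩, fun z hz => g2 z hz.1⟩
  tfae_have 2 → 3 := by
    intro h
    by_contra hcon
    obtain ⟨hb, hQ⟩ := not_or.1 hcon
    refine hQ ?_
    have h3 := Pool.Agent.MPca0fc2.TH.unbounded (N := N) hn hD hp hr hF hF0 hF1 h1 h2 hb
      fun f hf hδ hc ⟨s, hs, hg⟩ => h f ⟨hf, hδ⟩ fun j => ⟨hc j, s, hs, hg j⟩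
    intro m hm hmn D' hD' f hf
    exact Pool.Agent.MPca0fc2.TH.unbounded_q1 hn hN h3 m hm hmn D' hD' f hf.1 hf.2
  tfae_have 3 → 1 := by
    rintro (⟨M, hM⟩ | hQ) f hf hfs
    · refine tame_solve hn hD hf fun q hq j => ?_
      by_cases hqp : q = p
      · subst hqp
        obtain ⟨-, s, hs, hg⟩ := hfs j
        refine ⟨⟨1, one_pos, (hf.1 j).1.mono inter_subset_left, (hf.1 j).2.choose,
          fun z hz => (hf.1 j).2.choose_spec z hz.1⟩, fun ε hε => ?_⟩
        refine ⟨min r s, lt_min hr hs, f j, Algebra.subset_adjoin (Or.inl (Or.inr ?_)), fun z _ => by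
          rw [sub_self, norm_zero]; exact hε.le⟩
        have hsub : D ∩ ball q (min r s) ⊆ D ∩ ball q r := fun z hz =>
          ⟨hz.1, ball_subset_ball (min_le_left _ _) hz.2⟩
        refine ⟨⟨(hf.1 j).1.mono inter_subset_left, (hf.1 j).2.choose,
          fun z hz => (hf.1 j).2.choose_spec z hz.1⟩, F, 2, 1, M, two_pos, one_pos,
          hF.mono (ball_subset_ball (min_le_left _ _)), fun z hz => hF1 z (hsub hz),
          fun φ hφ hφD => ?_⟩
        have h0 := hφD 0 (mem_ball_self one_pos)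
        have h3 := hg φ hφ fun x hx => ⟨(hφD x hx).1, ball_subset_ball (min_le_right _ _)
          (hφD x hx).2⟩
        have hFp : 0 < ‖F (φ 0)‖ := (hF1 _ (hsub h0)).trans_le (Complex.re_le_norm _)
        have h4 : lam ‖F (φ 0)‖ ≤ M := hM ⟨_, hFp, rfl⟩
        rw [Real.rpow_one, Real.rpow_two]
        exact h3.trans (mul_le_mul_of_nonneg_right h4 (div_nonneg infDist_nonneg hFp.le))
      · refine tame_of_cont (hf.1 j) ?_
        have h3 := (hfs j).1 q ⟨frontier_subset_closure hq, hqp⟩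
        refine (h3.mono_of_mem_nhdsWithin ?_)
        have h4 : {p}ᶜ ∈ 𝓝 q := isOpen_compl_singleton.mem_nhds hqp
        filter_upwards [self_mem_nhdsWithin, mem_nhdsWithin_of_mem_nhds h4] with z hz1 hz2
        exact ⟨subset_closure hz1, hz2⟩
    · exact hQ n hn le_rfl D hD f hf
  tfae_finish

/-- **The corona problem on a strictly pseudoconvex domain is local over the spectrum of the tame
functions; data whose limit sets over the spectrum lie in domains or in curves; a sharp condition at each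
boundary point.** -/
theorem result {N : ℕ} (hn : 2 ≤ n) (hN : 1 ≤ N) {D : Set (EuclideanSpace ℂ (Fin n))}
    (hD : IsStrictlyPscDomain D) :
    (∀ f : Fin N → EuclideanSpace ℂ (Fin n) → ℂ, IsData D f →
      -- (A) arbitrary data are solvable if near each boundary point they are solvable on a cell of
      -- finitely many tame functions around each point of the spectrum
      (Solvable D f ↔ ∀ p ∈ frontier D, ∀ U : Ultrafilter (EuclideanSpace ℂ (Fin n)),
        (U : Filter _) ≤ 𝓝[D] p → ∃ (m : ℕ) (u : Fin m → EuclideanSpace ℂ (Fin n) → ℂ)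
        (c : Fin m → ℂ) (ε : ℝ), 0 < ε ∧ (∀ i, u i ∈ Tame D p) ∧
        (∀ i, Tendsto (u i) U (𝓝 (c i))) ∧ Solvable (Cell (D ∩ ball p ε) u c ε) f) ∧
      -- (B) arbitrary data such that the components of their limit set over each point of the spectrum
      -- lie in strictly pseudoconvex domains whose closure omits the origin or in curves
      ((∀ p ∈ frontier D, ∀ U : Ultrafilter (EuclideanSpace ℂ (Fin n)),
        (U : Filter _) ≤ 𝓝[D] p → ∀ y ∈ Limits D p U f,
          InDomain (connectedComponentIn (Limits D p U f) y) ∨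
          InCurve (connectedComponentIn (Limits D p U f) y)) → Solvable D f) ∧
      -- for all `j ≠ k` one of `f_j`, `f_k`, `f_j f_k` is tame
      ((∀ p ∈ frontier D, ∀ j k, j ≠ k →
        f j ∈ Tame D p ∨ f k ∈ Tame D p ∨ (fun z => f j z * f k z) ∈ Tame D p) →
        Solvable D f)) ∧
    -- two arbitrary functions such that some nonconstant polynomial in them is tame
    (∀ f : Fin 2 → EuclideanSpace ℂ (Fin n) → ℂ, IsData D f →
      (∀ p ∈ frontier D, ∃ P : MvPolynomial (Fin 2) ℂ, (∀ c, P ≠ MvPolynomial.C c) ∧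
        (fun z => MvPolynomial.eval (fun j => f j z) P) ∈ Tame D p) → Solvable D f) ∧
    -- (C) the sharp threshold at each boundary point
    (∀ p ∈ frontier D, ∀ (F : EuclideanSpace ℂ (Fin n) → ℂ) (r : ℝ), 0 < r →
      DifferentiableOn ℂ F (ball p r) → F p = 0 → (∀ z ∈ D ∩ ball p r, 0 < (F z).re) →
      ∀ lam : ℝ → ℝ, AntitoneOn lam (Ioi 0) → (∀ t, 0 < t → 1 ≤ lam t) →
      List.TFAE [
        ∀ f : Fin N → EuclideanSpace ℂ (Fin n) → ℂ, IsData D f →
          (∀ j, f j ∈ Singular D p F lam) → Solvable D f,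
        ∀ f : Fin N → EuclideanSpace ℂ (Fin n) → ℂ, IsData D f →
          (∀ j, f j ∈ Singular D p F lam) → ∃ s > 0, Solvable (D ∩ ball p s) f,
        BddAbove (lam '' Ioi 0) ∨ Q1Upto N n]) := by
  refine ⟨fun f hf => ⟨⟨fun h p _ U _ => ⟨0, fun i => i.elim0, fun i => i.elim0, 1, one_pos,
    fun i => i.elim0, fun i => i.elim0, ?_⟩, spectrum_solve hn hD hf⟩, limit_solve hn hD hf,
    product_solve hn hD hf⟩, fun f hf => relation_solve hn hD hf,
    fun p hp F r hr hF hF0 hF1 lam h1 h2 => threshold hn hN hD hp hr hF hF0 hF1 h1 h2⟩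
  obtain ⟨g, h1, h2⟩ := h
  exact ⟨g, fun j => ⟨(h1 j).1.mono fun z hz => hz.1.1, (h1 j).2.choose,
    fun z hz => (h1 j).2.choose_spec z hz.1.1⟩, fun z hz => h2 z hz.1.1⟩

end Pool.Agent.Results.MP_ca0fc2_an.TameGerms
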